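import Pool.Agent.Work.MP_814647_an.TopStatement
import Pool.Agent.Work.MP_814647_an.FT.FibredStatement

/-!
# Torus diffeomorphisms with a dominated one-dimensional centre: the notions in the statement
-/

open Set Filter Topology
open scoped Manifold ContDiff

noncomputable section

namespace Pool.Agent.OmegaStability

/-- The linear map `ℝ^m → ℝ^p` with the real matrix `M`. -/
def realMap {p m : ℕ} (M : Matrix (Fin p) (Fin m) ℝ) (v : EuclideanSpace ℝ (Fin m)) :
    EuclideanSpace ℝ (Fin p) :=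
  WithLp.toLp 2 fun i => ∑ j, M i j * v j

/-- Linear maps `S : ℝ^m → ℝ^p`, `l : ℝ^m → ℝ`, `U : ℝ^m → ℝ^q`, and linear maps `As`, `Au` of
`ℝ^p`, `ℝ^q`, all given by their matrices. -/
structure CentreFrame (m p q : ℕ) where
  S : Matrix (Fin p) (Fin m) ℝ
  l : Fin m → ℝ
  U : Matrix (Fin q) (Fin m) ℝ
  As : Matrix (Fin p) (Fin p) ℝ
  Au : Matrix (Fin q) (Fin q) ℝ

namespace CentreFrame

variable {m p q : ℕ}

/-- The centre coordinate `l v`. -/
def cen (X : CentreFrame m p q) (v : EuclideanSpace ℝ (Fin m)) : ℝ := ∑ j, X.l j * v j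

/-- The maps `(S, l, U)` are linear coordinates of `ℝ^m`, in which the vector `c` is `(0, 1, 0)`,
and in which the integer matrix `A`, invertible over the integers, acts on the coordinate `S` by
`As` and on the coordinate `U` by `Au`. -/
def Adapted (X : CentreFrame m p q) (A : Matrix (Fin m) (Fin m) ℤ)
    (c : EuclideanSpace ℝ (Fin m)) : Prop :=
  IsUnit A.det ∧ (Function.Bijective fun v => (realMap X.S v, X.cen v, realMap X.U v)) ∧
    (realMap X.S c = 0 ∧ X.cen c = 1 ∧ realMap X.U c = 0) ∧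
    ∀ v, realMap X.S (linMap A v) = realMap X.As (realMap X.S v) ∧
      realMap X.U (linMap A v) = realMap X.Au (realMap X.U v)

/-- The size of the two hyperbolic coordinates of `v`. -/
def hyp (X : CentreFrame m p q) (v : EuclideanSpace ℝ (Fin m)) : ℝ :=
  max ‖realMap X.S v‖ ‖realMap X.U v‖

/-- The size of the three coordinates of `v`. -/
def size (X : CentreFrame m p q) (v : EuclideanSpace ℝ (Fin m)) : ℝ := max (X.hyp v) |X.cen v|

/-- The linear map `As` and, up to an error `δ`, the map `F` in the coordinate `S`, contract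
by `μ`. -/
def ContractsS (X : CentreFrame m p q) (F : EuclideanSpace ℝ (Fin m) → EuclideanSpace ℝ (Fin m))
    (μ δ : ℝ) : Prop :=
  (∀ x, ‖realMap X.As x‖ ≤ μ * ‖x‖) ∧
    ∀ v w, ‖realMap X.S (F v - F w)‖ ≤ μ * ‖realMap X.S (v - w)‖ + δ * X.size (v - w)

/-- The linear map `Au` and, up to an error `δ`, the map `F` in the coordinate `U`, expand
by `μ`. -/
def ExpandsU (X : CentreFrame m p q) (F : EuclideanSpace ℝ (Fin m) → EuclideanSpace ℝ (Fin m))
    (μ δ : ℝ) : Prop :=
  (∀ z, μ * ‖z‖ ≤ ‖realMap X.Au z‖) ∧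
    ∀ v w, μ * ‖realMap X.U (v - w)‖ - δ * X.size (v - w) ≤ ‖realMap X.U (F v - F w)‖

/-- The centre coordinate of `F` increases by factors between `a` and `b` along the centre
direction `c`, and is `L`-Lipschitz in the two other coordinates. -/
def CentreBounds (X : CentreFrame m p q) (F : EuclideanSpace ℝ (Fin m) → EuclideanSpace ℝ (Fin m))
    (c : EuclideanSpace ℝ (Fin m)) (a b L : ℝ) : Prop :=
  (∀ v, ∀ s : ℝ, 0 ≤ s → a * s ≤ X.cen (F (v + s • c) - F v) ∧
    X.cen (F (v + s • c) - F v) ≤ b * s) ∧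
    ∀ v w, X.cen v = X.cen w → |X.cen (F v - F w)| ≤ L * X.hyp (v - w)

/-- The lift `F` is dominated, with a one-dimensional centre: `F` expands the coordinate `U` by
`μu` and contracts the coordinate `S` by `μs`, up to an error `δ`, while it expands the centre
direction `c` by factors between `a` and `b`, where `μs + g ≤ min a 1`, `max b 1 + g ≤ μu`; the
centre coordinate of `F` is `L`-Lipschitz in the other two, and `16 * (1 + L) * δ ≤ g ^ 2`. -/
def Dominated (X : CentreFrame m p q) (F : EuclideanSpace ℝ (Fin m) → EuclideanSpace ℝ (Fin m))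
    (c : EuclideanSpace ℝ (Fin m)) : Prop :=
  ∃ a b μs μu δ L g : ℝ, 0 < g ∧ 0 ≤ μs ∧ 0 ≤ δ ∧ 0 ≤ L ∧ μs + g ≤ min a 1 ∧ max b 1 + g ≤ μu ∧
    16 * (1 + L) * δ ≤ g ^ 2 ∧ X.ContractsS F μs δ ∧ X.ExpandsU F μu δ ∧ X.CentreBounds F c a b L

end CentreFrame

/-- The diffeomorphism `f` of the torus `T`, with projection `e`, has a lift `F` to `ℝ^m`, with
linear part an integer matrix, which is dominated in adapted linear coordinates, with a
one-dimensional centre direction `c`. -/
def HasDominatedCentreDirection {T : ClosedManifold} {r : ℕ∞} (f : CrDiffeo T r)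
    (e : EuclideanSpace ℝ (Fin T.dim) → T.carrier) (c : EuclideanSpace ℝ (Fin T.dim)) : Prop :=
  ∃ (A : Matrix (Fin T.dim) (Fin T.dim) ℤ) (p q : ℕ) (X : CentreFrame T.dim p q)
    (F : EuclideanSpace ℝ (Fin T.dim) ≃ₜ EuclideanSpace ℝ (Fin T.dim)),
    (∀ v, f (e v) = e (F v)) ∧ (∀ v k, F (v + intVec k) = F v + linMap A (intVec k)) ∧
    X.Adapted A c ∧ X.Dominated F c

/-- Arbitrarily small translations of `f` in the direction `c` have the periodic shadowing property
on the whole torus and have no cycles. -/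
def SmallTranslatesHaveNoCycles {T : ClosedManifold} {r : ℕ∞} (f : CrDiffeo T r)
    (e : EuclideanSpace ℝ (Fin T.dim) → T.carrier) (c : EuclideanSpace ℝ (Fin T.dim)) : Prop :=
  ∀ ε > 0, ∃ t : ℝ, |t| < ε ∧ ∃ g : CrDiffeo T r, (∀ v w, f (e v) = e w → g (e v) = e (w + t • c)) ∧
    PeriodicShadowing g ∧ HasNoCycles g

end Pool.Agent.OmegaStability
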