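import Pool.Agent.Work.MP_814647_an.DC.Final
import Pool.Agent.Work.MP_814647_an.DC.CentreClass

/-!
# Dominated one-dimensional centre: the theorem in the notions of the statement
-/

set_option autoImplicit false

open Set Filter Topology Function
open scoped Manifold ContDiff

noncomputable section

namespace Pool.Agent.OmegaDC

open Pool.Agent.OmegaStab (EE)
open Pool.Agent.OmegaStability

universe u

/-- `realMap M` as a linear map. -/
def rl {p m : ℕ} (M : Matrix (Fin p) (Fin m) ℝ) : EE m →ₗ[ℝ] EE p where
  toFun := realMap M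
  map_add' v w := by
    ext i
    simp [realMap, mul_add, Finset.sum_add_distrib]
  map_smul' s v := by
    ext i
    simp only [realMap, PiLp.smul_apply, smul_eq_mul, RingHom.id_apply, Finset.mul_sum]
    exact Finset.sum_congr rfl fun j _ => by ring

/-- The centre coordinate as a linear map. -/
def cl {m p q : ℕ} (X : CentreFrame m p q) : EE m →ₗ[ℝ] ℝ where
  toFun := X.cen
  map_add' v w := by
    simp [CentreFrame.cen, mul_add, Finset.sum_add_distrib]
  map_smul' s v := by
    simp only [CentreFrame.cen, PiLp.smul_apply, smul_eq_mul, RingHom.id_apply, Finset.mul_sum]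
    exact Finset.sum_congr rfl fun j _ => by ring

theorem hasDominatedCentre {T : ClosedManifold.{u}} {e : EE T.dim → T.carrier} {c : EE T.dim}
    {r : ℕ∞} {f : CrDiffeo T r} (hf : HasDominatedCentreDirection f e c) :
    HasDominatedCentre f e c := by
  obtain ⟨A, p, q, X, F, hF, hA, ⟨hu, hb, hc, hm⟩, a, b, μs, μu, δ, L, g, hg, hμ, hδ, hL, h1, h2, h3,
    ⟨hs1, hs2⟩, ⟨hu1, hu2⟩, hc1, hc2⟩ := hf
  refine ⟨A, p, q, ⟨rl X.S, cl X, rl X.U, rl X.As, rl X.Au, hb, hc, hu, fun v => (hm v).1,
    fun v => (hm v).2⟩, F, hF, hA, a, b, μs, μu, δ, L, g, hg, hμ, hδ, hL, h1, h2, h3, hs1, hu1, hs2,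
    hu2, hc1, hc2⟩

/-- An Omega-stable torus diffeomorphism with a dominated one-dimensional centre is topologically
hyperbolic, and its small translates in the centre direction have no cycles. -/
theorem dc_result {T : ClosedManifold.{u}} {e : EE T.dim → T.carrier} {c : EE T.dim}
    (he : IsTorusProjection T e) {r : ℕ∞} (hr : 1 ≤ r) {f : CrDiffeo T r}
    (hf : HasDominatedCentreDirection f e c) (hst : OmegaStable f) :
    TopologicallyHyperbolic f ∧ SmallTranslatesHaveNoCycles f e c :=
  dc_final he hr (hasDominatedCentre hf) hst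

end Pool.Agent.OmegaDC
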