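import Pool.Agent.Work.MP_814647_an.TopStatement
import Pool.Agent.Work.MP_814647_an.FT.FibredStatement

/-!
# Torus diffeomorphisms with a dominated one-dimensional centre: the notions in the statement
-/

open Set Filter Topology
open scoped Manifold ContDiff

noncomputable section

namespace Pool.Agent.OmegaStability

/-- Linear coordinates `(S, l, U) : ℝ^m → ℝ^p × ℝ × ℝ^q` in which the integer matrix `A`, invertible
over the integers, acts on `S` by `As` and on `U` by `Au`; `c` is the vector with the coordinates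
`S c = 0`, `l c = 1`, `U c = 0`. -/
structure CentreCoordinates {m : ℕ} (A : Matrix (Fin m) (Fin m) ℤ)
    (c : EuclideanSpace ℝ (Fin m)) (p q : ℕ) where
  S : EuclideanSpace ℝ (Fin m) →ₗ[ℝ] EuclideanSpace ℝ (Fin p)
  l : EuclideanSpace ℝ (Fin m) →ₗ[ℝ] ℝ
  U : EuclideanSpace ℝ (Fin m) →ₗ[ℝ] EuclideanSpace ℝ (Fin q)
  As : EuclideanSpace ℝ (Fin p) →ₗ[ℝ] EuclideanSpace ℝ (Fin p)
  Au : EuclideanSpace ℝ (Fin q) →ₗ[ℝ] EuclideanSpace ℝ (Fin q)
  bijective : Function.Bijective fun v => (S v, l v, U v)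
  centre : S c = 0 ∧ l c = 1 ∧ U c = 0
  isUnit : IsUnit A.det
  S_map : ∀ v, S (linMap A v) = As (S v)
  U_map : ∀ v, U (linMap A v) = Au (U v)

namespace CentreCoordinates

variable {m p q : ℕ} {A : Matrix (Fin m) (Fin m) ℤ} {c : EuclideanSpace ℝ (Fin m)}

/-- The size of the two hyperbolic coordinates of `v`. -/
def hyp (X : CentreCoordinates A c p q) (v : EuclideanSpace ℝ (Fin m)) : ℝ := max ‖X.S v‖ ‖X.U v‖

/-- The size of the three coordinates of `v`. -/
def size (X : CentreCoordinates A c p q) (v : EuclideanSpace ℝ (Fin m)) : ℝ := max (X.hyp v) |X.l v|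

/-- The lift `F` is dominated, with a one-dimensional centre: `F` expands the coordinate `U` by
`μu` and contracts the coordinate `S` by `μs`, up to an error `δ`, while it expands the centre
direction `c` by factors between `a` and `b`, where `μs + g ≤ min a 1`, `max b 1 + g ≤ μu`; the
centre coordinate of `F` is `L`-Lipschitz in the other two, and `16 * (1 + L) * δ ≤ g ^ 2`. -/
def Dominated (X : CentreCoordinates A c p q)
    (F : EuclideanSpace ℝ (Fin m) → EuclideanSpace ℝ (Fin m)) : Prop :=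
  ∃ a b μs μu δ L g : ℝ, 0 < g ∧ 0 ≤ μs ∧ 0 ≤ δ ∧ 0 ≤ L ∧ μs + g ≤ min a 1 ∧ max b 1 + g ≤ μu ∧
    16 * (1 + L) * δ ≤ g ^ 2 ∧ (∀ x, ‖X.As x‖ ≤ μs * ‖x‖) ∧ (∀ z, μu * ‖z‖ ≤ ‖X.Au z‖) ∧
    (∀ v w, ‖X.S (F v - F w)‖ ≤ μs * ‖X.S (v - w)‖ + δ * X.size (v - w)) ∧
    (∀ v w, μu * ‖X.U (v - w)‖ - δ * X.size (v - w) ≤ ‖X.U (F v - F w)‖) ∧
    (∀ v, ∀ s : ℝ, 0 ≤ s → a * s ≤ X.l (F (v + s • c) - F v) ∧ X.l (F (v + s • c) - F v) ≤ b * s) ∧
    ∀ v w, X.l v = X.l w → |X.l (F v - F w)| ≤ L * X.hyp (v - w)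

end CentreCoordinates

/-- The diffeomorphism `f` of the torus `T`, with projection `e`, has a lift to `ℝ^m` which is
dominated, with a one-dimensional centre direction `c`. -/
def HasDominatedCentre {T : ClosedManifold} {r : ℕ∞} (f : CrDiffeo T r)
    (e : EuclideanSpace ℝ (Fin T.dim) → T.carrier) (c : EuclideanSpace ℝ (Fin T.dim)) : Prop :=
  ∃ (A : Matrix (Fin T.dim) (Fin T.dim) ℤ) (p q : ℕ) (X : CentreCoordinates A c p q)
    (F : EuclideanSpace ℝ (Fin T.dim) ≃ₜ EuclideanSpace ℝ (Fin T.dim)),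
    (∀ v, f (e v) = e (F v)) ∧ (∀ v k, F (v + intVec k) = F v + linMap A (intVec k)) ∧
    X.Dominated F

/-- Arbitrarily small translations of `f` in the direction `c` have the periodic shadowing property
on the whole torus and have no cycles. -/
def SmallTranslatesNoCycles {T : ClosedManifold} {r : ℕ∞} (f : CrDiffeo T r)
    (e : EuclideanSpace ℝ (Fin T.dim) → T.carrier) (c : EuclideanSpace ℝ (Fin T.dim)) : Prop :=
  ∀ ε > 0, ∃ t : ℝ, |t| < ε ∧ ∃ g : CrDiffeo T r, (∀ v w, f (e v) = e w → g (e v) = e (w + t • c)) ∧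
    PeriodicShadowing g ∧ HasNoCycles g

end Pool.Agent.OmegaStability
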