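import Pool.Agent.Work.MP_814647_an.DC.CentreStatement
import Pool.Agent.Work.MP_814647_an.FT.Defs

/-!
# Dominated one-dimensional centre: notions used in the proof
-/

set_option autoImplicit false

open Set Filter Topology Function
open scoped Manifold ContDiff

noncomputable section

namespace Pool.Agent.OmegaDC

open Pool.Agent.OmegaStab (EE)
open Pool.Agent.OmegaFT (iv TopTorus Integral)

/-- The linear data and the constants. -/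
structure Dat (m p q : ℕ) where
  S : EE m →L[ℝ] EE p
  l : EE m →L[ℝ] ℝ
  U : EE m →L[ℝ] EE q
  As : EE p ≃L[ℝ] EE p
  Au : EE q ≃L[ℝ] EE q
  B : EE m ≃L[ℝ] EE m
  c : EE m
  a : ℝ
  b : ℝ
  μs : ℝ
  μu : ℝ
  δ : ℝ
  L : ℝ
  g : ℝ

namespace Dat

variable {m p q : ℕ}

/-- The size of the hyperbolic coordinates. -/
def pp (D : Dat m p q) (v : EE m) : ℝ := max ‖D.S v‖ ‖D.U v‖

/-- The size of all coordinates. -/
def nn (D : Dat m p q) (v : EE m) : ℝ := max (D.pp v) |D.l v|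

/-- The weights. -/
def wt (D : Dat m p q) (j : ℤ) : ℝ :=
  if 0 ≤ j then (max D.b 1 + D.g / 2) ^ j else (min D.a 1 - D.g / 2) ^ j

/-- The conditions on the data. -/
structure Ok (D : Dat m p q) : Prop where
  bij : Bijective fun v => (D.S v, D.l v, D.U v)
  Sc : D.S D.c = 0
  lc : D.l D.c = 1
  Uc : D.U D.c = 0
  SB : ∀ v, D.S (D.B v) = D.As (D.S v)
  UB : ∀ v, D.U (D.B v) = D.Au (D.U v)
  int : Integral D.B
  con : ∀ x, ‖D.As x‖ ≤ D.μs * ‖x‖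
  exp : ∀ z, D.μu * ‖z‖ ≤ ‖D.Au z‖
  g_pos : 0 < D.g
  μs_nn : 0 ≤ D.μs
  δ_nn : 0 ≤ D.δ
  L_nn : 0 ≤ D.L
  ab : D.a ≤ D.b
  h1 : D.μs + D.g ≤ min D.a 1
  h2 : max D.b 1 + D.g ≤ D.μu
  h3 : 16 * (1 + D.L) * D.δ ≤ D.g ^ 2

/-- `F` is a lift with the domination inequalities. -/
structure Lift (D : Dat m p q) (F : EE m ≃ₜ EE m) : Prop where
  eqv : ∀ v k, F (v + iv k) = F v + D.B (iv k)
  hS : ∀ v w, ‖D.S (F v - F w)‖ ≤ D.μs * ‖D.S (v - w)‖ + D.δ * D.nn (v - w)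
  hU : ∀ v w, D.μu * ‖D.U (v - w)‖ - D.δ * D.nn (v - w) ≤ ‖D.U (F v - F w)‖
  hl : ∀ (v : EE m) (s : ℝ), 0 ≤ s → D.a * s ≤ D.l (F (v + s • D.c) - F v) ∧
    D.l (F (v + s • D.c) - F v) ≤ D.b * s
  hL : ∀ v w, D.l v = D.l w → |D.l (F v - F w)| ≤ D.L * D.pp (v - w)

/-- The map `v ↦ F v + t c`. -/
def Ft (D : Dat m p q) (F : EE m ≃ₜ EE m) (t : ℝ) : EE m ≃ₜ EE m :=
  F.trans (Homeomorph.addRight (t • D.c))

/-- The two-sided orbit of `v` under the homeomorphism `G`. -/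
def _root_.Pool.Agent.OmegaDC.zorb (G : EE m ≃ₜ EE m) (v : EE m) (j : ℤ) : EE m :=
  ((G.toEquiv : Equiv.Perm (EE m)) ^ j) v

/-- The hyperbolic corrections (Franks). -/
structure Frank (D : Dat m p q) (F : EE m ≃ₜ EE m) (ws : ℝ → EE m → EE p) (wu : ℝ → EE m → EE q)
    (K : ℝ) : Prop where
  cs : Continuous (uncurry ws)
  cu : Continuous (uncurry wu)
  bs : ∀ t v, ‖ws t v‖ ≤ K
  bu : ∀ t v, ‖wu t v‖ ≤ K
  ps : ∀ t v k, ws t (v + iv k) = ws t v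
  pu : ∀ t v k, wu t (v + iv k) = wu t v
  es : ∀ t v, D.S (D.Ft F t v) + ws t (D.Ft F t v) = D.As (D.S v + ws t v)
  eu : ∀ t v, D.U (D.Ft F t v) + wu t (D.Ft F t v) = D.Au (D.U v + wu t v)

/-- The straightening: `Γ t` conjugates `F + t c` with the map `Φ t`, which is exactly linear in the
hyperbolic coordinates. -/
structure Hat (D : Dat m p q) (F : EE m ≃ₜ EE m) (Γ Ψ Φ : ℝ → EE m → EE m) (K : ℝ) : Prop where
  cΓ : Continuous (uncurry Γ)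
  cΨ : Continuous (uncurry Ψ)
  left : ∀ t v, Γ t (Ψ t v) = v
  right : ∀ t v, Ψ t (Γ t v) = v
  pΓ : ∀ t v k, Γ t (v + iv k) = Γ t v + iv k
  pΨ : ∀ t v k, Ψ t (v + iv k) = Ψ t v + iv k
  bdd : ∀ t v, ‖Γ t v - v‖ ≤ K
  lΓ : ∀ t v, D.l (Γ t v) = D.l v
  semi : ∀ t v, Γ t (Φ t v) = D.Ft F t (Γ t v)
  cΦ : Continuous (uncurry Φ)
  pΦ : ∀ t v k, Φ t (v + iv k) = Φ t v + D.B (iv k)
  SΦ : ∀ t v, D.S (Φ t v) = D.As (D.S v)
  UΦ : ∀ t v, D.U (Φ t v) = D.Au (D.U v)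

/-- A continuous family of skew products over the linear hyperbolic part, increasing in the fibres
and in the parameter. -/
structure Skew (D : Dat m p q) (Φ : ℝ → EE m → EE m) : Prop where
  cont : Continuous (uncurry Φ)
  per : ∀ t v k, Φ t (v + iv k) = Φ t v + D.B (iv k)
  S : ∀ t v, D.S (Φ t v) = D.As (D.S v)
  U : ∀ t v, D.U (Φ t v) = D.Au (D.U v)
  mono : ∀ (t : ℝ) (v : EE m) (s : ℝ), 0 < s → D.l (Φ t v) < D.l (Φ t (v + s • D.c))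
  incr : ∀ (t t' : ℝ) (v : EE m), t ≤ t' → D.l (Φ t v) + (t' - t) / 2 ≤ D.l (Φ t' v)

/-- `v` is a loop of `G`: `G^[n] v = v + iv k`. -/
def _root_.Pool.Agent.OmegaDC.Loop (G : EE m → EE m) (n : ℕ) (k : Fin m → ℤ) (v : EE m) : Prop :=
  G^[n] v = v + iv k

/-- Every loop of `G` has within `ε`, on the same leaf, a loop of `G'`. -/
def Fol (D : Dat m p q) (G G' : EE m → EE m) (ε : ℝ) : Prop :=
  ∀ (n : ℕ) (k : Fin m → ℤ) (v : EE m), 0 < n → Loop G n k v →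
    ∃ y : ℝ, |y| ≤ ε ∧ Loop G' n k (v + y • D.c)

/-- Local uniqueness: near a loop of `Φ t`, `|t| < τ`, the maps `Φ s`, `s` near `t`, have on its leaf
at most one loop. -/
def Uniq (D : Dat m p q) (Φ : ℝ → EE m → EE m) (τ : ℝ) : Prop :=
  ∀ (t : ℝ) (n : ℕ) (k : Fin m → ℤ) (v : EE m), |t| < τ → 0 < n → Loop (Φ t) n k v →
    ∃ η > 0, ∀ s x y : ℝ, |s - t| < η → |x| < η → |y| < η → Loop (Φ s) n k (v + x • D.c) →
      Loop (Φ s) n k (v + y • D.c) → x = y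

/-- Each loop can be followed to the parameters near `t`. -/
def Cont (D : Dat m p q) (Φ : ℝ → EE m → EE m) (τ : ℝ) : Prop :=
  ∀ (t : ℝ) (n : ℕ) (k : Fin m → ℤ) (v : EE m), |t| < τ → 0 < n → Loop (Φ t) n k v →
    ∀ ε > 0, ∃ η > 0, ∀ s, |s - t| < η → ∃ y : ℝ, |y| ≤ ε ∧ Loop (Φ s) n k (v + y • D.c)

/-- Two loops on the same leaf are equal or far apart. -/
def Sep (D : Dat m p q) (G : EE m → EE m) (ρ : ℝ) : Prop :=
  ∀ (n : ℕ) (k : Fin m → ℤ) (v : EE m) (y : ℝ), 0 < n → Loop G n k v → Loop G n k (v + y • D.c) →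
    |y| < ρ → y = 0

/-- The loops of the maps `Φ s`, `s` near `t`, are uniformly close to those of `Φ t`. -/
def Stab (D : Dat m p q) (Φ : ℝ → EE m → EE m) (t : ℝ) : Prop :=
  ∀ ε > 0, ∃ η > 0, ∀ s, |s - t| < η → D.Fol (Φ s) (Φ t) ε

/-- Periodic points of `G s` and `G s'` whose orbits are close are on the same leaf. -/
def Close {M : Type*} [MetricSpace M] (D : Dat m p q) (e : EE m → M) (Φ : ℝ → EE m → EE m)
    (G : ℝ → M → M) : Prop :=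
  ∀ T ε : ℝ, 0 < ε → ∃ κ > 0, ∀ (s s' : ℝ) (n : ℕ) (k : Fin m → ℤ) (v : EE m) (z : M),
    |s| ≤ T → |s - s'| ≤ κ → 0 < n → Loop (Φ s) n k v → (G s')^[n] z = z →
    (∀ j, dist ((G s)^[j] (e v)) ((G s')^[j] z) ≤ κ) →
    ∃ y : ℝ, |y| ≤ ε ∧ z = e (v + y • D.c) ∧ Loop (Φ s') n k (v + y • D.c)

end Dat

end Pool.Agent.OmegaDC
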