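import Pool.Agent.Work.MP_814647_an.DC.Stmts

/-!
# Item CSep: continuation and separation of loops
-/

set_option autoImplicit false

open Set Filter Topology Function
open scoped Manifold ContDiff

noncomputable section

namespace Pool.Agent.OmegaDC

open Pool.Agent.OmegaStab (EE)
open Pool.Agent.OmegaFT (iv)

namespace XCSep

/-- The leaf map `G` detects the loops. -/
lemma loop_iff {m p q : ℕ} (D : Dat m p q) (hD : D.Ok) (Φ : ℝ → EE m → EE m) (n : ℕ)
    (k : Fin m → ℤ) (v : EE m) (G : ℝ → ℝ → ℝ)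
    (hG : ∀ t x, (Φ t)^[n] (v + x • D.c) = v + iv k + G t x • D.c) (t x : ℝ) :
    Loop (Φ t) n k (v + x • D.c) ↔ G t x = x := by
  unfold Loop
  rw [hG t x]
  constructor
  · intro h
    have h1 : G t x • D.c = x • D.c := by
      have h2 : v + iv k + G t x • D.c = v + iv k + x • D.c := by
        rw [h]; abel
      exact add_left_cancel h2
    have h3 := congrArg D.l h1
    simpa [map_smul, hD.lc] using h3
  · intro h
    rw [h]; abel

/-- The hypotheses of `Lev` for the leaf map through a loop. -/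
lemma lev_hyp {m p q : ℕ} (D : Dat m p q) (hD : D.Ok) (Φ : ℝ → EE m → EE m) (τ : ℝ)
    (hU : D.Uniq Φ τ) (n : ℕ) (hn : 0 < n)
    (k : Fin m → ℤ) (v : EE m) (G : ℝ → ℝ → ℝ)
    (hG : ∀ t x, (Φ t)^[n] (v + x • D.c) = v + iv k + G t x • D.c) :
    ∀ t x, |t| < τ → G t x = x → ∃ η > 0, ∀ s y z, |s - t| < η → |y - x| < η → |z - x| < η →
      G s y = y → G s z = z → y = z := by
  intro t x ht hx
  obtain ⟨η, hη, h⟩ := hU t n k (v + x • D.c) ht hn ((loop_iff D hD Φ n k v G hG t x).2 hx)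
  refine ⟨η, hη, fun s y z hs hy hz hGy hGz => ?_⟩
  have e1 : ∀ w : ℝ, v + x • D.c + (w - x) • D.c = v + w • D.c := by
    intro w
    rw [add_assoc, ← add_smul]
    congr 2
    ring
  have h2 := h s (y - x) (z - x) hs hy hz
    (by rw [e1]; exact (loop_iff D hD Φ n k v G hG s y).2 hGy)
    (by rw [e1]; exact (loop_iff D hD Φ n k v G hG s z).2 hGz)
  linarith

end XCSep

open XCSep

/-- Item CSep. -/
theorem prf_CSep (hLev : Lev) (hRet : RetG) : CSep := by
  intro m p q D Φ τ hD hSk hU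
  constructor
  · intro t n k v ht hn hl ε hε
    obtain ⟨G, hc, hm, hi, hG⟩ := hRet m p q D Φ hD hSk t n k v hn hl
    have hL := (hLev G τ hc hm hi (lev_hyp D hD Φ τ hU n hn k v G hG)).1
    have h0 : G t 0 = 0 := by
      rw [← loop_iff D hD Φ n k v G hG t 0]
      simpa using hl
    obtain ⟨η, hη, h⟩ := hL t 0 ht h0 ε hε
    refine ⟨η, hη, fun s hs => ?_⟩
    obtain ⟨y, hy, hGy⟩ := h s hs
    exact ⟨y, by simpa using hy, (loop_iff D hD Φ n k v G hG s y).2 hGy⟩
  · intro t ht n k v y hn hl hl' hy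
    obtain ⟨G, hc, hm, hi, hG⟩ := hRet m p q D Φ hD hSk t n k v hn hl
    have hL := (hLev G τ hc hm hi (lev_hyp D hD Φ τ hU n hn k v G hG)).2
    have h0 : G t 0 = 0 := by
      rw [← loop_iff D hD Φ n k v G hG t 0]
      simpa using hl
    have h1 : G t y = y := (loop_iff D hD Φ n k v G hG t y).1 hl'
    rcases lt_trichotomy y 0 with hy0 | hy0 | hy0
    · have := hL t y 0 ht h1 h0 hy0
      rw [abs_of_neg hy0] at hy
      linarith
    · exact hy0
    · have := hL t 0 y ht h0 h1 hy0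
      rw [abs_of_pos hy0] at hy
      linarith

end Pool.Agent.OmegaDC
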