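import Pool.Agent.Work.MP_814647_an.DC.Stmts
import Pool.Agent.Work.MP_814647_an.FT.I_FibClosed

/-!
# Item Clo: periodic points with close orbits are on the same leaf
-/

set_option autoImplicit false

open Set Filter Topology Function
open scoped Manifold ContDiff

noncomputable section

namespace Pool.Agent.OmegaDC

open Pool.Agent.OmegaStab (EE)
open Pool.Agent.OmegaFT (iv TopTorus Integral)

universe u

namespace XClo

open Pool.Agent.OmegaFT.XFibClosed (e_add exists_rep e_lift iv_zero iv_add iv_neg)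

theorem iv_small {m : ℕ} (k : Fin m → ℤ) (h : ‖iv k‖ < 1) : k = 0 := by
  funext i
  have h1 : ‖(iv k) i‖ ≤ ‖iv k‖ := PiLp.norm_apply_le _ _
  have h2 : (iv k) i = (k i : ℝ) := rfl
  rw [h2, Real.norm_eq_abs] at h1
  have h3 : |(k i : ℝ)| < 1 := lt_of_le_of_lt h1 h
  have h4 : |k i| < 1 := by exact_mod_cast h3
  have h5 : k i = 0 := Int.abs_lt_one_iff.1 h4
  simpa using h5

theorem iv_sub {m : ℕ} (k l : Fin m → ℤ) : iv (k - l) = iv k - iv l := by
  rw [sub_eq_add_neg, iv_add, iv_neg, sub_eq_add_neg]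

/-- uniform continuity of `Φ` -/
theorem phi_unif {m p q : ℕ} {D : Dat m p q} {Φ : ℝ → EE m → EE m} {M : Type u} [MetricSpace M]
    [CompactSpace M] {e : EE m → M} (hΦ : D.Skew Φ) (he : TopTorus e) (T ε : ℝ) (hε : 0 < ε) :
    ∃ δ > 0, δ ≤ 1 ∧ ∀ (s s' : ℝ) (v w : EE m), |s| ≤ T → |s - s'| ≤ δ → ‖w - v‖ ≤ δ →
      ‖Φ s' w - Φ s v‖ ≤ ε := by
  obtain ⟨R, hR⟩ := exists_rep he
  have hK : IsCompact (Icc (-T - 1) (T + 1) ×ˢ Metric.closedBall (0 : EE m) (R + 1)) :=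
    isCompact_Icc.prod (isCompact_closedBall _ _)
  have hu := hK.uniformContinuousOn_of_continuous hΦ.cont.continuousOn
  rw [Metric.uniformContinuousOn_iff] at hu
  obtain ⟨δ, hδ, h⟩ := hu ε hε
  refine ⟨min (δ / 2) 1, lt_min (by linarith) one_pos, min_le_right _ _,
    fun s s' v w hs hss hvw => ?_⟩
  obtain ⟨k, hk⟩ := hR v
  have e1 : Φ s' w - Φ s v = Φ s' (w + iv k) - Φ s (v + iv k) := by
    rw [hΦ.per, hΦ.per]
    abel
  rw [e1]
  have hs1 : |s - s'| ≤ δ / 2 := hss.trans (min_le_left _ _)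
  have hs2 : |s - s'| ≤ 1 := hss.trans (min_le_right _ _)
  have hv1 : ‖w - v‖ ≤ δ / 2 := hvw.trans (min_le_left _ _)
  have hv2 : ‖w - v‖ ≤ 1 := hvw.trans (min_le_right _ _)
  have e2 : w + iv k - (v + iv k) = w - v := by abel
  have m1 : (s', w + iv k) ∈ Icc (-T - 1) (T + 1) ×ˢ Metric.closedBall (0 : EE m) (R + 1) := by
    refine ⟨?_, ?_⟩
    · have := abs_le.1 hs
      have := abs_le.1 hs2
      constructor <;> simp only <;> linarith
    · rw [mem_closedBall_zero_iff]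
      have : w + iv k = (v + iv k) + (w - v) := by abel
      simp only
      rw [this]
      exact (norm_add_le _ _).trans (by linarith)
  have m2 : (s, v + iv k) ∈ Icc (-T - 1) (T + 1) ×ˢ Metric.closedBall (0 : EE m) (R + 1) := by
    refine ⟨?_, ?_⟩
    · have := abs_le.1 hs
      constructor <;> simp only <;> linarith
    · rw [mem_closedBall_zero_iff]
      simp only
      linarith
  have h3 := h _ m1 _ m2 (by
    rw [Prod.dist_eq]
    apply max_lt
    · simp only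
      rw [Real.dist_eq, abs_sub_comm]
      linarith
    · simp only
      rw [dist_eq_norm, e2]
      linarith)
  rw [dist_eq_norm] at h3
  exact h3.le

end XClo

open Pool.Agent.OmegaFT.XFibClosed in
open XClo in
theorem prf_Clo : Clo.{u} := by
  intro m p q D Φ M _ _ e G hD hΦ he hG T ε hε
  obtain ⟨δ, hδ, hδ1, hU⟩ := phi_unif (M := M) (e := e) hΦ he T (1 / 4) (by norm_num)
  set ε₂ : ℝ := min (min δ (1 / 5)) (ε / (‖D.l‖ + 1)) with hε₂
  have hl1 : 0 < ‖D.l‖ + 1 := by have := norm_nonneg D.l; linarith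
  have hε₂0 : 0 < ε₂ := lt_min (lt_min hδ (by norm_num)) (by positivity)
  have hε₂a : ε₂ ≤ δ := (min_le_left _ _).trans (min_le_left _ _)
  have hε₂b : ε₂ ≤ 1 / 5 := (min_le_left _ _).trans (min_le_right _ _)
  have hε₂c : ‖D.l‖ * ε₂ ≤ ε := by
    have h1 : ε₂ ≤ ε / (‖D.l‖ + 1) := min_le_right _ _
    rw [le_div_iff₀ hl1] at h1
    nlinarith
  obtain ⟨ρ, hρ, hL⟩ := e_lift he ε₂ hε₂0
  refine ⟨min ρ δ, lt_min hρ hδ, ?_⟩
  intro s s' n k v z hs hss hn hloop hz hd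
  obtain ⟨w₁, hw₁⟩ := he.surj z
  have hd0 : dist (e w₁) (e v) ≤ ρ := by
    rw [hw₁, dist_comm]
    exact (hd 0).trans (min_le_left _ _)
  obtain ⟨k₀, hk₀⟩ := hL _ _ hd0
  set w₀ : EE m := w₁ + iv k₀ with hw₀
  have hew₀ : e w₀ = z := by rw [hw₀, e_add he, hw₁]
  have hGi : ∀ (t : ℝ) (x : EE m) (j : ℕ), (G t)^[j] (e x) = e ((Φ t)^[j] x) := by
    intro t x j
    induction j with
    | zero => rfl
    | succ j ih =>
      rw [iterate_succ_apply', iterate_succ_apply', ih, hG]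
  -- the lifted orbits stay close
  have hcl : ∀ j, ‖(Φ s')^[j] w₀ - (Φ s)^[j] v‖ ≤ ε₂ := by
    intro j
    induction j with
    | zero => exact hk₀
    | succ j ih =>
      have h1 : ‖(Φ s')^[j + 1] w₀ - (Φ s)^[j + 1] v‖ ≤ 1 / 4 := by
        rw [iterate_succ_apply', iterate_succ_apply']
        exact hU s s' _ _ hs (hss.trans (min_le_right _ _)) (ih.trans hε₂a)
      have h2 : dist (e ((Φ s')^[j + 1] w₀)) (e ((Φ s)^[j + 1] v)) ≤ ρ := by
        rw [← hGi, ← hGi, hew₀, dist_comm]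
        exact (hd (j + 1)).trans (min_le_left _ _)
      obtain ⟨l, hl⟩ := hL _ _ h2
      have h3 : iv l = ((Φ s')^[j + 1] w₀ + iv l - (Φ s)^[j + 1] v) -
          ((Φ s')^[j + 1] w₀ - (Φ s)^[j + 1] v) := by abel
      have h4 : ‖iv l‖ < 1 := by
        rw [h3]
        exact lt_of_le_of_lt (norm_sub_le _ _) (by linarith)
      have h5 := iv_small l h4
      rw [h5, iv_zero, add_zero] at hl
      exact hl
  -- the same integer vector
  obtain ⟨k', hk'⟩ : ∃ k' : Fin m → ℤ, (Φ s')^[n] w₀ = w₀ + iv k' := by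
    apply (he.fibre _ _).1
    rw [← hGi, hew₀, hz]
  have hkk : k' = k := by
    have h1 := hcl n
    have h2 := hcl 0
    simp only [iterate_zero, id] at h2
    unfold Loop at hloop
    rw [hk', hloop] at h1
    have h3 : iv (k' - k) = (w₀ + iv k' - (v + iv k)) - (w₀ - v) := by
      rw [iv_sub]
      abel
    have h4 : ‖iv (k' - k)‖ < 1 := by
      rw [h3]
      exact lt_of_le_of_lt (norm_sub_le _ _) (by linarith)
    exact sub_eq_zero.1 (iv_small _ h4)
  rw [hkk] at hk'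
  -- the hyperbolic coordinates agree
  have hg := hD.g_pos
  have hμs1 : D.μs < 1 := by
    have := hD.h1
    have := min_le_right D.a 1
    linarith
  have hμu1 : 1 < D.μu := by
    have := hD.h2
    have := le_max_right D.b 1
    linarith
  have hSj : ∀ j, ‖D.S ((Φ s')^[j] w₀ - (Φ s)^[j] v)‖ ≤ D.μs ^ j * ‖D.S (w₀ - v)‖ := by
    intro j
    induction j with
    | zero => simp
    | succ j ih =>
      rw [iterate_succ_apply', iterate_succ_apply', map_sub, hΦ.S, hΦ.S, ← map_sub, ← map_sub]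
      refine (hD.con _).trans ?_
      calc D.μs * ‖D.S ((Φ s')^[j] w₀ - (Φ s)^[j] v)‖
          ≤ D.μs * (D.μs ^ j * ‖D.S (w₀ - v)‖) := mul_le_mul_of_nonneg_left ih hD.μs_nn
        _ = D.μs ^ (j + 1) * ‖D.S (w₀ - v)‖ := by ring
  have hUj : ∀ j, D.μu ^ j * ‖D.U (w₀ - v)‖ ≤ ‖D.U ((Φ s')^[j] w₀ - (Φ s)^[j] v)‖ := by
    intro j
    induction j with
    | zero => simp
    | succ j ih =>
      rw [iterate_succ_apply', iterate_succ_apply', map_sub D.U (Φ s' _), hΦ.U, hΦ.U, ← map_sub,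
        ← map_sub]
      refine le_trans ?_ (hD.exp _)
      calc D.μu ^ (j + 1) * ‖D.U (w₀ - v)‖ = D.μu * (D.μu ^ j * ‖D.U (w₀ - v)‖) := by ring
        _ ≤ D.μu * ‖D.U ((Φ s')^[j] w₀ - (Φ s)^[j] v)‖ :=
          mul_le_mul_of_nonneg_left ih (by linarith)
  have hdn : (Φ s')^[n] w₀ - (Φ s)^[n] v = w₀ - v := by
    unfold Loop at hloop
    rw [hk', hloop]
    abel
  have hS0 : D.S (w₀ - v) = 0 := by
    have h1 := hSj n
    rw [hdn] at h1
    have h2 : D.μs ^ n < 1 := pow_lt_one₀ hD.μs_nn hμs1 hn.ne'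
    by_contra hne
    have h3 : 0 < ‖D.S (w₀ - v)‖ := norm_pos_iff.2 hne
    nlinarith
  have hU0 : D.U (w₀ - v) = 0 := by
    have h1 := hUj n
    rw [hdn] at h1
    have h2 : 1 < D.μu ^ n := one_lt_pow₀ hμu1 hn.ne'
    by_contra hne
    have h3 : 0 < ‖D.U (w₀ - v)‖ := norm_pos_iff.2 hne
    nlinarith
  have hdc : w₀ - v = D.l (w₀ - v) • D.c := by
    apply hD.bij.1
    simp only [map_smul, hD.Sc, hD.Uc, hD.lc, hS0, hU0, smul_zero, smul_eq_mul, mul_one]
  have hwv : w₀ = v + D.l (w₀ - v) • D.c := by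
    rw [← hdc]
    abel
  refine ⟨D.l (w₀ - v), ?_, ?_, ?_⟩
  · have h1 : ‖D.l (w₀ - v)‖ ≤ ‖D.l‖ * ‖w₀ - v‖ := D.l.le_opNorm _
    have h2 : ‖w₀ - v‖ ≤ ε₂ := hcl 0
    rw [Real.norm_eq_abs] at h1
    calc |D.l (w₀ - v)| ≤ ‖D.l‖ * ‖w₀ - v‖ := h1
      _ ≤ ‖D.l‖ * ε₂ := mul_le_mul_of_nonneg_left h2 (norm_nonneg _)
      _ ≤ ε := hε₂c
  · rw [← hwv, hew₀]
  · rw [← hwv]
    exact hk'

end Pool.Agent.OmegaDC
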