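import Pool.Agent.Work.MP_814647_an.DC.Stmts

/-!
# Item Clos: closing by a change of the parameter
-/

set_option autoImplicit false

open Set Filter Topology Function
open scoped Manifold ContDiff

noncomputable section

namespace Pool.Agent.OmegaDC

open Pool.Agent.OmegaStab (EE)
open Pool.Agent.OmegaFT (iv TopTorus Integral)

namespace XClos

variable {m p q : ℕ}

/-- Points with the same hyperbolic coordinates differ by a multiple of `c`. -/
theorem eq_of_coord {D : Dat m p q} (hD : D.Ok) {v w : EE m} (hS : D.S v = D.S w)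
    (hU : D.U v = D.U w) : v = w + (D.l v - D.l w) • D.c := by
  apply hD.bij.1
  simp [hD.Sc, hD.lc, hD.Uc, hS, hU]

theorem continuous_iter {Φ : ℝ → EE m → EE m} (hc : Continuous (uncurry Φ)) (w : EE m) (n : ℕ) :
    Continuous fun s => (Φ s)^[n] w := by
  induction n with
  | zero => exact continuous_const
  | succ n ih =>
    have h : (fun s => (Φ s)^[n + 1] w) = fun s => uncurry Φ (s, (Φ s)^[n] w) := by
      funext s
      rw [iterate_succ_apply']
      rfl
    rw [h]
    exact hc.comp (continuous_id.prodMk ih)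

theorem mono_le {D : Dat m p q} {Φ : ℝ → EE m → EE m} (hs : D.Skew Φ) (t : ℝ) (v : EE m) {s : ℝ}
    (h : 0 ≤ s) : D.l (Φ t v) ≤ D.l (Φ t (v + s • D.c)) := by
  rcases h.eq_or_lt with h | h
  · rw [← h, zero_smul, add_zero]
  · exact (hs.mono t v s h).le

end XClos

open XClos in
theorem prf_Clos : Clos := by
  intro m p q D Φ hD hs t r n k w hn hr hw hstep
  have hcS : ∀ s, ∀ j ≤ n, D.S ((Φ s)^[j] (w 0)) = D.S (w j) ∧
      D.U ((Φ s)^[j] (w 0)) = D.U (w j) := by
    intro s j
    induction j with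
    | zero => intro _; exact ⟨rfl, rfl⟩
    | succ j ih =>
      intro hj
      obtain ⟨h1, h2⟩ := ih (by omega)
      obtain ⟨y, -, hy⟩ := hstep j (by omega)
      have h3 : D.S (w (j + 1)) = D.As (D.S (w j)) := by
        have := congrArg D.S hy
        rw [hs.S, map_add, map_smul, hD.Sc, smul_zero, add_zero] at this
        exact this.symm
      have h4 : D.U (w (j + 1)) = D.Au (D.U (w j)) := by
        have := congrArg D.U hy
        rw [hs.U, map_add, map_smul, hD.Uc, smul_zero, add_zero] at this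
        exact this.symm
      rw [iterate_succ_apply', hs.S, hs.U, h1, h2, h3, h4]
      exact ⟨rfl, rfl⟩
  have hl : ∀ j < n, ∃ y : ℝ, |y| ≤ r ∧ D.l (Φ t (w j)) = D.l (w (j + 1)) + y := by
    intro j hj
    obtain ⟨y, hy, h⟩ := hstep j hj
    refine ⟨y, hy, ?_⟩
    rw [h, map_add, map_smul, hD.lc, smul_eq_mul, mul_one]
  have hup : ∀ j ≤ n, D.l (w j) ≤ D.l ((Φ (t + 2 * r))^[j] (w 0)) := by
    intro j
    induction j with
    | zero => intro _; exact le_rfl
    | succ j ih =>
      intro hj
      have h0 := ih (by omega)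
      obtain ⟨h1, h2⟩ := hcS (t + 2 * r) j (by omega)
      obtain ⟨y, hy, hy'⟩ := hl j (by omega)
      have h3 := eq_of_coord hD h1 h2
      have h4 := mono_le hs (t + 2 * r) (w j) (sub_nonneg.2 h0)
      rw [← h3] at h4
      have h5 := hs.incr t (t + 2 * r) (w j) (by linarith)
      rw [iterate_succ_apply']
      have h6 := (abs_le.1 hy).1
      linarith
  have hdown : ∀ j ≤ n, D.l ((Φ (t - 2 * r))^[j] (w 0)) ≤ D.l (w j) := by
    intro j
    induction j with
    | zero => intro _; exact le_rfl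
    | succ j ih =>
      intro hj
      have h0 := ih (by omega)
      obtain ⟨h1, h2⟩ := hcS (t - 2 * r) j (by omega)
      obtain ⟨y, hy, hy'⟩ := hl j (by omega)
      have h3 := eq_of_coord hD h1.symm h2.symm
      have h4 := mono_le hs (t - 2 * r) ((Φ (t - 2 * r))^[j] (w 0)) (sub_nonneg.2 h0)
      rw [← h3] at h4
      have h5 := hs.incr (t - 2 * r) t (w j) (by linarith)
      rw [iterate_succ_apply']
      have h6 := (abs_le.1 hy).2
      linarith
  have hcont : Continuous fun s => D.l ((Φ s)^[n] (w 0)) :=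
    D.l.continuous.comp (continuous_iter hs.cont (w 0) n)
  obtain ⟨s, hsI, hs0⟩ := intermediate_value_Icc (show t - 2 * r ≤ t + 2 * r by linarith)
    hcont.continuousOn (show D.l (w n) ∈ Icc (D.l ((Φ (t - 2 * r))^[n] (w 0)))
      (D.l ((Φ (t + 2 * r))^[n] (w 0))) from ⟨hdown n le_rfl, hup n le_rfl⟩)
  have hs0' : D.l ((Φ s)^[n] (w 0)) = D.l (w n) := hs0
  refine ⟨s, abs_le.2 ⟨by linarith [hsI.1], by linarith [hsI.2]⟩, ?_⟩
  obtain ⟨h1, h2⟩ := hcS s n le_rfl
  have h3 := eq_of_coord hD h1 h2
  rw [hs0', sub_self, zero_smul, add_zero, hw] at h3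
  exact h3

end Pool.Agent.OmegaDC

end
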