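import Pool.Agent.Work.MP_814647_an.DC.Stmts

/-!
# Item Cmp: the comparison lemma
-/

set_option autoImplicit false

open Set Filter Topology Function

noncomputable section

namespace Pool.Agent.OmegaDC

namespace XCmp

/-- the weights, for numbers -/
def W (rp rm : ℝ) (j : ℤ) : ℝ := if 0 ≤ j then rp ^ j else rm ^ j

theorem W_zero (rp rm : ℝ) : W rp rm 0 = 1 := by simp [W]

theorem W_nonneg_succ {rp rm : ℝ} (hp : 1 ≤ rp) {j : ℤ} (hj : 0 ≤ j) :
    W rp rm (j + 1) = rp * W rp rm j := by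
  unfold W
  rw [if_pos (by omega), if_pos hj, zpow_add₀ (by linarith : rp ≠ 0), zpow_one, mul_comm]

theorem W_neg_succ {rp rm : ℝ} (hm : 0 < rm) {j : ℤ} (hj : j < 0) :
    W rp rm (j + 1) = rm * W rp rm j := by
  unfold W
  rw [if_neg (by omega : ¬ (0 : ℤ) ≤ j)]
  by_cases h : (0 : ℤ) ≤ j + 1
  · have h1 : j = -1 := by omega
    subst h1
    rw [if_pos h]
    simp [hm.ne']
  · rw [if_neg h, zpow_add₀ hm.ne', zpow_one, mul_comm]

theorem one_le_W {rp rm : ℝ} (hp : 1 ≤ rp) (hm : 0 < rm) (hm1 : rm ≤ 1) (j : ℤ) :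
    1 ≤ W rp rm j := by
  unfold W
  by_cases h : (0 : ℤ) ≤ j
  · rw [if_pos h]
    exact one_le_zpow₀ hp h
  · rw [if_neg h]
    exact one_le_zpow_of_nonpos₀ hm hm1 (by omega)

theorem W_succ_le {rp rm : ℝ} (hp : 1 ≤ rp) (hm : 0 < rm) (hm1 : rm ≤ 1) (j : ℤ) :
    W rp rm (j + 1) ≤ rp * W rp rm j := by
  by_cases h : (0 : ℤ) ≤ j
  · exact (W_nonneg_succ hp h).le
  · rw [W_neg_succ hm (by omega)]
    have := one_le_W hp hm hm1 j
    nlinarith

theorem le_W_succ {rp rm : ℝ} (hp : 1 ≤ rp) (hm : 0 < rm) (hm1 : rm ≤ 1) (j : ℤ) :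
    rm * W rp rm j ≤ W rp rm (j + 1) := by
  by_cases h : (0 : ℤ) ≤ j
  · rw [W_nonneg_succ hp h]
    have := one_le_W hp hm hm1 j
    nlinarith
  · exact (W_neg_succ hm (by omega)).ge

/-- the least weighted bound of a sequence -/
theorem least {w s : ℤ → ℝ} {K : ℝ} (hw : ∀ j, 0 < w j) (hs : ∀ j, 0 ≤ s j)
    (hK : ∀ j, s j ≤ K * w j) :
    ∃ k : ℝ, 0 ≤ k ∧ (∀ j, s j ≤ k * w j) ∧ ∀ k' : ℝ, (∀ j, s j ≤ k' * w j) → k ≤ k' := by
  have hb : BddAbove (range fun j => s j / w j) := by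
    refine ⟨K, ?_⟩
    rintro _ ⟨j, rfl⟩
    exact (div_le_iff₀ (hw j)).2 (hK j)
  refine ⟨⨆ j, s j / w j, ?_, fun j => ?_, fun k' hk' => ?_⟩
  · exact (div_nonneg (hs 0) (hw 0).le).trans (le_ciSup hb 0)
  · exact (div_le_iff₀ (hw j)).1 (le_ciSup hb j)
  · exact ciSup_le fun j => (div_le_iff₀ (hw j)).2 (hk' j)

/-- the comparison lemma for sequences of numbers -/
theorem core {a b μs μu δ L g t K : ℝ} {w s u e : ℤ → ℝ} {rp rm : ℝ}
    (hrp : rp = max b 1 + g / 2) (hrm : rm = min a 1 - g / 2)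
    (hw0 : w 0 = 1) (hw1 : ∀ j, 1 ≤ w j) (hwp : ∀ j, w (j + 1) ≤ rp * w j)
    (hwm : ∀ j, rm * w j ≤ w (j + 1)) (hwp' : ∀ j : ℤ, 0 ≤ j → w (j + 1) = rp * w j)
    (hwm' : ∀ j : ℤ, j < 0 → w (j + 1) = rm * w j)
    (g_pos : 0 < g) (μs_nn : 0 ≤ μs) (δ_nn : 0 ≤ δ) (L_nn : 0 ≤ L) (hab : a ≤ b)
    (h1 : μs + g ≤ min a 1) (h2 : max b 1 + g ≤ μu) (h3 : 16 * (1 + L) * δ ≤ g ^ 2) (ht : 0 ≤ t)
    (s_nn : ∀ j, 0 ≤ s j) (u_nn : ∀ j, 0 ≤ u j) (e_nn : ∀ j, 0 ≤ e j)
    (hu : ∀ j, μu * u j - δ * max (max (s j) (u j)) (e j) ≤ u (j + 1))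
    (hs : ∀ j, s (j + 1) ≤ μs * s j + δ * max (max (s j) (u j)) (e j))
    (he1 : ∀ j, a * e j - L * max (s j) (u j) - t ≤ e (j + 1))
    (he2 : ∀ j, e (j + 1) ≤ b * e j + L * max (s j) (u j) + t)
    (hK : ∀ j, max (s j) (u j) ≤ K * w j) :
    max (s 0) (u 0) ≤ 4 * δ / g * (e 0 + 2 * t / g) ∧
      ∀ j, max (max (s j) (u j)) (e j) ≤ 2 * (e 0 + 2 * t / g) * w j := by
  have hmina : min a 1 ≤ a := min_le_left _ _
  have hmin1 : min a 1 ≤ 1 := min_le_right _ _
  have hmaxb : b ≤ max b 1 := le_max_left _ _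
  have hmax1 : 1 ≤ max b 1 := le_max_right _ _
  have hg1 : g ≤ 1 := by linarith
  have ha : 0 < a := by linarith
  have hb : 0 < b := by linarith
  have hrm0 : 0 < rm := by linarith
  have hrp1 : 1 ≤ rp := by linarith
  have hwpos : ∀ j, 0 < w j := fun j => lt_of_lt_of_le one_pos (hw1 j)
  obtain ⟨K0, hK0, hK1, hK2⟩ := least hwpos
    (fun j => (s_nn j).trans (le_max_left (s j) (u j))) hK
  obtain ⟨s0, hs0, hs1, hs2⟩ := least hwpos s_nn (fun j => (le_max_left (s j) (u j)).trans (hK j))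
  obtain ⟨u0, hu0, hu1, hu2⟩ := least hwpos u_nn (fun j => (le_max_right (s j) (u j)).trans (hK j))
  obtain ⟨T, hT⟩ : ∃ T, T = L * K0 + t := ⟨_, rfl⟩
  have hT0 : 0 ≤ T := by rw [hT]; positivity
  obtain ⟨Eb, hEb⟩ : ∃ Eb, Eb = e 0 + 2 * T / g := ⟨_, rfl⟩
  have hTg : T = g / 2 * (2 * T / g) := by field_simp
  have hEb0 : 0 ≤ Eb := by rw [hEb]; have := e_nn 0; positivity
  have hEbT : T ≤ g / 2 * Eb := by
    rw [hEb]
    have := e_nn 0
    nlinarith
  have hstep : ∀ j, L * max (s j) (u j) + t ≤ T * w j := by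
    intro j
    have h4 := mul_le_mul_of_nonneg_left (hK1 j) L_nn
    have h5 := hw1 j
    rw [hT]
    nlinarith
  -- the bound of the central coordinate
  have hE : ∀ j, e j ≤ Eb * w j := by
    intro j
    induction j using Int.induction_on with
    | zero =>
      rw [hw0, mul_one, hEb]
      have : 0 ≤ 2 * T / g := by positivity
      linarith
    | succ i ih =>
      have h4 := he2 (i : ℤ)
      have h5 := hstep (i : ℤ)
      rw [hwp' (i : ℤ) (by positivity)]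
      have h6 := hwpos (i : ℤ)
      have h7 : b * e (i : ℤ) ≤ b * (Eb * w (i : ℤ)) := mul_le_mul_of_nonneg_left ih hb.le
      have h8 : T ≤ (rp - b) * Eb := by
        have : g / 2 ≤ rp - b := by linarith
        nlinarith
      have h9 : T * w (i : ℤ) ≤ (rp - b) * Eb * w (i : ℤ) := mul_le_mul_of_nonneg_right h8 h6.le
      nlinarith
    | pred i ih =>
      have h4 := he1 (-(i : ℤ) - 1)
      have h5 := hstep (-(i : ℤ) - 1)
      have h10 := hwm' (-(i : ℤ) - 1) (by omega)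
      have h11 : (-(i : ℤ) - 1) + 1 = -(i : ℤ) := by ring
      rw [h11] at h4 h10
      have h6 := hwpos (-(i : ℤ) - 1)
      have h8 : T ≤ (a - rm) * Eb := by
        have : g / 2 ≤ a - rm := by linarith
        nlinarith
      have h9 : T * w (-(i : ℤ) - 1) ≤ (a - rm) * Eb * w (-(i : ℤ) - 1) :=
        mul_le_mul_of_nonneg_right h8 h6.le
      rw [h10] at ih
      have h12 : a * e (-(i : ℤ) - 1) ≤ a * (Eb * w (-(i : ℤ) - 1)) := by nlinarith
      exact le_of_mul_le_mul_left h12 ha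
  obtain ⟨M, hM⟩ : ∃ M, M = max K0 Eb := ⟨_, rfl⟩
  have hM0 : 0 ≤ M := by rw [hM]; exact hK0.trans (le_max_left _ _)
  have hN : ∀ j, max (max (s j) (u j)) (e j) ≤ M * w j := by
    intro j
    refine max_le ((hK1 j).trans ?_) ((hE j).trans ?_)
    · exact mul_le_mul_of_nonneg_right (by rw [hM]; exact le_max_left _ _) (hwpos j).le
    · exact mul_le_mul_of_nonneg_right (by rw [hM]; exact le_max_right _ _) (hwpos j).le
  -- stable coordinate
  have hS : s0 * (g / 2) ≤ δ * M := by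
    have h4 : s0 ≤ (μs * s0 + δ * M) / rm := by
      refine hs2 _ fun j => ?_
      have h5 := hs (j - 1)
      rw [sub_add_cancel] at h5
      have h6 := mul_le_mul_of_nonneg_left (hN (j - 1)) δ_nn
      have h7 := mul_le_mul_of_nonneg_left (hs1 (j - 1)) μs_nn
      have h8 := hwm (j - 1)
      rw [sub_add_cancel] at h8
      have h9 : s j ≤ (μs * s0 + δ * M) * w (j - 1) := by nlinarith
      have h10 : w (j - 1) ≤ w j / rm := by
        rw [le_div_iff₀ hrm0]
        linarith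
      have h11 : 0 ≤ μs * s0 + δ * M := by positivity
      calc s j ≤ (μs * s0 + δ * M) * w (j - 1) := h9
        _ ≤ (μs * s0 + δ * M) * (w j / rm) := mul_le_mul_of_nonneg_left h10 h11
        _ = (μs * s0 + δ * M) / rm * w j := by ring
    rw [le_div_iff₀ hrm0] at h4
    have h5 : μs + g / 2 ≤ rm := by linarith
    nlinarith
  -- unstable coordinate
  have hU : u0 * (g / 2) ≤ δ * M := by
    have hμu : 0 < μu := by linarith
    have h4 : u0 ≤ (u0 * rp + δ * M) / μu := by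
      refine hu2 _ fun j => ?_
      have h5 := hu j
      have h6 := mul_le_mul_of_nonneg_left (hN j) δ_nn
      have h7 := hu1 (j + 1)
      have h8 := mul_le_mul_of_nonneg_left (hwp j) hu0
      have h9 : μu * u j ≤ (u0 * rp + δ * M) * w j := by nlinarith
      rw [div_mul_eq_mul_div, le_div_iff₀ hμu]
      linarith
    rw [le_div_iff₀ hμu] at h4
    have h5 : rp + g / 2 ≤ μu := by linarith
    nlinarith
  have hd : 16 * δ ≤ g ^ 2 := by nlinarith [mul_nonneg L_nn δ_nn]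
  have hLd : 16 * (L * δ) ≤ g ^ 2 := by nlinarith
  have hKM : K0 * (g / 2) ≤ δ * M := by
    have h4 : K0 ≤ max s0 u0 := by
      refine hK2 _ fun j => max_le ?_ ?_
      · exact (hs1 j).trans (mul_le_mul_of_nonneg_right (le_max_left _ _) (hwpos j).le)
      · exact (hu1 j).trans (mul_le_mul_of_nonneg_right (le_max_right _ _) (hwpos j).le)
    rcases le_total s0 u0 with h5 | h5
    · rw [max_eq_right h5] at h4
      nlinarith
    · rw [max_eq_left h5] at h4
      nlinarith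
  have hKE : K0 ≤ Eb := by
    by_contra hcon
    push Not at hcon
    have h4 : M = K0 := by rw [hM]; exact max_eq_left hcon.le
    rw [h4] at hKM
    have h5 : 0 < K0 := lt_of_le_of_lt hEb0 hcon
    have h6 : g / 2 ≤ δ := le_of_mul_le_mul_right (by linarith) h5
    nlinarith
  have hME : M = Eb := by rw [hM]; exact max_eq_right hKE
  rw [hME] at hKM hN
  obtain ⟨R, hR⟩ : ∃ R, R = e 0 + 2 * t / g := ⟨_, rfl⟩
  have hR0 : 0 ≤ R := by rw [hR]; have := e_nn 0; positivity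
  have hEbR : Eb ≤ 4 / 3 * R := by
    have h4 : Eb = R + 2 * (L * K0) / g := by rw [hEb, hR, hT]; ring
    have h5 : 2 * (L * K0) / g ≤ 1 / 4 * Eb := by
      rw [div_le_iff₀ g_pos]
      have h6 := mul_le_mul_of_nonneg_left hKM L_nn
      have h7 : g * (2 * (L * K0)) ≤ 4 * (L * δ) * Eb := by nlinarith
      have h8 : 4 * (L * δ) * Eb ≤ g ^ 2 / 4 * Eb :=
        mul_le_mul_of_nonneg_right (by linarith) hEb0
      have h9 : g * (2 * (L * K0)) ≤ g * (1 / 4 * Eb * g) := by nlinarith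
      exact le_of_mul_le_mul_left h9 g_pos
    linarith
  refine ⟨?_, fun j => ?_⟩
  · rw [← hR]
    have h4 := hK1 0
    rw [hw0, mul_one] at h4
    refine h4.trans ?_
    rw [div_mul_eq_mul_div, le_div_iff₀ g_pos]
    nlinarith [mul_le_mul_of_nonneg_left hEbR δ_nn, mul_nonneg δ_nn hR0]
  · rw [← hR]
    refine (hN j).trans (mul_le_mul_of_nonneg_right ?_ (hwpos j).le)
    linarith

end XCmp

theorem prf_Cmp : Cmp := by
  intro m p q D hD x t K ht hU hS he1 he2 hK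
  have hmina : min D.a 1 ≤ 1 := min_le_right _ _
  have hmax1 : 1 ≤ max D.b 1 := le_max_right _ _
  have hg := hD.g_pos
  have hμ := hD.μs_nn
  have h1 := hD.h1
  have hp : 1 ≤ max D.b 1 + D.g / 2 := by linarith
  have hm : 0 < min D.a 1 - D.g / 2 := by linarith
  have hm1 : min D.a 1 - D.g / 2 ≤ 1 := by linarith
  exact XCmp.core (w := D.wt) (s := fun j => ‖D.S (x j)‖) (u := fun j => ‖D.U (x j)‖)
    (e := fun j => |D.l (x j)|) rfl rfl (XCmp.W_zero _ _) (XCmp.one_le_W hp hm hm1)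
    (XCmp.W_succ_le hp hm hm1) (XCmp.le_W_succ hp hm hm1) (fun j hj => XCmp.W_nonneg_succ hp hj)
    (fun j hj => XCmp.W_neg_succ hm hj) hg hμ hD.δ_nn hD.L_nn hD.ab h1 hD.h2 hD.h3 ht
    (fun j => norm_nonneg _) (fun j => norm_nonneg _) (fun j => abs_nonneg _) hU hS he1 he2 hK

end Pool.Agent.OmegaDC
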