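import Pool.Agent.Work.MP_814647_an.DC.Stmts

/-!
# Item Desc: the maps descend to the torus
-/

set_option autoImplicit false

open Set Filter Topology Function

noncomputable section

namespace Pool.Agent.OmegaDC

open Pool.Agent.OmegaStab (EE)
open Pool.Agent.OmegaFT (iv TopTorus Integral)

universe u

namespace XDesc

/-- A map which respects the integer translations up to integer translations descends. -/
theorem key {m : ℕ} {M : Type u} [TopologicalSpace M] {e : EE m → M} (he : TopTorus e)
    (g : EE m → EE m) (hg : ∀ v k, ∃ l, g (v + iv k) = g v + iv l) (v : EE m) :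
    e (g (surjInv he.surj (e v))) = e (g v) := by
  have h1 : e (surjInv he.surj (e v)) = e v := surjInv_eq he.surj (e v)
  obtain ⟨k, hk⟩ := (he.fibre _ _).1 h1
  obtain ⟨l, hl⟩ := hg (surjInv he.surj (e v)) k
  rw [← hk] at hl
  exact (he.fibre _ _).2 ⟨l, hl⟩

theorem quot {m : ℕ} {M : Type u} [TopologicalSpace M] {e : EE m → M} (he : TopTorus e) :
    IsQuotientMap e :=
  he.isOpenMap.isQuotientMap he.cont he.surj

theorem quot2 {m : ℕ} {M : Type u} [TopologicalSpace M] {e : EE m → M} (he : TopTorus e) :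
    IsQuotientMap (Prod.map (id : ℝ → ℝ) e) :=
  (IsOpenMap.id.prodMap he.isOpenMap).isQuotientMap (continuous_id.prodMap he.cont)
    (surjective_id.prodMap he.surj)

end XDesc

open XDesc in
theorem prf_Desc : Desc.{u} := by
  intro m p q D F Γ Ψ Φ K M _ _ e hok hH he
  have gΓ : ∀ t v k, ∃ l, Γ t (v + iv k) = Γ t v + iv l := fun t v k => ⟨k, hH.pΓ t v k⟩
  have gΨ : ∀ t v k, ∃ l, Ψ t (v + iv k) = Ψ t v + iv l := fun t v k => ⟨k, hH.pΨ t v k⟩
  have gΦ : ∀ t v k, ∃ l, Φ t (v + iv k) = Φ t v + iv l := by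
    intro t v k
    obtain ⟨l, hl⟩ := hok.int.1 k
    exact ⟨l, by rw [hH.pΦ, hl]⟩
  have cΓ : ∀ t, Continuous (Γ t) := fun t =>
    hH.cΓ.comp (continuous_const.prodMk continuous_id)
  have cΨ : ∀ t, Continuous (Ψ t) := fun t =>
    hH.cΨ.comp (continuous_const.prodMk continuous_id)
  refine ⟨fun t =>
    { toFun := fun x => e (Γ t (surjInv he.surj x))
      invFun := fun x => e (Ψ t (surjInv he.surj x))
      left_inv := ?_
      right_inv := ?_
      continuous_toFun := ?_
      continuous_invFun := ?_ }, fun t x => e (Φ t (surjInv he.surj x)), ?_, ?_, ?_⟩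
  · intro x
    obtain ⟨v, rfl⟩ := he.surj x
    dsimp only
    rw [key he (Γ t) (gΓ t), key he (Ψ t) (gΨ t), hH.right]
  · intro x
    obtain ⟨v, rfl⟩ := he.surj x
    dsimp only
    rw [key he (Ψ t) (gΨ t), key he (Γ t) (gΓ t), hH.left]
  · rw [(quot he).continuous_iff]
    have h : (fun x => e (Γ t (surjInv he.surj x))) ∘ e = e ∘ Γ t := by
      funext v
      exact key he (Γ t) (gΓ t) v
    rw [h]
    exact he.cont.comp (cΓ t)
  · rw [(quot he).continuous_iff]
    have h : (fun x => e (Ψ t (surjInv he.surj x))) ∘ e = e ∘ Ψ t := by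
      funext v
      exact key he (Ψ t) (gΨ t) v
    rw [h]
    exact he.cont.comp (cΨ t)
  · rw [(quot2 he).continuous_iff]
    have h : (uncurry fun t x => e (Φ t (surjInv he.surj x))) ∘ Prod.map (id : ℝ → ℝ) e =
        e ∘ uncurry Φ := by
      funext z
      exact key he (Φ z.1) (gΦ z.1) z.2
    rw [h]
    exact he.cont.comp hH.cΦ
  · intro t v
    exact key he (Γ t) (gΓ t) v
  · intro t v
    exact key he (Φ t) (gΦ t) v

end Pool.Agent.OmegaDC
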