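import Pool.Agent.Work.MP_814647_an.DC.Stmts

/-!
# Item Frk: the corrections of Franks
-/

set_option autoImplicit false

open Set Filter Topology Function
open scoped Manifold ContDiff

noncomputable section

namespace Pool.Agent.OmegaDC

open Pool.Agent.OmegaStab (EE)
open Pool.Agent.OmegaFT (iv TopTorus Integral)

namespace XFrk

lemma series {X E : Type*} [TopologicalSpace X] [NormedAddCommGroup E] [NormedSpace ℝ E]
    [CompleteSpace E] (Th : X → X) (hTh : Continuous Th) (A : E →L[ℝ] E) (μ : ℝ) (hμ0 : 0 ≤ μ)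
    (hμ1 : μ < 1) (hA : ∀ x, ‖A x‖ ≤ μ * ‖x‖) (ψ : X → E) (hψ : Continuous ψ) (B : ℝ)
    (hB : ∀ x, ‖ψ x‖ ≤ B) :
    ∃ w : X → E, Continuous w ∧ (∀ x, ‖w x‖ ≤ B / (1 - μ)) ∧
      (∀ x, w x = ψ x + A (w (Th x))) ∧
      ∀ x y, (∀ j : ℕ, ψ (Th^[j] x) = ψ (Th^[j] y)) → w x = w y := by
  have hpow : ∀ (j : ℕ) (x : E), ‖(A ^ j) x‖ ≤ μ ^ j * ‖x‖ := by
    intro j
    induction j with
    | zero => intro x; simp
    | succ j ih =>
      intro x
      rw [pow_succ]
      refine (ih (A x)).trans ?_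
      rw [pow_succ, mul_assoc]
      exact mul_le_mul_of_nonneg_left (hA x) (pow_nonneg hμ0 j)
  have hgeo : Summable fun j : ℕ => μ ^ j * B :=
    (summable_geometric_of_lt_one hμ0 hμ1).mul_right B
  have hb : ∀ (j : ℕ) (x : X), ‖(A ^ j) (ψ (Th^[j] x))‖ ≤ μ ^ j * B := fun j x =>
    (hpow j _).trans (mul_le_mul_of_nonneg_left (hB _) (pow_nonneg hμ0 j))
  have hs : ∀ x, Summable fun j : ℕ => (A ^ j) (ψ (Th^[j] x)) := fun x =>
    Summable.of_norm_bounded hgeo fun j => hb j x
  refine ⟨fun x => ∑' j : ℕ, (A ^ j) (ψ (Th^[j] x)), ?_, ?_, ?_, ?_⟩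
  · refine continuous_tsum (fun j => ?_) hgeo hb
    exact (A ^ j).continuous.comp (hψ.comp (hTh.iterate j))
  · intro x
    refine (tsum_of_norm_bounded hgeo.hasSum fun j => hb j x).trans ?_
    rw [tsum_mul_right, tsum_geometric_of_lt_one hμ0 hμ1, div_eq_inv_mul]
  · intro x
    show ∑' j : ℕ, (A ^ j) (ψ (Th^[j] x)) = ψ x + A (∑' j : ℕ, (A ^ j) (ψ (Th^[j] (Th x))))
    rw [(hs x).tsum_eq_zero_add, A.map_tsum (hs (Th x))]
    congr 1
    refine tsum_congr fun j => ?_
    rw [pow_succ']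
    rfl
  · intro x y h
    show ∑' j : ℕ, (A ^ j) (ψ (Th^[j] x)) = ∑' j : ℕ, (A ^ j) (ψ (Th^[j] y))
    simp only [h]

lemma bounded {m : ℕ} (φ : EE m → EE m) (hc : Continuous φ)
    (hp : ∀ v k, φ (v + iv k) = φ v) : ∃ B, ∀ v, ‖φ v‖ ≤ B := by
  obtain ⟨B, hB⟩ := (isCompact_closedBall (0 : EE m)
    (Real.sqrt m)).exists_bound_of_continuousOn hc.continuousOn
  refine ⟨B, fun v => ?_⟩
  set k : Fin m → ℤ := fun i => -⌊v i⌋ with hk
  rw [← hp v k]
  refine hB _ ?_
  rw [mem_closedBall_zero_iff, EuclideanSpace.norm_eq]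
  refine Real.sqrt_le_sqrt ?_
  have h1 : ∀ i ∈ (Finset.univ : Finset (Fin m)), ‖(v + iv k) i‖ ^ 2 ≤ (1 : ℝ) := by
    intro i _
    have h2 : (v + iv k) i = Int.fract (v i) := by
      show v i + ((k i : ℤ) : ℝ) = Int.fract (v i)
      simp only [hk, Int.fract]
      push_cast
      ring
    rw [h2, Real.norm_eq_abs, sq_abs]
    have h3 := Int.fract_nonneg (v i)
    have h4 := (Int.fract_lt_one (v i)).le
    nlinarith
  have h5 := Finset.sum_le_sum h1
  simpa using h5

end XFrk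

theorem prf_Frk : Frk := by
  intro m p q D F hD hF
  have hgp := hD.g_pos
  have hμs1 : D.μs < 1 := by
    have h1 := hD.h1
    have h2 := min_le_right D.a 1
    linarith
  have hμu1 : 1 < D.μu := by
    have h1 := hD.h2
    have h2 := le_max_right D.b 1
    linarith
  set φ : EE m → EE m := fun v => F v - D.B v with hφ
  have hφc : Continuous φ := F.continuous.sub D.B.continuous
  have hφp : ∀ v k, φ (v + iv k) = φ v := by
    intro v k
    show F (v + iv k) - D.B (v + iv k) = F v - D.B v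
    rw [hF.eqv, map_add]
    abel
  obtain ⟨C, hC⟩ := XFrk.bounded φ hφc hφp
  have hFt : ∀ t v, D.Ft F t v = F v + t • D.c := fun t v => rfl
  have hFs : ∀ t v, (D.Ft F t).symm v = F.symm (v + -(t • D.c)) := fun t v => rfl
  -- periodicity of the maps and of their inverses
  have hper : ∀ t v k, D.Ft F t (v + iv k) = D.Ft F t v + D.B (iv k) := by
    intro t v k
    rw [hFt, hFt, hF.eqv]
    abel
  have hpers : ∀ t v k, ∃ l, (D.Ft F t).symm (v + iv k) = (D.Ft F t).symm v + iv l := by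
    intro t v k
    obtain ⟨l, hl⟩ := hD.int.2 k
    refine ⟨l, ?_⟩
    rw [Homeomorph.symm_apply_eq, hper, Homeomorph.apply_symm_apply, ← hl,
      ContinuousLinearEquiv.apply_symm_apply]
  have hperj : ∀ t (j : ℕ) v k, ∃ l, (fun v => D.Ft F t v)^[j] (v + iv k) =
      (fun v => D.Ft F t v)^[j] v + iv l := by
    intro t j
    induction j with
    | zero => intro v k; exact ⟨k, rfl⟩
    | succ j ih =>
      intro v k
      obtain ⟨l, hl⟩ := hD.int.1 k
      obtain ⟨l', hl'⟩ := ih (D.Ft F t v) l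
      refine ⟨l', ?_⟩
      rw [iterate_succ_apply, iterate_succ_apply]
      show (fun v => D.Ft F t v)^[j] (D.Ft F t (v + iv k)) = _
      rw [hper, hl, hl']
  have hpersj : ∀ t (j : ℕ) v k, ∃ l, (fun v => (D.Ft F t).symm v)^[j] (v + iv k) =
      (fun v => (D.Ft F t).symm v)^[j] v + iv l := by
    intro t j
    induction j with
    | zero => intro v k; exact ⟨k, rfl⟩
    | succ j ih =>
      intro v k
      obtain ⟨l, hl⟩ := hpers t v k
      obtain ⟨l', hl'⟩ := ih ((D.Ft F t).symm v) l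
      refine ⟨l', ?_⟩
      rw [iterate_succ_apply, iterate_succ_apply]
      show (fun v => (D.Ft F t).symm v)^[j] ((D.Ft F t).symm (v + iv k)) = _
      rw [hl, hl']
  -- the coordinates
  have hU : ∀ t v, D.U (D.Ft F t v) = D.Au (D.U v) + D.U (φ v) := by
    intro t v
    rw [hFt, ← hD.UB v]
    show D.U (F v + t • D.c) = D.U (D.B v) + D.U (F v - D.B v)
    rw [map_add, map_sub, map_smul, hD.Uc, smul_zero]
    abel
  have hS : ∀ t v, D.S (D.Ft F t v) = D.As (D.S v) + D.S (φ v) := by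
    intro t v
    rw [hFt, ← hD.SB v]
    show D.S (F v + t • D.c) = D.S (D.B v) + D.S (F v - D.B v)
    rw [map_add, map_sub, map_smul, hD.Sc, smul_zero]
    abel
  -- the two maps on the product
  set Tu : ℝ × EE m → ℝ × EE m := fun x => (x.1, D.Ft F x.1 x.2) with hTu
  set Ts : ℝ × EE m → ℝ × EE m := fun x => (x.1, (D.Ft F x.1).symm x.2) with hTs
  have hTuc : Continuous Tu := by
    refine continuous_fst.prodMk ?_
    show Continuous fun x : ℝ × EE m => F x.2 + x.1 • D.c
    exact (F.continuous.comp continuous_snd).add (continuous_fst.smul continuous_const)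
  have hSc : Continuous fun x : ℝ × EE m => (D.Ft F x.1).symm x.2 := by
    show Continuous fun x : ℝ × EE m => F.symm (x.2 + -(x.1 • D.c))
    exact F.symm.continuous.comp (continuous_snd.add (continuous_fst.smul continuous_const).neg)
  have hTsc : Continuous Ts := continuous_fst.prodMk hSc
  have hTuj : ∀ (j : ℕ) t v, Tu^[j] (t, v) = (t, (fun v => D.Ft F t v)^[j] v) := by
    intro j
    induction j with
    | zero => intro t v; rfl
    | succ j ih =>
      intro t v
      rw [iterate_succ_apply, iterate_succ_apply]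
      exact ih t _
  have hTsj : ∀ (j : ℕ) t v, Ts^[j] (t, v) = (t, (fun v => (D.Ft F t).symm v)^[j] v) := by
    intro j
    induction j with
    | zero => intro t v; rfl
    | succ j ih =>
      intro t v
      rw [iterate_succ_apply, iterate_succ_apply]
      exact ih t _
  have hAuinv : ∀ z, ‖(D.Au.symm : EE q →L[ℝ] EE q) z‖ ≤ D.μu⁻¹ * ‖z‖ := by
    intro z
    have h1 := hD.exp (D.Au.symm z)
    rw [ContinuousLinearEquiv.apply_symm_apply] at h1
    show ‖D.Au.symm z‖ ≤ D.μu⁻¹ * ‖z‖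
    rw [← div_eq_inv_mul, le_div_iff₀ (by linarith)]
    linarith
  obtain ⟨wu, cu, bu, eu, pu⟩ := XFrk.series Tu hTuc (D.Au.symm : EE q →L[ℝ] EE q) D.μu⁻¹
    (by positivity) (inv_lt_one_of_one_lt₀ hμu1) hAuinv
    (fun x => D.Au.symm (D.U (φ x.2)))
    (D.Au.symm.continuous.comp (D.U.continuous.comp (hφc.comp continuous_snd)))
    (D.μu⁻¹ * (‖D.U‖ * C)) (by
      intro x
      refine (hAuinv _).trans ?_
      refine mul_le_mul_of_nonneg_left ?_ (by positivity)
      exact (D.U.le_opNorm _).trans (mul_le_mul_of_nonneg_left (hC _) (norm_nonneg _)))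
  obtain ⟨ws, cs, bs, es, ps⟩ := XFrk.series Ts hTsc (D.As : EE p →L[ℝ] EE p) D.μs
    hD.μs_nn hμs1 hD.con
    (fun x => -D.S (φ ((D.Ft F x.1).symm x.2)))
    (D.S.continuous.comp (hφc.comp hSc)).neg
    (‖D.S‖ * C) (by
      intro x
      rw [norm_neg]
      exact (D.S.le_opNorm _).trans (mul_le_mul_of_nonneg_left (hC _) (norm_nonneg _)))
  refine ⟨fun t v => ws (t, v), fun t v => wu (t, v),
    max (‖D.S‖ * C / (1 - D.μs)) (D.μu⁻¹ * (‖D.U‖ * C) / (1 - D.μu⁻¹)), ?_⟩
  refine ⟨cs, cu, fun t v => (bs _).trans (le_max_left _ _),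
    fun t v => (bu _).trans (le_max_right _ _), ?_, ?_, ?_, ?_⟩
  · intro t v k
    refine ps _ _ fun j => ?_
    rw [hTsj, hTsj]
    obtain ⟨l, hl⟩ := hpersj t (j + 1) v k
    rw [iterate_succ_apply', iterate_succ_apply'] at hl
    show -D.S (φ ((D.Ft F t).symm _)) = -D.S (φ ((D.Ft F t).symm _))
    rw [hl, hφp]
  · intro t v k
    refine pu _ _ fun j => ?_
    rw [hTuj, hTuj]
    obtain ⟨l, hl⟩ := hperj t j v k
    show D.Au.symm (D.U (φ _)) = D.Au.symm (D.U (φ _))
    rw [hl, hφp]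
  · intro t v
    have h1 := es (t, D.Ft F t v)
    have h2 : Ts (t, D.Ft F t v) = (t, v) := by
      show (t, (D.Ft F t).symm (D.Ft F t v)) = (t, v)
      rw [Homeomorph.symm_apply_apply]
    rw [h2] at h1
    have h3 : ws (t, D.Ft F t v) = -D.S (φ v) + D.As (ws (t, v)) := by
      rw [h1]
      show -D.S (φ ((D.Ft F t).symm (D.Ft F t v))) + D.As (ws (t, v)) = _
      rw [Homeomorph.symm_apply_apply]
    show D.S (D.Ft F t v) + ws (t, D.Ft F t v) = D.As (D.S v + ws (t, v))
    rw [h3, hS, map_add]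
    abel
  · intro t v
    have h1 : wu (t, v) = D.Au.symm (D.U (φ v)) + D.Au.symm (wu (t, D.Ft F t v)) := eu (t, v)
    show D.U (D.Ft F t v) + wu (t, D.Ft F t v) = D.Au (D.U v + wu (t, v))
    rw [h1, hU, map_add, map_add, ContinuousLinearEquiv.apply_symm_apply,
      ContinuousLinearEquiv.apply_symm_apply]
    abel

end Pool.Agent.OmegaDC
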