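import Pool.Agent.Work.MP_814647_an.DC.Stmts
import Pool.Agent.Work.MP_814647_an.TH.I_Baire

/-!
# Item GenC: a stable parameter
-/

set_option autoImplicit false

open Set Filter Topology Function
open scoped Manifold ContDiff

noncomputable section

namespace Pool.Agent.OmegaDC

open Pool.Agent.OmegaStab (EE Dyn IsFam HypAt)
open Pool.Agent.OmegaFT (iv TopTorus Integral)
open Pool.Agent.OmegaStability (Omega OmegaConjugate)

universe u

namespace XGenC

theorem isClosed_Omega {M : Type*} [TopologicalSpace M] (f : M → M) : IsClosed (Omega f) := by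
  rw [← isOpen_compl_iff, isOpen_iff_mem_nhds]
  intro x hx
  have hx' : ¬ x ∈ Omega f := hx
  unfold Omega at hx'
  simp only [Set.mem_ofPred_eq, not_forall] at hx'
  obtain ⟨U, hU, hno⟩ := hx'
  rw [mem_nhds_iff] at hU
  obtain ⟨V, hVU, hVo, hxV⟩ := hU
  filter_upwards [hVo.mem_nhds hxV] with y hy hyΩ
  apply hno
  obtain ⟨n, hn, hne⟩ := hyΩ V (hVo.mem_nhds hy)
  refine ⟨n, hn, hne.mono ?_⟩
  exact inter_subset_inter (image_mono hVU) hVU

theorem fol_mono {m p q : ℕ} {D : Dat m p q} {F G : EE m → EE m} {ε ε' : ℝ}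
    (h : D.Fol F G ε) (hε : ε ≤ ε') : D.Fol F G ε' := by
  intro n k v hn hv
  obtain ⟨y, h1, h2⟩ := h n k v hn hv
  exact ⟨y, h1.trans hε, h2⟩

/-- The good parameters. -/
def Good {m p q : ℕ} (D : Dat m p q) (Φ : ℝ → EE m → EE m) (τ δ : ℝ) : Set ℝ :=
  {t | |t| < τ ∧ ∃ η > 0, ∀ s s' : ℝ, |s - t| < η → |s' - t| < η → D.Fol (Φ s) (Φ s') δ}

theorem isOpen_Good {m p q : ℕ} (D : Dat m p q) (Φ : ℝ → EE m → EE m) (τ δ : ℝ) :
    IsOpen (Good D Φ τ δ) := by
  rw [Metric.isOpen_iff]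
  rintro t ⟨ht, η, hη, h⟩
  refine ⟨min (η / 2) (τ - |t|), lt_min (by linarith) (by linarith), ?_⟩
  intro t' ht'
  rw [Metric.mem_ball, Real.dist_eq] at ht'
  have h1 : |t' - t| < η / 2 := lt_of_lt_of_le ht' (min_le_left _ _)
  have h2 : |t' - t| < τ - |t| := lt_of_lt_of_le ht' (min_le_right _ _)
  refine ⟨?_, η / 2, by linarith, ?_⟩
  · have h3 : |t'| ≤ |t' - t| + |t| := by
      have := abs_add_le (t' - t) t
      simpa using this
    linarith
  · intro s s' hs hs'
    refine h s s' ?_ ?_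
    · have := abs_sub_le s t' t
      linarith
    · have := abs_sub_le s' t' t
      linarith

end XGenC

open XGenC

theorem prf_GenC (hNear : NearC.{u}) (hSpr : SprC) : GenC.{u} := by
  intro m p q D Φ M _ _ e G τ _hOk hSkew hTor hG hsemi hClose hτ hconj hcont
  have hf : Continuous (G 0) := hG.comp (continuous_const.prodMk continuous_id)
  have hcl : IsClosed (Omega (G 0)) := isClosed_Omega _
  have : CompactSpace (Omega (G 0)) := isCompact_iff_compactSpace.1 hcl.isCompact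
  choose h hh using fun (t : {t : ℝ // |t| < τ}) => hconj t.1 t.2
  classical
  let φ : ℝ → C(Omega (G 0), M) := fun t =>
    if ht : |t| < τ then ⟨fun x => (h ⟨t, ht⟩ x : M), by fun_prop⟩
    else ⟨fun x => (x : M), continuous_subtype_val⟩
  have hφ : ∀ (t : ℝ) (ht : |t| < τ) (x : Omega (G 0)), φ t x = (h ⟨t, ht⟩ x : M) := by
    intro t ht x
    simp only [φ, dif_pos ht]
    rfl
  -- the good set is dense
  have hdense : ∀ i : ℕ, ∀ a b : ℝ, a < b → -τ ≤ a → b ≤ τ →
      ∃ t ∈ Ioo a b, t ∈ Good D Φ τ (1 / ((i : ℝ) + 1)) := by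
    intro i a b hab ha hb
    have hmpos : (0 : ℝ) < (i : ℝ) + 1 := by positivity
    have hεpos : (0 : ℝ) < 1 / (2 * ((i : ℝ) + 1)) := by positivity
    obtain ⟨κ, hκ, hnear⟩ := hNear m p q D Φ M e G hTor hsemi hClose τ
      (1 / (2 * ((i : ℝ) + 1))) hεpos
    have hab₁ : a < min b (a + κ) := lt_min hab (by linarith)
    have hb₁ : min b (a + κ) ≤ b := min_le_left _ _
    have hb₂ : min b (a + κ) ≤ a + κ := min_le_right _ _
    obtain ⟨a', b', haa', hab', hbb', S, hSsub, hSdense, hSdist⟩ :=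
      OmegaStability.TH.prf_Baire C(Omega (G 0), M) φ a (min b (a + κ)) κ hab₁ hκ
    have hin : ∀ s ∈ Ioo a' b', |s| < τ := by
      intro s hs
      rw [abs_lt]
      exact ⟨by linarith [hs.1], by linarith [hs.2]⟩
    have hfol : ∀ s ∈ S, ∀ s' ∈ S, D.Fol (Φ s) (Φ s') (1 / (2 * ((i : ℝ) + 1))) := by
      intro s hs s' hs'
      have hs₁ := hSsub hs
      have hs₁' := hSsub hs'
      refine hnear (G 0) s s' (h ⟨s, hin s hs₁⟩) (h ⟨s', hin s' hs₁'⟩) hf
        (hin s hs₁).le ?_ ?_ ?_ ?_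
      · rw [abs_le]
        exact ⟨by linarith [hs₁.1, hs₁.2, hs₁'.1, hs₁'.2],
          by linarith [hs₁.1, hs₁.2, hs₁'.1, hs₁'.2]⟩
      · exact hh ⟨s, hin s hs₁⟩
      · exact hh ⟨s', hin s' hs₁'⟩
      · intro x
        have h1 : dist (φ s x) (φ s' x) ≤ dist (φ s) (φ s') := ContinuousMap.dist_apply_le_dist x
        rw [hφ s (hin s hs₁) x, hφ s' (hin s' hs₁') x] at h1
        exact (lt_of_le_of_lt h1 (hSdist s hs s' hs')).le
    have hspread := hSpr m p q D Φ τ a' b' (1 / (2 * ((i : ℝ) + 1))) S hSkew hcont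
      (by linarith) (by linarith) hSsub hSdense hεpos hfol
    refine ⟨(a' + b') / 2, ⟨by linarith, by linarith⟩, hin _ ⟨by linarith, by linarith⟩,
      (b' - a') / 2, by linarith, ?_⟩
    intro s s' hs hs'
    rw [abs_lt] at hs hs'
    have h2 := hspread s ⟨by linarith [hs.1], by linarith [hs.2]⟩ s'
      ⟨by linarith [hs'.1], by linarith [hs'.2]⟩
    have h3 : 2 * (1 / (2 * ((i : ℝ) + 1))) = 1 / ((i : ℝ) + 1) := by
      field_simp
    rw [h3] at h2
    exact h2
  -- Baire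
  have hopenfar : IsOpen {t : ℝ | τ < |t|} := isOpen_lt continuous_const continuous_abs
  let U : ℕ → Set ℝ := fun i => Good D Φ τ (1 / ((i : ℝ) + 1)) ∪ {t : ℝ | τ < |t|}
  have hUo : ∀ i, IsOpen (U i) := fun i => (isOpen_Good _ _ _ _).union hopenfar
  have hUd : ∀ i, Dense (U i) := by
    intro i
    rw [Metric.dense_iff]
    intro x r hr
    rcases lt_or_ge |x| τ with hx | hx
    · rw [abs_lt] at hx
      obtain ⟨t, ht, htG⟩ := hdense i (max (-τ) (x - r)) (min τ (x + r))
        (max_lt (lt_min (by linarith) (by linarith)) (lt_min (by linarith) (by linarith)))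
        (le_max_left _ _) (min_le_left _ _)
      refine ⟨t, ?_, Or.inl htG⟩
      rw [Metric.mem_ball, Real.dist_eq, abs_lt]
      have h1 := le_max_right (-τ) (x - r)
      have h2 := min_le_right τ (x + r)
      exact ⟨by linarith [ht.1], by linarith [ht.2]⟩
    · rcases le_or_gt 0 x with h0 | h0
      · refine ⟨x + r / 2, ?_, Or.inr ?_⟩
        · rw [Metric.mem_ball, Real.dist_eq, abs_lt]
          exact ⟨by linarith, by linarith⟩
        · show τ < |x + r / 2|
          rw [abs_of_nonneg h0] at hx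
          rw [abs_of_nonneg (by linarith)]
          linarith
      · refine ⟨x - r / 2, ?_, Or.inr ?_⟩
        · rw [Metric.mem_ball, Real.dist_eq, abs_lt]
          exact ⟨by linarith, by linarith⟩
        · show τ < |x - r / 2|
          rw [abs_of_neg h0] at hx
          rw [abs_of_neg (by linarith)]
          linarith
  have hdI : Dense (⋂ i, U i) := dense_iInter_of_isOpen hUo hUd
  obtain ⟨t₀, ht₀U, ht₀⟩ := hdI.exists_mem_open (isOpen_Ioo (a := -τ) (b := τ))
    ⟨0, ⟨by linarith, hτ⟩⟩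
  have habs : |t₀| < τ := abs_lt.2 ⟨ht₀.1, ht₀.2⟩
  refine ⟨t₀, habs, ?_⟩
  intro ε hε
  obtain ⟨i, hi⟩ := exists_nat_one_div_lt hε
  have hm2 : t₀ ∈ U i := by
    rw [mem_iInter] at ht₀U
    exact ht₀U i
  rcases hm2 with ⟨_, η, hη, hGd⟩ | hfar
  · refine ⟨η, hη, fun s hs => ?_⟩
    exact fol_mono (hGd s t₀ hs (by simpa using hη)) hi.le
  · have hfar' : τ < |t₀| := hfar
    exact absurd habs (not_lt.2 hfar'.le)

end Pool.Agent.OmegaDC
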