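import Pool.Agent.Work.MP_814647_an.DC.Stmts
import Pool.Agent.Work.MP_814647_an.FT.I_BrBdd

/-!
# MP_814647_an, block DC, item HatA: the straightening
-/

set_option autoImplicit false

open Set Filter Topology Function

noncomputable section

namespace Pool.Agent.OmegaDC

open Pool.Agent.OmegaStab (EE)
open Pool.Agent.OmegaFT (iv Integral)

namespace XHatA

/-- the coordinates as a linear isomorphism -/
theorem exists_cl {m p q : ℕ} (D : Dat m p q) (h : D.Ok) :
    ∃ cl : EE m ≃L[ℝ] EE p × ℝ × EE q, ∀ v, cl v = (D.S v, D.l v, D.U v) := by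
  let T : EE m →L[ℝ] EE p × ℝ × EE q := D.S.prod (D.l.prod D.U)
  have hb : Bijective (T : EE m →ₗ[ℝ] EE p × ℝ × EE q) := h.bij
  refine ⟨(LinearEquiv.ofBijective (T : EE m →ₗ[ℝ] EE p × ℝ × EE q) hb).toContinuousLinearEquiv,
    fun v => rfl⟩

theorem zorb_succ {m : ℕ} (G : EE m ≃ₜ EE m) (v : EE m) (j : ℤ) :
    zorb G v (j + 1) = G (zorb G v j) := by
  unfold zorb
  rw [add_comm, zpow_add, zpow_one]
  rfl

theorem zorb_zero {m : ℕ} (G : EE m ≃ₜ EE m) (v : EE m) : zorb G v 0 = v := by
  unfold zorb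
  rw [zpow_zero]
  rfl

/-- a property which holds at `0` and is invariant in both directions holds everywhere -/
theorem int_ind {P : ℤ → Prop} (h0 : P 0) (h : ∀ j, P (j + 1) ↔ P j) : ∀ j, P j := by
  intro j
  induction j using Int.induction_on with
  | zero => exact h0
  | succ i ih => exact (h _).2 ih
  | pred i ih =>
    have h1 := h (-(i : ℤ) - 1)
    rw [sub_add_cancel] at h1
    exact h1.1 ih

/-- a continuous bijection at bounded distance from the identity has a continuous inverse -/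
theorem inv_cont {E : Type*} [NormedAddCommGroup E] [NormedSpace ℝ E] [FiniteDimensional ℝ E]
    (Θ : E → E) (hc : Continuous Θ) (hb : Bijective Θ) (K : ℝ) (hK : ∀ z, ‖Θ z - z‖ ≤ K) :
    Continuous (Equiv.ofBijective Θ hb).symm := by
  have : ProperSpace E := FiniteDimensional.proper ℝ E
  have ht : Tendsto Θ (cocompact E) (cocompact E) := by
    rw [← Metric.cobounded_eq_cocompact, ← tendsto_norm_atTop_iff_cobounded]
    have h1 : Tendsto (fun z : E => ‖z‖ - K) (Bornology.cobounded E) atTop :=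
      tendsto_atTop_add_const_right _ _ tendsto_norm_cobounded_atTop
    refine tendsto_atTop_mono (fun z => ?_) h1
    have h2 : ‖z‖ ≤ ‖Θ z‖ + ‖Θ z - z‖ := by
      have h3 : z = Θ z - (Θ z - z) := by abel
      calc ‖z‖ = ‖Θ z - (Θ z - z)‖ := by rw [← h3]
        _ ≤ _ := norm_sub_le _ _
    have h4 := hK z
    linarith
  have hp : IsProperMap Θ := isProperMap_iff_tendsto_cocompact.2 ⟨hc, ht⟩
  have hcl : IsClosedMap Θ := hp.isClosedMap
  rw [continuous_iff_isClosed]
  intro s hs
  have h5 : (Equiv.ofBijective Θ hb).symm ⁻¹' s = Θ '' s := by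
    ext y
    constructor
    · intro hy
      exact ⟨_, hy, (Equiv.ofBijective Θ hb).apply_symm_apply y⟩
    · rintro ⟨x, hx, rfl⟩
      show (Equiv.ofBijective Θ hb).symm (Θ x) ∈ s
      rw [show (Equiv.ofBijective Θ hb).symm (Θ x) = x from
        (Equiv.ofBijective Θ hb).symm_apply_apply x]
      exact hx
  rw [h5]
  exact hcl s hs

end XHatA

open XHatA in
theorem prf_HatA (hOrb : Orb2) : HatA := by
  intro m p q D F ws wu K hD hF hW
  obtain ⟨cl, hcl⟩ := exists_cl D hD
  have hK : 0 ≤ K := (norm_nonneg _).trans (hW.bs 0 0)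
  set J : ℝ → EE m → EE m := fun t v => cl.symm (ws t v, 0, wu t v) with hJ
  set Ψ : ℝ → EE m → EE m := fun t v => v + J t v with hΨ
  have hclJ : ∀ t v, cl (J t v) = (ws t v, 0, wu t v) := fun t v => cl.apply_symm_apply _
  have hSJ : ∀ t v, D.S (J t v) = ws t v := fun t v => by
    have h := (hcl (J t v)).symm.trans (hclJ t v)
    exact (Prod.mk.inj h).1
  have hlJ : ∀ t v, D.l (J t v) = 0 := fun t v => by
    have h := (hcl (J t v)).symm.trans (hclJ t v)
    exact (Prod.mk.inj (Prod.mk.inj h).2).1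
  have hUJ : ∀ t v, D.U (J t v) = wu t v := fun t v => by
    have h := (hcl (J t v)).symm.trans (hclJ t v)
    exact (Prod.mk.inj (Prod.mk.inj h).2).2
  have hSΨ : ∀ t v, D.S (Ψ t v) = D.S v + ws t v := fun t v => by
    rw [hΨ]; simp only [map_add, hSJ]
  have hlΨ : ∀ t v, D.l (Ψ t v) = D.l v := fun t v => by
    rw [hΨ]; simp only [map_add, hlJ, add_zero]
  have hUΨ : ∀ t v, D.U (Ψ t v) = D.U v + wu t v := fun t v => by
    rw [hΨ]; simp only [map_add, hUJ]
  -- the bound
  set K' : ℝ := ‖(cl.symm : EE p × ℝ × EE q →L[ℝ] EE m)‖ * K with hK'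
  have hJb : ∀ t v, ‖J t v‖ ≤ K' := by
    intro t v
    refine ((cl.symm : EE p × ℝ × EE q →L[ℝ] EE m).le_opNorm _).trans ?_
    refine mul_le_mul_of_nonneg_left ?_ (norm_nonneg _)
    rw [Prod.norm_def, Prod.norm_def]
    simp only [norm_zero]
    exact max_le (hW.bs t v) (max_le hK (hW.bu t v))
  have hcJ : Continuous (uncurry J) := by
    have h : Continuous fun z : ℝ × EE m => (uncurry ws z, (0 : ℝ), uncurry wu z) :=
      hW.cs.prodMk (continuous_const.prodMk hW.cu)
    exact cl.symm.continuous.comp h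
  have hcΨ : Continuous (uncurry Ψ) := by
    have h : Continuous fun z : ℝ × EE m => z.2 + uncurry J z := continuous_snd.add hcJ
    exact h
  -- injectivity
  have hinj : ∀ t, Injective (Ψ t) := by
    intro t v w hvw
    have h1 : D.S v + ws t v = D.S w + ws t w := by rw [← hSΨ, ← hSΨ, hvw]
    have h2 : D.l v = D.l w := by rw [← hlΨ t v, ← hlΨ t w, hvw]
    have h3 : D.U v + wu t v = D.U w + wu t w := by rw [← hUΨ, ← hUΨ, hvw]
    have h4 : ∀ j, D.S (zorb (D.Ft F t) v j) + ws t (zorb (D.Ft F t) v j) =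
        D.S (zorb (D.Ft F t) w j) + ws t (zorb (D.Ft F t) w j) := by
      refine int_ind ?_ fun j => ?_
      · rw [zorb_zero, zorb_zero]; exact h1
      · rw [zorb_succ, zorb_succ, hW.es, hW.es]
        exact ⟨fun h => D.As.injective h, fun h => by rw [h]⟩
    have h5 : ∀ j, D.U (zorb (D.Ft F t) v j) + wu t (zorb (D.Ft F t) v j) =
        D.U (zorb (D.Ft F t) w j) + wu t (zorb (D.Ft F t) w j) := by
      refine int_ind ?_ fun j => ?_
      · rw [zorb_zero, zorb_zero]; exact h3
      · rw [zorb_succ, zorb_succ, hW.eu, hW.eu]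
        exact ⟨fun h => D.Au.injective h, fun h => by rw [h]⟩
    have h6 : ∀ j, D.pp (zorb (D.Ft F t) v j - zorb (D.Ft F t) w j) ≤ 2 * K := by
      intro j
      unfold Dat.pp
      refine max_le ?_ ?_
      · have e : D.S (zorb (D.Ft F t) v j - zorb (D.Ft F t) w j) =
            ws t (zorb (D.Ft F t) w j) - ws t (zorb (D.Ft F t) v j) := by
          rw [map_sub]
          have := h4 j
          rw [sub_eq_sub_iff_add_eq_add]
          rw [this]
          abel
        rw [e]
        refine (norm_sub_le _ _).trans ?_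
        have a1 := hW.bs t (zorb (D.Ft F t) w j)
        have a2 := hW.bs t (zorb (D.Ft F t) v j)
        linarith
      · have e : D.U (zorb (D.Ft F t) v j - zorb (D.Ft F t) w j) =
            wu t (zorb (D.Ft F t) w j) - wu t (zorb (D.Ft F t) v j) := by
          rw [map_sub]
          have := h5 j
          rw [sub_eq_sub_iff_add_eq_add]
          rw [this]
          abel
        rw [e]
        refine (norm_sub_le _ _).trans ?_
        have a1 := hW.bu t (zorb (D.Ft F t) w j)
        have a2 := hW.bu t (zorb (D.Ft F t) v j)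
        linarith
    have h7 := hOrb m p q D F hD hF t t (2 * K) v w h6
    have h8 : D.l (v - w) = 0 := by rw [map_sub, h2, sub_self]
    rw [h8, sub_self, abs_zero, mul_zero, zero_div, add_zero, mul_zero] at h7
    have h9 : D.S (v - w) = 0 := norm_le_zero_iff.1 ((le_max_left _ _).trans h7)
    have h10 : D.U (v - w) = 0 := norm_le_zero_iff.1 ((le_max_right _ _).trans h7)
    have h11 : cl (v - w) = 0 := by
      rw [hcl, h8, h9, h10]; rfl
    exact sub_eq_zero.1 ((map_eq_zero_iff cl cl.injective).1 h11)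
  -- surjectivity
  have hsur : ∀ t, Surjective (Ψ t) := by
    intro t y
    obtain ⟨v, hv⟩ := Pool.Agent.OmegaFT.prf_BrBdd (EE m) (fun v => y - J t v)
      (continuous_const.sub (hcJ.comp (continuous_const.prodMk continuous_id)))
      ⟨‖y‖ + K', fun v => (norm_sub_le _ _).trans (by have := hJb t v; linarith)⟩
    refine ⟨v, ?_⟩
    have hv' : y - J t v = v := hv
    show v + J t v = y
    exact (sub_eq_iff_eq_add.1 hv').symm
  -- the inverse
  let Θ : ℝ × EE m → ℝ × EE m := fun z => (z.1, Ψ z.1 z.2)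
  have hΘc : Continuous Θ := continuous_fst.prodMk hcΨ
  have hΘb : Bijective Θ := by
    constructor
    · rintro ⟨t, v⟩ ⟨s, w⟩ h
      obtain ⟨h1, h2⟩ := Prod.mk.inj h
      change t = s at h1
      subst h1
      have h3 : v = w := hinj t h2
      rw [h3]
    · rintro ⟨t, y⟩
      obtain ⟨v, hv⟩ := hsur t y
      exact ⟨(t, v), by show (t, Ψ t v) = (t, y); rw [hv]⟩
  have hΘK : ∀ z, ‖Θ z - z‖ ≤ K' := by
    rintro ⟨t, v⟩
    have e : Θ (t, v) - (t, v) = (0, J t v) := by
      show (t, v + J t v) - (t, v) = (0, J t v)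
      rw [Prod.mk_sub_mk, sub_self, add_sub_cancel_left]
    rw [e, Prod.norm_def]
    simp only [norm_zero]
    exact max_le ((norm_nonneg _).trans (hJb t v)) (hJb t v)
  have hinv := inv_cont Θ hΘc hΘb K' hΘK
  let Γ : ℝ → EE m → EE m := fun t v => ((Equiv.ofBijective Θ hΘb).symm (t, v)).2
  have hcΓ : Continuous (uncurry Γ) := continuous_snd.comp hinv
  have hright : ∀ t v, Ψ t (Γ t v) = v := by
    intro t v
    have h : Θ ((Equiv.ofBijective Θ hΘb).symm (t, v)) = (t, v) :=
      (Equiv.ofBijective Θ hΘb).apply_symm_apply (t, v)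
    obtain ⟨h1, h2⟩ := Prod.mk.inj h
    rw [h1] at h2
    exact h2
  have hleft : ∀ t v, Γ t (Ψ t v) = v := fun t v => hinj t (hright t _)
  have hpJ : ∀ t v k, J t (v + iv k) = J t v := by
    intro t v k
    show cl.symm (ws t (v + iv k), 0, wu t (v + iv k)) = cl.symm (ws t v, 0, wu t v)
    rw [hW.ps, hW.pu]
  have hpΨ : ∀ t v k, Ψ t (v + iv k) = Ψ t v + iv k := by
    intro t v k
    show v + iv k + J t (v + iv k) = v + J t v + iv k
    rw [hpJ]; abel
  have hpΓ : ∀ t v k, Γ t (v + iv k) = Γ t v + iv k := by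
    intro t v k
    refine hinj t ?_
    rw [hright, hpΨ, hright]
  have hcFt : Continuous fun z : ℝ × EE m => D.Ft F z.1 z.2 := by
    have h : Continuous fun z : ℝ × EE m => F z.2 + z.1 • D.c :=
      (F.continuous.comp continuous_snd).add (continuous_fst.smul continuous_const)
    exact h
  refine ⟨Γ, Ψ, fun t v => Ψ t (D.Ft F t (Γ t v)), K', ?_⟩
  constructor
  · exact hcΓ
  · exact hcΨ
  · exact hleft
  · exact hright
  · exact hpΓ
  · exact hpΨ
  · intro t v
    have h : Γ t v - v = -J t (Γ t v) := by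
      have h1 := hright t v
      have h2 : Γ t v + J t (Γ t v) = v := h1
      calc Γ t v - v = Γ t v - (Γ t v + J t (Γ t v)) := by rw [h2]
        _ = -J t (Γ t v) := by abel
    rw [h, norm_neg]
    exact hJb _ _
  · intro t v
    rw [← hlΨ t (Γ t v), hright]
  · intro t v
    exact hleft _ _
  · have h : Continuous fun z : ℝ × EE m => (z.1, D.Ft F z.1 (Γ z.1 z.2)) :=
      continuous_fst.prodMk (hcFt.comp (continuous_fst.prodMk hcΓ))
    exact hcΨ.comp h
  · intro t v k
    obtain ⟨l, hl⟩ := hD.int.1 k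
    have h1 : D.Ft F t (Γ t (v + iv k)) = D.Ft F t (Γ t v) + iv l := by
      rw [hpΓ]
      show F (Γ t v + iv k) + t • D.c = F (Γ t v) + t • D.c + iv l
      rw [hF.eqv, hl]; abel
    show Ψ t (D.Ft F t (Γ t (v + iv k))) = Ψ t (D.Ft F t (Γ t v)) + D.B (iv k)
    rw [h1, hpΨ, hl]
  · intro t v
    show D.S (Ψ t (D.Ft F t (Γ t v))) = D.As (D.S v)
    rw [hSΨ, hW.es, ← hSΨ, hright]
  · intro t v
    show D.U (Ψ t (D.Ft F t (Γ t v))) = D.Au (D.U v)
    rw [hUΨ, hW.eu, ← hUΨ, hright]

end Pool.Agent.OmegaDC
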