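import Pool.Agent.Work.MP_814647_an.DC.Stmts

/-!
# Item HatB: monotonicity of the straightened family
-/

set_option autoImplicit false

open Set Filter Topology Function
open scoped Manifold ContDiff

noncomputable section

namespace Pool.Agent.OmegaDC

open Pool.Agent.OmegaStab (EE)
open Pool.Agent.OmegaFT (iv)

namespace XHatB

variable {m p q : ℕ}

theorem zorb_zero (G : EE m ≃ₜ EE m) (v : EE m) : zorb G v 0 = v := by
  simp [zorb]

theorem zorb_succ (G : EE m ≃ₜ EE m) (v : EE m) (j : ℤ) : zorb G v (j + 1) = G (zorb G v j) := by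
  unfold zorb
  rw [add_comm, zpow_one_add]
  rfl

theorem pp_add_smul {D : Dat m p q} (h : D.Ok) (v : EE m) (s : ℝ) :
    D.pp (v + s • D.c) = D.pp v := by
  simp [Dat.pp, h.Sc, h.Uc]

/-- The coordinates of the straightened orbit. -/
theorem orb {D : Dat m p q} {F : EE m ≃ₜ EE m} {Γ Ψ Φ : ℝ → EE m → EE m} {K : ℝ}
    (hH : D.Hat F Γ Ψ Φ K) (t : ℝ) (v : EE m) (j : ℤ) :
    Γ t (Ψ t (zorb (D.Ft F t) (Γ t v) j)) = zorb (D.Ft F t) (Γ t v) j ∧
      Ψ t (zorb (D.Ft F t) (Γ t v) (j + 1)) = Φ t (Ψ t (zorb (D.Ft F t) (Γ t v) j)) := by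
  have h1 : Γ t (Ψ t (zorb (D.Ft F t) (Γ t v) j)) = zorb (D.Ft F t) (Γ t v) j := hH.left t _
  refine ⟨h1, ?_⟩
  rw [← hH.right t (Φ t (Ψ t (zorb (D.Ft F t) (Γ t v) j))), hH.semi, h1, zorb_succ]

theorem coord {D : Dat m p q} {F : EE m ≃ₜ EE m} {Γ Ψ Φ : ℝ → EE m → EE m} {K : ℝ}
    (hH : D.Hat F Γ Ψ Φ K) (t t' : ℝ) (v v' : EE m) (hS : D.S v = D.S v') (hU : D.U v = D.U v')
    (j : ℤ) :
    D.S (Ψ t (zorb (D.Ft F t) (Γ t v) j)) = D.S (Ψ t' (zorb (D.Ft F t') (Γ t' v') j)) ∧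
      D.U (Ψ t (zorb (D.Ft F t) (Γ t v) j)) = D.U (Ψ t' (zorb (D.Ft F t') (Γ t' v') j)) := by
  have hup : ∀ j : ℤ,
      (D.S (Ψ t (zorb (D.Ft F t) (Γ t v) j)) = D.S (Ψ t' (zorb (D.Ft F t') (Γ t' v') j)) ∧
      D.U (Ψ t (zorb (D.Ft F t) (Γ t v) j)) = D.U (Ψ t' (zorb (D.Ft F t') (Γ t' v') j))) ↔
      (D.S (Ψ t (zorb (D.Ft F t) (Γ t v) (j + 1))) =
        D.S (Ψ t' (zorb (D.Ft F t') (Γ t' v') (j + 1))) ∧
      D.U (Ψ t (zorb (D.Ft F t) (Γ t v) (j + 1))) =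
        D.U (Ψ t' (zorb (D.Ft F t') (Γ t' v') (j + 1)))) := by
    intro j
    rw [(orb hH t v j).2, (orb hH t' v' j).2, hH.SΦ, hH.SΦ, hH.UΦ, hH.UΦ,
      D.As.injective.eq_iff, D.Au.injective.eq_iff]
  induction j using Int.induction_on with
  | zero =>
    rw [zorb_zero, zorb_zero, hH.right, hH.right]
    exact ⟨hS, hU⟩
  | succ i ih => exact (hup _).1 ih
  | pred i ih =>
    have h := hup (-(i : ℤ) - 1)
    rw [sub_add_cancel] at h
    exact h.2 ih

/-- The estimate on the correction. -/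
theorem est (hOrb : Orb2) {D : Dat m p q} {F : EE m ≃ₜ EE m} {Γ Ψ Φ : ℝ → EE m → EE m} {K : ℝ}
    (hO : D.Ok) (hL : D.Lift F) (hH : D.Hat F Γ Ψ Φ K) (t t' : ℝ) (v v' : EE m)
    (hS : D.S v = D.S v') (hU : D.U v = D.U v') :
    D.pp (Γ t v - Γ t' v') ≤ 4 * D.δ / D.g * (|D.l v - D.l v'| + 2 * |t - t'| / D.g) := by
  have hK : 0 ≤ K := (norm_nonneg _).trans (hH.bdd 0 0)
  have key : ∀ j, D.pp (zorb (D.Ft F t) (Γ t v) j - zorb (D.Ft F t') (Γ t' v') j) ≤
      (‖D.S‖ + ‖D.U‖) * (2 * K) := by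
    intro j
    obtain ⟨h1, h2⟩ := coord hH t t' v v' hS hU j
    have e1 := (orb hH t v j).1
    have e2 := (orb hH t' v' j).1
    set x := zorb (D.Ft F t) (Γ t v) j with hx
    set x' := zorb (D.Ft F t') (Γ t' v') j with hx'
    have b1 : ‖x - Ψ t x‖ ≤ K := by
      have := hH.bdd t (Ψ t x)
      rwa [e1] at this
    have b2 : ‖x' - Ψ t' x'‖ ≤ K := by
      have := hH.bdd t' (Ψ t' x')
      rwa [e2] at this
    have b3 : ‖(x - Ψ t x) - (x' - Ψ t' x')‖ ≤ 2 * K := by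
      refine (norm_sub_le _ _).trans ?_
      linarith
    have s1 : D.S (x - x') = D.S ((x - Ψ t x) - (x' - Ψ t' x')) := by
      simp only [map_sub, h1]
      abel
    have s2 : D.U (x - x') = D.U ((x - Ψ t x) - (x' - Ψ t' x')) := by
      simp only [map_sub, h2]
      abel
    unfold Dat.pp
    refine max_le ?_ ?_
    · rw [s1]
      refine (D.S.le_opNorm _).trans ?_
      refine mul_le_mul (le_add_of_nonneg_right (norm_nonneg _)) b3 (norm_nonneg _) ?_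
      positivity
    · rw [s2]
      refine (D.U.le_opNorm _).trans ?_
      refine mul_le_mul (le_add_of_nonneg_left (norm_nonneg _)) b3 (norm_nonneg _) ?_
      positivity
  have h := hOrb m p q D F hO hL t t' _ (Γ t v) (Γ t' v') key
  rwa [map_sub, hH.lΓ, hH.lΓ] at h

theorem lPhi {D : Dat m p q} {F : EE m ≃ₜ EE m} {Γ Ψ Φ : ℝ → EE m → EE m} {K : ℝ}
    (hO : D.Ok) (hH : D.Hat F Γ Ψ Φ K) (t : ℝ) (v : EE m) :
    D.l (Φ t v) = D.l (F (Γ t v)) + t := by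
  rw [← hH.lΓ t (Φ t v), hH.semi]
  simp [Dat.Ft, hO.lc]

end XHatB

theorem prf_HatB (hOrb : Orb2) : HatB := by
  intro m p q D F Γ Ψ Φ K hO hL hH
  have hg := hO.g_pos
  have hLn := hO.L_nn
  have hδ := hO.δ_nn
  have h3 := hO.h3
  have hLδ : 16 * (D.L * D.δ) ≤ D.g ^ 2 := by nlinarith
  refine ⟨hH.cΦ, hH.pΦ, hH.SΦ, hH.UΦ, ?_, ?_⟩
  · intro t v s hs
    have e := XHatB.est hOrb hO hL hH t t (v + s • D.c) v
      (by simp [hO.Sc]) (by simp [hO.Uc])
    have e1 : D.l (v + s • D.c) - D.l v = s := by simp [hO.lc]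
    rw [e1, sub_self, abs_zero, mul_zero, zero_div, add_zero, abs_of_pos hs] at e
    rw [XHatB.lPhi hO hH, XHatB.lPhi hO hH]
    have h1 := (hL.hl (Γ t v) s hs.le).1
    have h2 := hL.hL (Γ t (v + s • D.c)) (Γ t v + s • D.c) (by
      rw [hH.lΓ, map_add, map_add, hH.lΓ])
    have h4 : Γ t (v + s • D.c) - (Γ t v + s • D.c) =
        (Γ t (v + s • D.c) - Γ t v) + (-s) • D.c := by
      rw [neg_smul]
      abel
    rw [h4, XHatB.pp_add_smul hO] at h2
    have h5 := (abs_le.1 h2).1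
    rw [map_sub] at h1 h5
    have h6 : D.L * D.pp (Γ t (v + s • D.c) - Γ t v) ≤ D.L * (4 * D.δ / D.g * s) :=
      mul_le_mul_of_nonneg_left e hLn
    have h7 : D.L * (4 * D.δ / D.g * s) ≤ D.g / 4 * s := by
      have : D.L * (4 * D.δ / D.g * s) = (4 * (D.L * D.δ) / D.g) * s := by ring
      rw [this]
      refine mul_le_mul_of_nonneg_right ?_ hs.le
      rw [div_le_iff₀ hg]
      nlinarith
    have h8 : D.g ≤ D.a := by
      have := hO.h1
      have := hO.μs_nn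
      have := min_le_left D.a 1
      linarith
    have h9 : D.g * s ≤ D.a * s := mul_le_mul_of_nonneg_right h8 hs.le
    have h10 : 0 < D.g * s := mul_pos hg hs
    linarith
  · intro t t' v htt
    have e := XHatB.est hOrb hO hL hH t' t v v rfl rfl
    rw [sub_self, abs_zero, zero_add, abs_of_nonneg (sub_nonneg.2 htt)] at e
    rw [XHatB.lPhi hO hH, XHatB.lPhi hO hH]
    have h2 := hL.hL (Γ t' v) (Γ t v) (by rw [hH.lΓ, hH.lΓ])
    have h5 := (abs_le.1 h2).1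
    rw [map_sub] at h5
    have h6 : D.L * D.pp (Γ t' v - Γ t v) ≤
        D.L * (4 * D.δ / D.g * (2 * (t' - t) / D.g)) := mul_le_mul_of_nonneg_left e hLn
    have h7 : D.L * (4 * D.δ / D.g * (2 * (t' - t) / D.g)) ≤ 1 / 2 * (t' - t) := by
      have : D.L * (4 * D.δ / D.g * (2 * (t' - t) / D.g)) =
          (8 * (D.L * D.δ) / D.g ^ 2) * (t' - t) := by
        field_simp
        ring
      rw [this]
      refine mul_le_mul_of_nonneg_right ?_ (sub_nonneg.2 htt)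
      rw [div_le_iff₀ (by positivity)]
      linarith
    linarith

end Pool.Agent.OmegaDC
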