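import Pool.Agent.Work.MP_814647_an.DC.Stmts
import Pool.Agent.Work.MP_814647_an.Bd.B07

/-!
# Local uniqueness of hyperbolic periodic points in smooth families
-/

set_option autoImplicit false

open Set Filter Topology Function
open scoped Manifold ContDiff

noncomputable section

namespace Pool.Agent.OmegaDC

open Pool.Agent.OmegaStab
open Pool.Agent.OmegaStability (hypLin_pow_fixed)

universe u

namespace XLU

/-- Injectivity near a point from a bijective strict derivative. -/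
theorem injOn_of_bij {E : Type*} [NormedAddCommGroup E] [NormedSpace ℝ E] [CompleteSpace E]
    {Ψ : E → E} {T : E →L[ℝ] E} {a : E} (h : HasStrictFDerivAt Ψ T a) (hi : Injective T)
    (hs : Surjective T) : ∃ S ∈ 𝓝 a, InjOn Ψ S := by
  set T' : E ≃L[ℝ] E := ContinuousLinearEquiv.ofBijective T
    (LinearMap.ker_eq_bot.2 hi) (LinearMap.range_eq_top.2 hs) with hT'
  have h1 : HasStrictFDerivAt Ψ (T' : E →L[ℝ] E) a := by
    rw [hT', ContinuousLinearEquiv.coe_ofBijective]
    exact h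
  exact ⟨(h1.toOpenPartialHomeomorph Ψ).source,
    (h1.toOpenPartialHomeomorph Ψ).open_source.mem_nhds h1.mem_toOpenPartialHomeomorph_source,
    (h1.toOpenPartialHomeomorph Ψ).injOn⟩

end XLU

theorem prf_LU : LU.{u} := by
  intro m M _ _ _ r h g p n hr hh hn0 hyp hk
  have hps : p ∈ (extChartAt (𝓡 m) p).source := mem_extChartAt_source p
  set c := extChartAt (𝓡 m) p p with hc
  have hsc : (extChartAt (𝓡 m) p).symm c = p := (extChartAt (𝓡 m) p).left_inv hps
  set G : ℝ × EE m → EE m := fun q => inCharts (d := m) p p ((g.trans (h q.1))^[n]) q.2 with hG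
  have hC : ContDiffAt ℝ r G (0, c) :=
    FiniteFix.joint_inCharts hh g n hps (by rw [hk]; exact hps)
  have hr0 : (r : ℕ∞ω) ≠ 0 := by
    intro h0
    have h1 : r = 0 := by exact_mod_cast h0
    rw [h1] at hr
    exact absurd hr (by decide)
  have hGs := hC.hasStrictFDerivAt hr0
  set P := fderiv ℝ G (0, c) with hP
  set D := fderiv ℝ (inCharts (d := m) p p (g^[n])) c with hD
  have hG0 : ∀ u, G (0, u) = inCharts (d := m) p p (g^[n]) u := by
    intro u
    simp only [hG]
    rw [FiniteFix.trans_zero hh g]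
  have hPD : ∀ v, P (0, v) = D v := by
    intro v
    have h1 : HasFDerivAt (fun u : EE m => ((0 : ℝ), u)) (ContinuousLinearMap.inr ℝ ℝ (EE m)) c :=
      hasFDerivAt_prodMk_right 0 c
    have h2 : HasFDerivAt (fun u : EE m => G (0, u)) (P.comp (ContinuousLinearMap.inr ℝ ℝ (EE m)))
        c := hGs.hasFDerivAt.comp c h1
    have h3 : (fun u : EE m => G (0, u)) = inCharts (d := m) p p (g^[n]) := funext hG0
    rw [h3] at h2
    have h4 := h2.fderiv
    rw [hD, h4]
    rfl
  have hfixed : ∀ v, D v = v → v = 0 := by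
    intro v hv
    obtain ⟨hper, hlin⟩ := hyp
    have hg := FinHyp.mdiff hr g
    have hfx : g^[minimalPeriod g p] p = p := Function.iterate_minimalPeriod
    obtain ⟨j, hj⟩ : minimalPeriod g p ∣ n := Function.IsPeriodicPt.minimalPeriod_dvd hk
    have hj0 : 0 < j := by
      rcases Nat.eq_zero_or_pos j with h | h
      · rw [h, mul_zero] at hj
        omega
      · exact h
    rw [← FinHyp.der_eq_fderiv (FinHyp.mdiff_iter hg _) hfx] at hlin
    have hD' : FinHyp.der (d := m) (g^[n]) p = D :=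
      FinHyp.der_eq_fderiv (FinHyp.mdiff_iter hg _) hk
    have h5 : (FinHyp.der (d := m) g^[minimalPeriod g p * j] p) v = v := by
      rw [← hj, hD', hv]
    rw [FinHyp.der_iter_mul hg hfx j] at h5
    exact hypLin_pow_fixed hlin hj0 h5
  have hinj : Injective (D - 1 : EE m →L[ℝ] EE m) := by
    rw [injective_iff_map_eq_zero]
    intro v hv
    have h1 : D v = v := by
      have : D v - v = 0 := hv
      exact sub_eq_zero.1 this
    exact hfixed v h1
  have hsurj : Surjective (D - 1 : EE m →L[ℝ] EE m) :=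
    (LinearMap.injective_iff_surjective (f := ((D - 1 : EE m →L[ℝ] EE m) : EE m →ₗ[ℝ] EE m))).1
      hinj
  set Ψ : ℝ × EE m → ℝ × EE m := fun q => (q.1, G q - q.2) with hΨ
  set T : ℝ × EE m →L[ℝ] ℝ × EE m := (ContinuousLinearMap.fst ℝ ℝ (EE m)).prod
    (P - ContinuousLinearMap.snd ℝ ℝ (EE m)) with hT
  have hΨs : HasStrictFDerivAt Ψ T (0, c) :=
    hasStrictFDerivAt_fst.prodMk (hGs.sub hasStrictFDerivAt_snd)
  have hTs : Surjective T := by
    rintro ⟨τ, w⟩
    obtain ⟨v, hv⟩ := hsurj (w - P (τ, 0))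
    refine ⟨(τ, v), ?_⟩
    have h1 : P (τ, v) = P (τ, 0) + D v := by
      rw [← hPD, ← map_add]
      simp
    have h2 : D v - v = w - P (τ, 0) := hv
    show (τ, P (τ, v) - v) = (τ, w)
    rw [h1, add_sub_assoc, h2]
    simp
  have hTi : Injective T := by
    rw [injective_iff_map_eq_zero]
    rintro ⟨τ, v⟩ hv
    have h1 : (τ, P (τ, v) - v) = (0 : ℝ × EE m) := hv
    rw [Prod.mk_eq_zero] at h1
    obtain ⟨h2, h3⟩ := h1
    subst h2
    rw [hPD] at h3
    have h4 := hfixed v (sub_eq_zero.1 h3)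
    rw [h4]
    rfl
  obtain ⟨S, hS, hSi⟩ := XLU.injOn_of_bij hΨs hTi hTs
  -- neighbourhoods
  have hcont : Tendsto (fun q : ℝ × M => (q.1, extChartAt (𝓡 m) p q.2)) (𝓝 (0, p)) (𝓝 (0, c)) := by
    have h1 : Tendsto (extChartAt (𝓡 m) p) (𝓝 p) (𝓝 c) :=
      (continuousAt_extChartAt (I := 𝓡 m) p).tendsto
    exact (continuous_fst.tendsto ((0 : ℝ), p)).prodMk_nhds
      (h1.comp (continuous_snd.tendsto ((0 : ℝ), p)))
  have h2 := hcont.eventually hS
  rw [nhds_prod_eq, Filter.eventually_prod_iff] at h2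
  obtain ⟨pa, hpa, pb, hpb, hab⟩ := h2
  obtain ⟨η, hη, hηp⟩ := Metric.eventually_nhds_iff.1 hpa
  refine ⟨{y | pb y} ∩ (extChartAt (𝓡 m) p).source,
    Filter.inter_mem hpb (extChartAt_source_mem_nhds (I := 𝓡 m) p), η, hη, ?_⟩
  intro t ht y hy y' hy' hfy hfy'
  have hta : pa t := hηp (by rw [Real.dist_eq, sub_zero]; exact ht)
  have key : ∀ z ∈ {y | pb y} ∩ (extChartAt (𝓡 m) p).source, (g.trans (h t))^[n] z = z →
      (t, extChartAt (𝓡 m) p z) ∈ S ∧ Ψ (t, extChartAt (𝓡 m) p z) = (t, 0) := by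
    intro z hz hfz
    refine ⟨hab hta hz.1, ?_⟩
    simp only [hΨ, hG]
    rw [inCharts_apply hz.2, hfz, sub_self]
  obtain ⟨ha, hb⟩ := key y hy hfy
  obtain ⟨ha', hb'⟩ := key y' hy' hfy'
  have h3 := hSi ha ha' (hb.trans hb'.symm)
  rw [Prod.mk.injEq] at h3
  exact (extChartAt (𝓡 m) p).injOn hy.2 hy'.2 h3.2

end Pool.Agent.OmegaDC
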