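import Pool.Agent.Work.MP_814647_an.DC.Stmts

/-!
# Item LUV: local uniqueness of loops on the leaves
-/

set_option autoImplicit false

open Set Filter Topology Function
open scoped Manifold ContDiff

noncomputable section

namespace Pool.Agent.OmegaDC

open Pool.Agent.OmegaStab (EE Dyn IsFam HypAt)
open Pool.Agent.OmegaFT (iv TopTorus Integral)

universe u

namespace XLUV

variable {m p q : ℕ}

/-- An integer vector of norm less than one is zero. -/
theorem iv_small (k : Fin m → ℤ) (h : ‖iv k‖ < 1) : iv k = 0 := by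
  have h1 : ∀ i, k i = 0 := by
    intro i
    have h2 : ‖(iv k) i‖ ≤ ‖iv k‖ := PiLp.norm_apply_le (iv k) i
    have h3 : (iv k) i = (k i : ℝ) := rfl
    rw [h3, Real.norm_eq_abs] at h2
    have h4 : |(k i : ℝ)| < 1 := lt_of_le_of_lt h2 h
    have h5 : |k i| < 1 := by exact_mod_cast h4
    exact Int.abs_lt_one_iff.mp h5
  ext i
  simp [iv, h1 i]

theorem ft_apply (D : Dat m p q) (F : EE m ≃ₜ EE m) (s : ℝ) (v : EE m) :
    D.Ft F s v = F v + s • D.c := rfl

/-- Iterates of `Φ s` are conjugate with those of `F + s c`. -/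
theorem semi_iter {D : Dat m p q} {F : EE m ≃ₜ EE m} {Γ Ψ Φ : ℝ → EE m → EE m} {K : ℝ}
    (hH : D.Hat F Γ Ψ Φ K) (s : ℝ) (j : ℕ) (w : EE m) :
    Γ s ((Φ s)^[j] w) = (D.Ft F s)^[j] (Γ s w) := by
  induction j with
  | zero => rfl
  | succ j ih => rw [iterate_succ_apply', iterate_succ_apply', hH.semi, ih]

/-- A loop of `Φ s` gives a periodic point of `g`, where `g (e w) = e (F w + s c)`. -/
theorem per_of_loop {D : Dat m p q} {F : EE m ≃ₜ EE m} {Γ Ψ Φ : ℝ → EE m → EE m} {K : ℝ}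
    (hH : D.Hat F Γ Ψ Φ K) {M : Type*} [TopologicalSpace M] {e : EE m → M} (he : TopTorus e)
    {g : M → M} {s : ℝ} (hg : ∀ w, g (e w) = e (F w + s • D.c)) {n : ℕ} {k : Fin m → ℤ} {w : EE m}
    (hl : Loop (Φ s) n k w) : g^[n] (e (Γ s w)) = e (Γ s w) := by
  have h1 : ∀ (j : ℕ) (z : EE m), g^[j] (e z) = e ((D.Ft F s)^[j] z) := by
    intro j
    induction j with
    | zero => intro z; rfl
    | succ j ih =>
      intro z
      rw [iterate_succ_apply', iterate_succ_apply', ih, hg, ft_apply]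
  rw [h1, ← semi_iter hH]
  have h2 : (Φ s)^[n] w = w + iv k := hl
  rw [h2, hH.pΓ]
  exact ((he.fibre _ _).2 ⟨k, rfl⟩).symm

end XLUV

open XLUV in
theorem prf_LUV (hLU : LU.{u}) : LUV.{u} := by
  intro m p q D F Γ Ψ Φ K M _ _ _ e r f h τ hr hD hH he hfam hte hfe hhyp t n k v ht hn hloop
  -- the maps `f.trans (h s)`
  have hg : ∀ (s : ℝ) (w : EE m), (f.trans (h s)) (e w) = e (F w + s • D.c) := by
    intro s w
    have : (f.trans (h s)) (e w) = h s (f (e w)) := rfl
    rw [this, hfe, hte]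
  have hx : ∀ (s : ℝ) (w : EE m), Loop (Φ s) n k w →
      (f.trans (h s))^[n] (e (Γ s w)) = e (Γ s w) :=
    fun s w hl => per_of_loop hH he (hg s) hl
  have hxt := hx t v hloop
  have hper : e (Γ t v) ∈ periodicPts (f.trans (h t)) :=
    mk_mem_periodicPts hn hxt
  obtain ⟨V, hV, η, hη, hU⟩ := hLU m M r h (f.trans (h t)) (e (Γ t v)) n hr hfam hn
    (hhyp t ht _ hper) hxt
  have hmap : ∀ s : ℝ, ∀ z : M, ((f.trans (h t)).trans (h (s - t))) z = (f.trans (h s)) z := by
    intro s z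
    obtain ⟨w, rfl⟩ := he.surj z
    have h1 : ((f.trans (h t)).trans (h (s - t))) (e w) = h (s - t) ((f.trans (h t)) (e w)) := rfl
    rw [h1, hg, hg, hte, add_assoc, ← add_smul]
    congr 3
    ring
  have hmap' : ∀ s : ℝ, (⇑((f.trans (h t)).trans (h (s - t))) : M → M) = ⇑(f.trans (h s)) :=
    fun s => funext (hmap s)
  -- continuity of `(s, x) ↦ e (Γ s (v + x c))`
  have hcont : Continuous fun q : ℝ × ℝ => e (Γ q.1 (v + q.2 • D.c)) := by
    have h1 : Continuous fun q : ℝ × ℝ => (q.1, v + q.2 • D.c) := by fun_prop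
    exact he.cont.comp (hH.cΓ.comp h1)
  have hmem : (fun q : ℝ × ℝ => e (Γ q.1 (v + q.2 • D.c))) ⁻¹' V ∈ 𝓝 (t, (0 : ℝ)) := by
    apply hcont.continuousAt.preimage_mem_nhds
    simpa using hV
  obtain ⟨η', hη', hball⟩ := Metric.mem_nhds_iff.1 hmem
  have hin : ∀ s x : ℝ, |s - t| < η' → |x| < η' → e (Γ s (v + x • D.c)) ∈ V := by
    intro s x hs hx'
    have : ((s, x) : ℝ × ℝ) ∈ Metric.ball (t, (0 : ℝ)) η' := by
      rw [Metric.mem_ball, Prod.dist_eq, max_lt_iff]
      constructor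
      · simpa [Real.dist_eq] using hs
      · simpa [Real.dist_eq] using hx'
    exact hball this
  have hc0 : 0 < ‖D.c‖ + 1 := by positivity
  refine ⟨min (min η η') (1 / (2 * (‖D.c‖ + 1))), lt_min (lt_min hη hη') (by positivity), ?_⟩
  intro s x y hs hx' hy hlx hly
  have hs1 : |s - t| < η := lt_of_lt_of_le hs ((min_le_left _ _).trans (min_le_left _ _))
  have hs2 : |s - t| < η' := lt_of_lt_of_le hs ((min_le_left _ _).trans (min_le_right _ _))
  have hx2 : |x| < η' := lt_of_lt_of_le hx' ((min_le_left _ _).trans (min_le_right _ _))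
  have hy2 : |y| < η' := lt_of_lt_of_le hy ((min_le_left _ _).trans (min_le_right _ _))
  have hx3 : |x| < 1 / (2 * (‖D.c‖ + 1)) := lt_of_lt_of_le hx' (min_le_right _ _)
  have hy3 : |y| < 1 / (2 * (‖D.c‖ + 1)) := lt_of_lt_of_le hy (min_le_right _ _)
  have heq : e (Γ s (v + x • D.c)) = e (Γ s (v + y • D.c)) := by
    refine hU (s - t) hs1 _ (hin s x hs2 hx2) _ (hin s y hs2 hy2) ?_ ?_
    · rw [hmap' s]; exact hx s _ hlx
    · rw [hmap' s]; exact hx s _ hly
  obtain ⟨k', hk'⟩ := (he.fibre _ _).1 heq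
  rw [← hH.pΓ] at hk'
  have h1 : v + y • D.c = v + x • D.c + iv k' := by
    have := congrArg (Ψ s) hk'
    rwa [hH.right, hH.right] at this
  have h2 : iv k' = (y - x) • D.c := by
    rw [sub_smul]
    have h3 : y • D.c = x • D.c + iv k' := by
      have : v + y • D.c = v + (x • D.c + iv k') := by rw [h1, add_assoc]
      exact add_left_cancel this
    rw [h3]; abel
  have h3 : ‖iv k'‖ < 1 := by
    rw [h2, norm_smul, Real.norm_eq_abs]
    have h4 : |y - x| ≤ |y| + |x| := abs_sub y x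
    have h5 : |y - x| < 1 / (‖D.c‖ + 1) := by
      have : 1 / (2 * (‖D.c‖ + 1)) + 1 / (2 * (‖D.c‖ + 1)) = 1 / (‖D.c‖ + 1) := by
        field_simp; ring
      linarith
    have h6 : |y - x| * (‖D.c‖ + 1) < 1 := by
      have := (lt_div_iff₀ hc0).1 h5
      simpa using this
    have h7 : 0 ≤ |y - x| := abs_nonneg _
    nlinarith [norm_nonneg D.c]
  have h4 : iv k' = 0 := iv_small k' h3
  have h5 : (y - x) • D.c = 0 := by rw [← h2, h4]
  have h6 : D.l ((y - x) • D.c) = 0 := by rw [h5, map_zero]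
  rw [map_smul, hD.lc, smul_eq_mul, mul_one] at h6
  linarith

end Pool.Agent.OmegaDC
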