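import Pool.Agent.Work.MP_814647_an.DC.Stmts

/-!
# The level function
-/

set_option autoImplicit false

open Set Filter Topology Function

namespace Pool.Agent.OmegaDC

namespace XLev

/-- the level function -/
theorem exT (G : ℝ → ℝ → ℝ) (hc : Continuous (uncurry G))
    (hi : ∀ t t' x, t ≤ t' → G t x + (t' - t) / 2 ≤ G t' x) (x : ℝ) : ∃ t, G t x = x := by
  have hcx : Continuous fun t => G t x := hc.comp (by fun_prop : Continuous fun t : ℝ => (t, x))
  set M := 2 * |G 0 x - x| with hM
  have hM0 : 0 ≤ M := by positivity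
  have h1 : x ≤ G M x := by
    have := hi 0 M x hM0
    have h2 : -|G 0 x - x| ≤ G 0 x - x := neg_abs_le _
    linarith
  have h2 : G (-M) x ≤ x := by
    have := hi (-M) 0 x (by linarith)
    have h2 : G 0 x - x ≤ |G 0 x - x| := le_abs_self _
    linarith
  obtain ⟨t, -, ht⟩ := intermediate_value_Icc (by linarith : -M ≤ M) hcx.continuousOn ⟨h2, h1⟩
  exact ⟨t, ht⟩

end XLev

theorem prf_Lev : Lev := by
  intro G τ hc hm hi hlu
  choose T hT using XLev.exT G hc hi
  have hst : ∀ t t' x, t < t' → G t x < G t' x := by
    intro t t' x h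
    have := hi t t' x h.le
    linarith
  -- the fixed points of `G t` are the points with level `t`
  have huniq : ∀ t x, G t x = x → T x = t := by
    intro t x h
    rcases lt_trichotomy (T x) t with h1 | h1 | h1
    · have := hst _ _ x h1
      rw [hT, h] at this
      exact absurd this (lt_irrefl _)
    · exact h1
    · have := hst _ _ x h1
      rw [hT, h] at this
      exact absurd this (lt_irrefl _)
  have hlt : ∀ t x, x < G t x → T x < t := by
    intro t x h
    by_contra h1
    push Not at h1
    have := hi _ _ x h1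
    rw [hT] at this
    linarith
  have hgt : ∀ t x, G t x < x → t < T x := by
    intro t x h
    by_contra h1
    push Not at h1
    have := hi _ _ x h1
    rw [hT] at this
    linarith
  have hTc : Continuous T := by
    rw [Metric.continuous_iff]
    intro x ε hε
    have hcy : ∀ t, Continuous fun y => G t y - y := fun t =>
      (hc.comp (by fun_prop : Continuous fun y : ℝ => (t, y))).sub continuous_id
    have h1 : ∀ᶠ y in 𝓝 x, 0 < G (T x + ε) y - y := by
      refine (hcy _).continuousAt.eventually (lt_mem_nhds ?_)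
      have := hst (T x) (T x + ε) x (by linarith)
      rw [hT] at this
      linarith
    have h2 : ∀ᶠ y in 𝓝 x, G (T x - ε) y - y < 0 := by
      refine (hcy _).continuousAt.eventually (gt_mem_nhds ?_)
      have := hst (T x - ε) (T x) x (by linarith)
      rw [hT] at this
      linarith
    obtain ⟨δ, hδ, h⟩ := Metric.eventually_nhds_iff.mp (h1.and h2)
    refine ⟨δ, hδ, fun y hy => ?_⟩
    obtain ⟨h3, h4⟩ := h hy
    have h5 := hlt _ _ (by linarith : y < G (T x + ε) y)
    have h6 := hgt _ _ (by linarith : G (T x - ε) y < y)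
    rw [Real.dist_eq, abs_lt]
    constructor <;> linarith
  have hTl : ∀ x y, x ≤ y → T y - T x ≤ 2 * (y - x) := by
    intro x y h
    rcases le_total (T y) (T x) with h1 | h1
    · linarith
    · have h2 := hi _ _ y h1
      rw [hT] at h2
      have h3 := (hm (T x)).monotone h
      rw [hT] at h3
      linarith
  -- both sides
  have key : ∀ x, |T x| < τ → ∀ ε > 0, ∃ e, 0 < e ∧ e ≤ ε ∧
      ((T (x - e) < T x ∧ T x < T (x + e)) ∨ (T (x + e) < T x ∧ T x < T (x - e))) := by
    intro x hx ε hε
    obtain ⟨η, hη, hu⟩ := hlu (T x) x hx (hT x)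
    obtain ⟨δ, hδ, hδ'⟩ := Metric.continuous_iff.mp hTc x η hη
    set e := min ε (min (η / 2) (δ / 2)) with he
    have he0 : 0 < e := lt_min hε (lt_min (by linarith) (by linarith))
    have he1 : e ≤ ε := min_le_left _ _
    have he2 : e ≤ η / 2 := (min_le_right _ _).trans (min_le_left _ _)
    have he3 : e ≤ δ / 2 := (min_le_right _ _).trans (min_le_right _ _)
    have hinj : InjOn T (Icc (x - e) (x + e)) := by
      intro y hy z hz hyz
      have hy' : |y - x| ≤ e := by
        rw [abs_le]
        constructor <;> linarith [hy.1, hy.2]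
      have hz' : |z - x| ≤ e := by
        rw [abs_le]
        constructor <;> linarith [hz.1, hz.2]
      refine hu (T y) y z ?_ (by linarith) (by linarith) (hT y) (by rw [hyz]; exact hT z)
      have := hδ' y (by rw [Real.dist_eq]; linarith)
      rwa [Real.dist_eq] at this
    have hle : x - e ≤ x + e := by linarith
    have m1 : x - e ∈ Icc (x - e) (x + e) := left_mem_Icc.mpr hle
    have m2 : x + e ∈ Icc (x - e) (x + e) := right_mem_Icc.mpr hle
    have m3 : x ∈ Icc (x - e) (x + e) := ⟨by linarith, by linarith⟩
    refine ⟨e, he0, he1, ?_⟩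
    rcases hTc.continuousOn.strictMonoOn_of_injOn_Icc' hle hinj with h | h
    · exact Or.inl ⟨h m1 m3 (by linarith), h m3 m2 (by linarith)⟩
    · exact Or.inr ⟨h m3 m2 (by linarith), h m1 m3 (by linarith)⟩
  constructor
  · intro t x ht hx ε hε
    have hTx := huniq t x hx
    obtain ⟨e, he0, he1, h⟩ := key x (by rw [hTx]; exact ht) ε hε
    have hle : x - e ≤ x + e := by linarith
    rcases h with ⟨h1, h2⟩ | ⟨h1, h2⟩
    · refine ⟨min (T x - T (x - e)) (T (x + e) - T x), lt_min (by linarith) (by linarith), ?_⟩
      intro s hs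
      have hs1 := hs.trans_le (min_le_left _ _)
      have hs2 := hs.trans_le (min_le_right _ _)
      rw [abs_lt] at hs1 hs2
      obtain ⟨y, hy, hys⟩ := intermediate_value_Icc hle hTc.continuousOn
        (⟨by linarith [hs1.1], by linarith [hs2.2]⟩ : s ∈ Icc (T (x - e)) (T (x + e)))
      refine ⟨y, ?_, by rw [← hys]; exact hT y⟩
      rw [abs_le]
      constructor <;> linarith [hy.1, hy.2]
    · refine ⟨min (T x - T (x + e)) (T (x - e) - T x), lt_min (by linarith) (by linarith), ?_⟩
      intro s hs
      have hs1 := hs.trans_le (min_le_left _ _)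
      have hs2 := hs.trans_le (min_le_right _ _)
      rw [abs_lt] at hs1 hs2
      obtain ⟨y, hy, hys⟩ := intermediate_value_Icc' hle hTc.continuousOn
        (⟨by linarith [hs1.1], by linarith [hs2.2]⟩ : s ∈ Icc (T (x + e)) (T (x - e)))
      refine ⟨y, ?_, by rw [← hys]; exact hT y⟩
      rw [abs_le]
      constructor <;> linarith [hy.1, hy.2]
  · intro t x y ht hx hy hxy
    have hTx := huniq t x hx
    have hTy := huniq t y hy
    by_contra hcon
    push Not at hcon
    have hsmall : ∀ z ∈ Icc x y, |T z| < τ := by
      intro z hz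
      have h1 := hTl x z hz.1
      have h2 := hTl z y hz.2
      have h3 : t ≤ |t| := le_abs_self t
      have h4 : -|t| ≤ t := neg_abs_le t
      rw [hTx] at h1
      rw [hTy] at h2
      rw [abs_lt]
      constructor <;> linarith [hz.1, hz.2]
    have hne : (Icc x y).Nonempty := nonempty_Icc.mpr hxy.le
    obtain ⟨z, hz, hzmax⟩ := isCompact_Icc.exists_isMaxOn hne hTc.continuousOn
    obtain ⟨w, hw, hwmin⟩ := isCompact_Icc.exists_isMinOn hne hTc.continuousOn
    have hzt : T z = t := by
      rcases eq_or_lt_of_le hz.1 with h | h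
      · rw [← h]
        exact hTx
      rcases eq_or_lt_of_le hz.2 with h' | h'
      · rw [h']
        exact hTy
      exfalso
      obtain ⟨e, he0, he1, hh⟩ := key z (hsmall z hz) (min (z - x) (y - z))
        (lt_min (by linarith) (by linarith))
      have he2 := he1.trans (min_le_left _ _)
      have he3 := he1.trans (min_le_right _ _)
      have a1 : T (z - e) ≤ T z := hzmax (⟨by linarith, by linarith⟩ : z - e ∈ Icc x y)
      have a2 : T (z + e) ≤ T z := hzmax (⟨by linarith, by linarith⟩ : z + e ∈ Icc x y)
      rcases hh with ⟨h1, h2⟩ | ⟨h1, h2⟩ <;> linarith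
    have hwt : T w = t := by
      rcases eq_or_lt_of_le hw.1 with h | h
      · rw [← h]
        exact hTx
      rcases eq_or_lt_of_le hw.2 with h' | h'
      · rw [h']
        exact hTy
      exfalso
      obtain ⟨e, he0, he1, hh⟩ := key w (hsmall w hw) (min (w - x) (y - w))
        (lt_min (by linarith) (by linarith))
      have he2 := he1.trans (min_le_left _ _)
      have he3 := he1.trans (min_le_right _ _)
      have a1 : T w ≤ T (w - e) := hwmin (⟨by linarith, by linarith⟩ : w - e ∈ Icc x y)
      have a2 : T w ≤ T (w + e) := hwmin (⟨by linarith, by linarith⟩ : w + e ∈ Icc x y)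
      rcases hh with ⟨h1, h2⟩ | ⟨h1, h2⟩ <;> linarith
    have hconst : ∀ u ∈ Icc x y, T u = t := by
      intro u hu
      have a1 : T u ≤ T z := hzmax hu
      have a2 : T w ≤ T u := hwmin hu
      linarith
    obtain ⟨e, he0, he1, hh⟩ := key ((x + y) / 2) (hsmall _ ⟨by linarith, by linarith⟩)
      ((y - x) / 2) (by linarith)
    have a1 := hconst ((x + y) / 2 - e) ⟨by linarith, by linarith⟩
    have a2 := hconst ((x + y) / 2) ⟨by linarith, by linarith⟩
    have a3 := hconst ((x + y) / 2 + e) ⟨by linarith, by linarith⟩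
    rcases hh with ⟨h1, h2⟩ | ⟨h1, h2⟩ <;> linarith

end Pool.Agent.OmegaDC
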