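import Pool.Agent.Work.MP_814647_an.DC.Stmts
import Pool.Agent.Work.MP_814647_an.FT.I_MatConv

/-!
# Item MkDat: from the hypothesis of the theorem to the data
-/

set_option autoImplicit false

open Set Filter Topology Function
open scoped Manifold ContDiff

noncomputable section

namespace Pool.Agent.OmegaDC

open Pool.Agent.OmegaStab (EE Dyn)
open Pool.Agent.OmegaFT (iv TopTorus Integral)
open Pool.Agent.OmegaStability (ClosedManifold CrDiffeo IsTorusProjection HasDominatedCentre
  linMap intVec CentreCoordinates)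

universe u

namespace XMkDat

/-- An integer matrix with an invertible determinant acts as an integral isomorphism. -/
theorem exists_equiv {m : ℕ} (A : Matrix (Fin m) (Fin m) ℤ) (hA : IsUnit A.det) :
    ∃ B : EE m ≃L[ℝ] EE m, (∀ v, linMap A v = B v) ∧ Integral B := by
  have e1 : A * A⁻¹ = 1 := Matrix.mul_nonsing_inv A hA
  have e2 : A⁻¹ * A = 1 := Matrix.nonsing_inv_mul A hA
  have r1 : A.map (Int.cast : ℤ → ℝ) * (A⁻¹).map (Int.cast : ℤ → ℝ) = 1 := by
    refine (Matrix.map_mul (L := A) (M := A⁻¹) (f := Int.castRingHom ℝ)).symm.trans ?_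
    rw [e1]
    exact Matrix.map_one _ (map_zero _) (map_one _)
  have r2 : (A⁻¹).map (Int.cast : ℤ → ℝ) * A.map (Int.cast : ℤ → ℝ) = 1 := by
    refine (Matrix.map_mul (L := A⁻¹) (M := A) (f := Int.castRingHom ℝ)).symm.trans ?_
    rw [e2]
    exact Matrix.map_one _ (map_zero _) (map_one _)
  refine ⟨(OmegaFT.XMatConv.eqv _ _ r1 r2).toContinuousLinearEquiv, ?_, ?_, ?_⟩
  · intro v
    ext i
    exact (OmegaFT.XMatConv.eqv_apply _ _ r1 r2 v i).symm
  · intro k
    refine ⟨fun i => ∑ j, A i j * k j, ?_⟩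
    ext i
    refine (OmegaFT.XMatConv.eqv_apply _ _ r1 r2 (iv k) i).trans ?_
    simp [iv]
  · intro k
    refine ⟨fun i => ∑ j, A⁻¹ i j * k j, ?_⟩
    ext i
    refine (OmegaFT.XMatConv.eqv_symm_apply _ _ r1 r2 (iv k) i).trans ?_
    simp [iv]

/-- The quotient of an isomorphism is an isomorphism. -/
theorem exists_quot {m p : ℕ} (S : EE m →ₗ[ℝ] EE p) (hS : Surjective S) (B : EE m ≃L[ℝ] EE m)
    (As : EE p →ₗ[ℝ] EE p) (h : ∀ v, S (B v) = As (S v)) :
    ∃ A' : EE p ≃L[ℝ] EE p, ∀ x, As x = A' x := by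
  have hs : Surjective As := by
    intro x
    obtain ⟨v, rfl⟩ := hS x
    exact ⟨S (B.symm v), by rw [← h, B.apply_symm_apply]⟩
  have hi : Injective As := LinearMap.injective_iff_surjective.2 hs
  exact ⟨(LinearEquiv.ofBijective As ⟨hi, hs⟩).toContinuousLinearEquiv, fun x => rfl⟩

end XMkDat

open XMkDat in
/-- Item MkDat. -/
theorem prf_MkDat : MkDat.{u} := by
  intro T r f e c he hc
  obtain ⟨A, p, q, X, F, hf, hF, a, b, μs, μu, δ, L, g, hg, hμ, hδ, hL, h1, h2, h3, hcon, hexp,
    hS, hU, hl, hlL⟩ := hc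
  obtain ⟨B, hB, hBi⟩ := exists_equiv A X.isUnit
  have sS : Surjective X.S := by
    intro x
    obtain ⟨v, hv⟩ := X.bijective.2 (x, 0, 0)
    exact ⟨v, congrArg Prod.fst hv⟩
  have sU : Surjective X.U := by
    intro x
    obtain ⟨v, hv⟩ := X.bijective.2 (0, 0, x)
    exact ⟨v, congrArg (fun z => z.2.2) hv⟩
  have mS : ∀ v, X.S (B v) = X.As (X.S v) := by
    intro v
    rw [← hB, X.S_map]
  have mU : ∀ v, X.U (B v) = X.Au (X.U v) := by
    intro v
    rw [← hB, X.U_map]
  obtain ⟨As, hAs⟩ := exists_quot X.S sS B X.As mS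
  obtain ⟨Au, hAu⟩ := exists_quot X.U sU B X.Au mU
  have hab : a ≤ b := by
    obtain ⟨k1, k2⟩ := hl 0 1 zero_le_one
    linarith
  refine ⟨p, q, ⟨X.S.toContinuousLinearMap, X.l.toContinuousLinearMap,
    X.U.toContinuousLinearMap, As, Au, B, c, a, b, μs, μu, δ, L, g⟩, F, ?_, ?_, rfl, hf, ?_,
    he.2.1⟩
  · exact
      { bij := X.bijective
        Sc := X.centre.1
        lc := X.centre.2.1
        Uc := X.centre.2.2
        SB := fun v => (mS v).trans (hAs _)
        UB := fun v => (mU v).trans (hAu _)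
        int := hBi
        con := fun x => by
          have := hcon x
          rwa [hAs] at this
        exp := fun z => by
          have := hexp z
          rwa [hAu] at this
        g_pos := hg
        μs_nn := hμ
        δ_nn := hδ
        L_nn := hL
        ab := hab
        h1 := h1
        h2 := h2
        h3 := h3 }
  · exact
      { eqv := fun v k => (hF v k).trans (congrArg (fun z => F v + z) (hB _))
        hS := hS
        hU := hU
        hl := hl
        hL := hlL }
  · exact ⟨he.2.1.contMDiff.continuous, he.2.1.isOpenMap, he.2.2.1, he.2.2.2⟩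

end Pool.Agent.OmegaDC
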