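import Pool.Agent.Work.MP_814647_an.DC.Stmts
import Pool.Agent.Work.MP_814647_an.TH.I_Near

/-!
# Item NearC: close conjugacies
-/

set_option autoImplicit false

open Set Filter Topology Function

noncomputable section

namespace Pool.Agent.OmegaDC

open Pool.Agent.OmegaStab (EE)
open Pool.Agent.OmegaFT (iv TopTorus)
open Pool.Agent.OmegaStability (Omega)

universe u

namespace XNearC

theorem semi {m : ℕ} {M : Type u} (e : EE m → M) (Φ : EE m → EE m) (G : M → M)
    (h : ∀ v, G (e v) = e (Φ v)) (n : ℕ) (v : EE m) : G^[n] (e v) = e (Φ^[n] v) := by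
  induction n generalizing v with
  | zero => rfl
  | succ n ih => rw [Function.iterate_succ_apply, Function.iterate_succ_apply, h, ih]

end XNearC

theorem prf_NearC : NearC.{u} := by
  intro m p q D Φ M _ _ e G he hG hC T ε hε
  obtain ⟨κ, hκ, hcl⟩ := hC T ε hε
  refine ⟨κ, hκ, ?_⟩
  intro f s s' h h' hf hs hss hh hh' hd n k v hn hl
  have hper : (G s)^[n] (e v) = e v := by
    rw [XNearC.semi e (Φ s) (G s) (hG s), hl]
    exact ((he.fibre v (v + iv k)).mpr ⟨k, rfl⟩).symm
  obtain ⟨x, hx⟩ := h.surjective ⟨e v, OmegaStability.TH.NearAux.periodic_mem hn hper⟩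
  have hxz : (h x : M) = e v := congrArg Subtype.val hx
  have hfx : f^[n] (x : M) = x := by
    rw [OmegaStability.TH.NearAux.per hf h hh n x, hxz]
    exact hper
  have hGk : (G s')^[n] (h' x : M) = h' x :=
    (OmegaStability.TH.NearAux.per hf h' hh' n x).mp hfx
  obtain ⟨y, hy, -, hy'⟩ := hcl s s' n k v (h' x) hs hss hn hl hGk (by
    intro j
    obtain ⟨h1, h2⟩ := OmegaStability.TH.NearAux.iter hf h hh j x
    obtain ⟨h3, h4⟩ := OmegaStability.TH.NearAux.iter hf h' hh' j x
    rw [← hxz, ← h2, ← h4]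
    exact hd ⟨f^[j] x, h1⟩)
  exact ⟨y, hy, hy'⟩

end Pool.Agent.OmegaDC
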