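import Pool.Agent.Work.MP_814647_an.DC.Stmts

/-!
# Item Orb2: the comparison lemma for two orbits
-/

set_option autoImplicit false

open Set Filter Topology Function
open scoped Manifold ContDiff

noncomputable section

namespace Pool.Agent.OmegaDC

open Pool.Agent.OmegaStab (EE)

namespace XOrb2

variable {m p q : ℕ}

theorem zorb_zero (G : EE m ≃ₜ EE m) (v : EE m) : zorb G v 0 = v := by
  simp [zorb]

theorem zorb_succ (G : EE m ≃ₜ EE m) (v : EE m) (j : ℤ) :
    zorb G v (j + 1) = G (zorb G v j) := by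
  unfold zorb
  rw [add_comm, zpow_one_add, Equiv.Perm.mul_apply]
  rfl

theorem g_le {D : Dat m p q} (hO : D.Ok) : D.g ≤ min D.a 1 := by
  have := hO.h1
  have := hO.μs_nn
  linarith

theorem a_pos {D : Dat m p q} (hO : D.Ok) : 0 < D.a :=
  lt_of_lt_of_le hO.g_pos ((g_le hO).trans (min_le_left _ _))

theorem one_le_wt {D : Dat m p q} (hO : D.Ok) (j : ℤ) : 1 ≤ D.wt j := by
  unfold Dat.wt
  have hg := hO.g_pos
  split_ifs with h
  · have hb : (1 : ℝ) ≤ max D.b 1 + D.g / 2 := by
      have := le_max_right D.b 1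
      linarith
    exact one_le_zpow₀ hb h
  · have h0 : (0 : ℝ) < min D.a 1 - D.g / 2 := by
      have := g_le hO
      linarith
    have h1 : min D.a 1 - D.g / 2 ≤ 1 := by
      have := min_le_right D.a 1
      linarith
    have h2 : (1 : ℝ) ≤ (min D.a 1 - D.g / 2)⁻¹ := (one_le_inv₀ h0).2 h1
    have h3 : (1 : ℝ) ≤ ((min D.a 1 - D.g / 2)⁻¹) ^ (-j) := one_le_zpow₀ h2 (by omega)
    rwa [inv_zpow, zpow_neg, inv_inv] at h3

theorem pp_nonneg (D : Dat m p q) (v : EE m) : 0 ≤ D.pp v :=
  (norm_nonneg _).trans (le_max_left _ _)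

/-- The fibre estimates for one step. -/
theorem fibre {D : Dat m p q} {F : EE m ≃ₜ EE m} (hO : D.Ok) (hF : D.Lift F) (v w : EE m) :
    D.a * |D.l (v - w)| - D.L * D.pp (v - w) ≤ |D.l (F v - F w)| ∧
      |D.l (F v - F w)| ≤ D.b * |D.l (v - w)| + D.L * D.pp (v - w) := by
  set s : ℝ := D.l (v - w) with hs
  set w' : EE m := w + s • D.c with hw'
  have hlw : D.l v = D.l w' := by
    rw [hw', map_add, map_smul, hO.lc, hs, map_sub, smul_eq_mul]
    ring
  have hSw : D.S (v - w') = D.S (v - w) := by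
    rw [hw', map_sub, map_sub, map_add, map_smul, hO.Sc, smul_zero, add_zero]
  have hUw : D.U (v - w') = D.U (v - w) := by
    rw [hw', map_sub, map_sub, map_add, map_smul, hO.Uc, smul_zero, add_zero]
  have hpp : D.pp (v - w') = D.pp (v - w) := by
    unfold Dat.pp
    rw [hSw, hUw]
  have h1 : |D.l (F v - F w')| ≤ D.L * D.pp (v - w) := by
    have := hF.hL v w' hlw
    rwa [hpp] at this
  have hsum : D.l (F v - F w) = D.l (F v - F w') + D.l (F w' - F w) := by
    rw [← map_add, sub_add_sub_cancel]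
  have ha := a_pos hO
  have h2 : D.a * |s| ≤ |D.l (F w' - F w)| ∧ |D.l (F w' - F w)| ≤ D.b * |s| := by
    rcases le_total 0 s with h | h
    · have h3 := hF.hl w s h
      rw [← hw'] at h3
      have h4 : 0 ≤ D.l (F w' - F w) := (mul_nonneg ha.le h).trans h3.1
      rw [abs_of_nonneg h, abs_of_nonneg h4]
      exact h3
    · have h3 := hF.hl w' (-s) (by linarith)
      have h5 : w' + (-s) • D.c = w := by
        rw [hw', neg_smul, add_neg_cancel_right]
      rw [h5] at h3
      have h6 : D.l (F w' - F w) = - D.l (F w - F w') := by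
        rw [← map_neg, neg_sub]
      have h4 : 0 ≤ D.l (F w - F w') := (mul_nonneg ha.le (by linarith)).trans h3.1
      rw [abs_of_nonpos h, h6, abs_neg, abs_of_nonneg h4]
      exact h3
  rw [hsum]
  constructor
  · have h7 := abs_sub_abs_le_abs_sub (D.l (F w' - F w)) (-(D.l (F v - F w')))
    rw [abs_neg, sub_neg_eq_add, add_comm (D.l (F w' - F w))] at h7
    linarith [h2.1]
  · have h7 := abs_add_le (D.l (F v - F w')) (D.l (F w' - F w))
    linarith [h2.2]

end XOrb2

open XOrb2 in
theorem prf_Orb2 (hCmp : Cmp) : Orb2 := by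
  intro m p q D F hO hF t t' K v w hK
  set x : ℤ → EE m := fun j => zorb (D.Ft F t) v j - zorb (D.Ft F t') w j with hx
  have hK0 : 0 ≤ K := (pp_nonneg D _).trans (hK 0)
  have hstep : ∀ j, x (j + 1) =
      (F (zorb (D.Ft F t) v j) - F (zorb (D.Ft F t') w j)) + (t - t') • D.c := by
    intro j
    have e1 : zorb (D.Ft F t) v (j + 1) = F (zorb (D.Ft F t) v j) + t • D.c := by
      rw [zorb_succ]
      rfl
    have e2 : zorb (D.Ft F t') w (j + 1) = F (zorb (D.Ft F t') w j) + t' • D.c := by
      rw [zorb_succ]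
      rfl
    simp only [hx]
    rw [e1, e2, sub_smul]
    abel
  have hU : ∀ j, D.U (x (j + 1)) =
      D.U (F (zorb (D.Ft F t) v j) - F (zorb (D.Ft F t') w j)) := by
    intro j
    rw [hstep, map_add, map_smul, hO.Uc, smul_zero, add_zero]
  have hS : ∀ j, D.S (x (j + 1)) =
      D.S (F (zorb (D.Ft F t) v j) - F (zorb (D.Ft F t') w j)) := by
    intro j
    rw [hstep, map_add, map_smul, hO.Sc, smul_zero, add_zero]
  have hl : ∀ j, D.l (x (j + 1)) =
      D.l (F (zorb (D.Ft F t) v j) - F (zorb (D.Ft F t') w j)) + (t - t') := by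
    intro j
    rw [hstep, map_add, map_smul, hO.lc, smul_eq_mul, mul_one]
  have key := hCmp m p q D hO x |t - t'| K (abs_nonneg _)
    (fun j => by
      rw [hU]
      exact hF.hU _ _)
    (fun j => by
      rw [hS]
      exact hF.hS _ _)
    (fun j => by
      rw [hl]
      have h1 := (fibre hO hF (zorb (D.Ft F t) v j) (zorb (D.Ft F t') w j)).1
      have h2 := abs_sub_abs_le_abs_sub
        (D.l (F (zorb (D.Ft F t) v j) - F (zorb (D.Ft F t') w j))) (-(t - t'))
      rw [abs_neg, sub_neg_eq_add] at h2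
      have h3 : x j = zorb (D.Ft F t) v j - zorb (D.Ft F t') w j := rfl
      rw [h3]
      linarith)
    (fun j => by
      rw [hl]
      have h1 := (fibre hO hF (zorb (D.Ft F t) v j) (zorb (D.Ft F t') w j)).2
      have h2 := abs_add_le
        (D.l (F (zorb (D.Ft F t) v j) - F (zorb (D.Ft F t') w j))) (t - t')
      have h3 : x j = zorb (D.Ft F t) v j - zorb (D.Ft F t') w j := rfl
      rw [h3]
      linarith)
    (fun j => by
      have h1 : D.pp (x j) ≤ K := hK j
      have h2 := one_le_wt hO j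
      calc D.pp (x j) ≤ K := h1
        _ = K * 1 := (mul_one K).symm
        _ ≤ K * D.wt j := mul_le_mul_of_nonneg_left h2 hK0)
  have h0 : x 0 = v - w := by
    simp only [hx, zorb_zero]
  rw [h0] at key
  exact key.1

end Pool.Agent.OmegaDC
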