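import Pool.Agent.Work.MP_814647_an.DC.Stmts

/-! # Item PeC: expansiveness on periodic points -/

set_option autoImplicit false

open Set Filter Topology Function
open scoped Manifold ContDiff

noncomputable section

namespace Pool.Agent.OmegaDC

open Pool.Agent.OmegaStab (EE Dyn IsFam HypAt)
open Pool.Agent.OmegaFT (iv TopTorus Integral)

universe u

/-- Expansiveness on the periodic points. -/
theorem prf_PeC : PeC.{u} := by
  intro m p q D Φ M _ _ e G t ρ he hsemi hclose hρ hsep
  obtain ⟨κ, hκ, h⟩ := hclose |t| (ρ / 2) (by positivity)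
  refine ⟨κ, hκ, ?_⟩
  intro n x z hn hx hz hd
  obtain ⟨v, rfl⟩ := he.surj x
  have hit : ∀ (j : ℕ) (w : EE m), (G t)^[j] (e w) = e ((Φ t)^[j] w) := by
    intro j
    induction j with
    | zero => intro w; rfl
    | succ j ih =>
      intro w
      rw [Function.iterate_succ_apply, Function.iterate_succ_apply, hsemi, ih]
  obtain ⟨k, hk⟩ : ∃ k : Fin m → ℤ, (Φ t)^[n] v = v + iv k := by
    have h1 : e v = e ((Φ t)^[n] v) := by rw [← hit, hx]
    exact (he.fibre _ _).1 h1
  have hx' : Function.IsPeriodicPt (G t) n (e v) := hx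
  have hz' : Function.IsPeriodicPt (G t) n z := hz
  have hall : ∀ j, dist ((G t)^[j] (e v)) ((G t)^[j] z) ≤ κ := by
    intro j
    rw [← hx'.iterate_mod_apply j, ← hz'.iterate_mod_apply j]
    exact hd _ (Nat.mod_lt _ hn)
  obtain ⟨y, hy, hzy, hl⟩ := h t t n k v z le_rfl (by simpa using hκ.le) hn hk hz hall
  have hy0 : y = 0 := hsep n k v y hn hk hl (by linarith)
  rw [hzy, hy0, zero_smul, add_zero]

end Pool.Agent.OmegaDC
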