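import Pool.Agent.Work.MP_814647_an.DC.Stmts

/-!
Item PsOm: periodic points are dense in the nonwandering set under periodic shadowing.
-/

set_option autoImplicit false

open Set Filter Topology Function

noncomputable section

namespace Pool.Agent.OmegaDC

open Pool.Agent.OmegaStability (Omega PeriodicShadowing)

universe u

namespace XPsOm

theorem isClosed_Omega {M : Type*} [TopologicalSpace M] (f : M → M) : IsClosed (Omega f) := by
  rw [← isOpen_compl_iff, isOpen_iff_mem_nhds]
  intro x hx
  have hx' : ¬ x ∈ Omega f := hx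
  unfold Omega at hx'
  simp only [Set.mem_ofPred_eq, not_forall] at hx'
  obtain ⟨U, hU, hno⟩ := hx'
  rw [mem_nhds_iff] at hU
  obtain ⟨V, hVU, hVo, hxV⟩ := hU
  filter_upwards [hVo.mem_nhds hxV] with y hy hyΩ
  apply hno
  obtain ⟨n, hn, hne⟩ := hyΩ V (hVo.mem_nhds hy)
  refine ⟨n, hn, hne.mono ?_⟩
  exact Set.inter_subset_inter (Set.image_mono hVU) hVU

theorem periodicPts_subset_Omega {M : Type*} [TopologicalSpace M] (f : M → M) :
    periodicPts f ⊆ Omega f := by
  rintro y ⟨n, hn, hy⟩ U hU
  have hy' : f^[n] y = y := hy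
  exact ⟨n, hn, y, ⟨y, mem_of_mem_nhds hU, hy'⟩, mem_of_mem_nhds hU⟩

theorem subset_closure {M : Type*} [MetricSpace M] (f : M → M) (h : PeriodicShadowing f) :
    Omega f ⊆ closure (periodicPts f) := by
  intro x hx
  rw [Metric.mem_closure_iff]
  intro ε hε
  obtain ⟨δ, hδ, hs⟩ := h (ε / 2) (by linarith)
  have hr : 0 < min (δ / 2) (ε / 2) := lt_min (by linarith) (by linarith)
  obtain ⟨n, hn, z, ⟨y, hy, rfl⟩, hz⟩ := hx (Metric.ball x (min (δ / 2) (ε / 2)))
    (Metric.ball_mem_nhds x hr)
  rw [Metric.mem_ball] at hy hz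
  have hy1 : dist y x < δ / 2 := lt_of_lt_of_le hy (min_le_left _ _)
  have hy2 : dist y x < ε / 2 := lt_of_lt_of_le hy (min_le_right _ _)
  have hz1 : dist (f^[n] y) x < δ / 2 := lt_of_lt_of_le hz (min_le_left _ _)
  obtain ⟨p, hp, hps⟩ := hs n (fun j => if j < n then f^[j] y else y) hn (by simp [hn]) (by
    intro j hj
    simp only [if_pos hj]
    rw [← iterate_succ_apply' f j y]
    by_cases hj1 : j + 1 < n
    · rw [if_pos hj1, dist_self]
      exact hδ
    · rw [if_neg hj1]
      have hjn : j.succ = n := by omega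
      rw [hjn]
      calc dist (f^[n] y) y ≤ dist (f^[n] y) x + dist x y := dist_triangle _ _ _
        _ < δ / 2 + δ / 2 := by
          rw [dist_comm x y]
          linarith
        _ = δ := by ring)
  have hp0 := hps 0 (Nat.zero_le n)
  simp only [if_pos hn, iterate_zero, id_eq] at hp0
  refine ⟨p, ⟨n, hn, hp⟩, ?_⟩
  calc dist x p ≤ dist x y + dist y p := dist_triangle _ _ _
    _ < ε / 2 + ε / 2 := by
      rw [dist_comm x y, dist_comm y p]
      linarith
    _ = ε := by ring

end XPsOm

theorem prf_PsOm : PsOm.{u} := by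
  intro M _ f h
  exact subset_antisymm (XPsOm.subset_closure f h)
    (closure_minimal (XPsOm.periodicPts_subset_Omega f) (XPsOm.isClosed_Omega f))

end Pool.Agent.OmegaDC
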