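import Pool.Agent.Work.MP_814647_an.DC.Stmts
import Pool.Agent.Work.MP_814647_an.FT.I_FibClosed

/-!
# Item ShaC: periodic shadowing at a stable parameter
-/

set_option autoImplicit false

open Set Filter Topology Function
open scoped Manifold ContDiff

noncomputable section

namespace Pool.Agent.OmegaDC

open Pool.Agent.OmegaStab (EE)
open Pool.Agent.OmegaFT (iv TopTorus Integral)
open Pool.Agent.OmegaStability (PeriodicShadowing)

universe u

namespace XShaC

variable {m p q : ℕ}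

open Pool.Agent.OmegaFT.XFibClosed (iv_neg iv_add e_add exists_rep e_unif e_lift)

/-- a short integer vector is zero -/
theorem iv_small (k : Fin m → ℤ) (h : ‖iv k‖ < 1) : iv k = 0 := by
  have hk : k = 0 := by
    funext i
    have h1 : ‖(iv k) i‖ ≤ ‖iv k‖ := PiLp.norm_apply_le (iv k) i
    have h2 : |(k i : ℝ)| < 1 := by
      have h3 : ‖(iv k) i‖ = |(k i : ℝ)| := by simp [iv]
      rw [← h3]
      exact h1.trans_lt h
    have h4 : |k i| < 1 := by
      exact_mod_cast h2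
    simpa using Int.abs_lt_one_iff.1 h4
  rw [hk]
  exact Pool.Agent.OmegaFT.XFibClosed.iv_zero

/-- uniform continuity of the lift -/
theorem phi_unif {M : Type*} [MetricSpace M] [CompactSpace M] {e : EE m → M} (he : TopTorus e)
    (f : EE m → EE m) (B : EE m → EE m) (hf : Continuous f)
    (hp : ∀ v k, f (v + iv k) = f v + B (iv k)) (ε : ℝ) (hε : 0 < ε) :
    ∃ δ > 0, ∀ v w : EE m, ‖v - w‖ ≤ δ → ‖f v - f w‖ ≤ ε := by
  obtain ⟨R, hR⟩ := exists_rep he
  have hK : IsCompact (Metric.closedBall (0 : EE m) (R + 1)) := isCompact_closedBall _ _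
  have hu := hK.uniformContinuousOn_of_continuous hf.continuousOn
  rw [Metric.uniformContinuousOn_iff] at hu
  obtain ⟨δ, hδ, h⟩ := hu ε hε
  refine ⟨min (δ / 2) 1, lt_min (by linarith) one_pos, fun v w hvw => ?_⟩
  obtain ⟨k, hk⟩ := hR w
  have h1 : ‖v - w‖ ≤ δ / 2 := hvw.trans (min_le_left _ _)
  have h2 : ‖v - w‖ ≤ 1 := hvw.trans (min_le_right _ _)
  have h3 : v + iv k = (w + iv k) + (v - w) := by abel
  have h4 := h (v + iv k) (by
    rw [mem_closedBall_zero_iff, h3]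
    exact (norm_add_le _ _).trans (by linarith)) (w + iv k) (by
    rw [mem_closedBall_zero_iff]
    linarith) (by
    rw [dist_eq_norm]
    have : v + iv k - (w + iv k) = v - w := by abel
    rw [this]
    linarith)
  rw [dist_eq_norm, hp, hp] at h4
  have h5 : f v + B (iv k) - (f w + B (iv k)) = f v - f w := by abel
  rw [h5] at h4
  exact h4.le

/-- vectors with the same hyperbolic coordinates are on the same leaf -/
theorem leaf {D : Dat m p q} (hok : D.Ok) {v w : EE m} (hS : D.S v = D.S w) (hU : D.U v = D.U w) :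
    v = w + (D.l v - D.l w) • D.c := by
  apply hok.bij.1
  simp only [map_add, map_smul, hok.Sc, hok.Uc, hok.lc, smul_zero, add_zero, hS, hU, smul_eq_mul,
    mul_one]
  congr 2
  ring

/-- the lifts of a pseudo-orbit -/
theorem lifts {M : Type*} [MetricSpace M] [CompactSpace M] {e : EE m → M} (he : TopTorus e)
    (f : EE m → EE m) (g : M → M) (hg : ∀ v, g (e v) = e (f v)) (r : ℝ) (hr : 0 < r) :
    ∃ δ > 0, ∀ x : ℕ → M, (∀ j, dist (g (x j)) (x (j + 1)) < δ) →
      ∃ v : ℕ → EE m, (∀ j, e (v j) = x j) ∧ ∀ j, ‖f (v j) - v (j + 1)‖ ≤ r := by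
  obtain ⟨δ, hδ, h⟩ := e_lift he r hr
  refine ⟨δ, hδ, fun x hx => ?_⟩
  have hstep : ∀ (j : ℕ) (v : {v : EE m // e v = x j}),
      ∃ w : {w : EE m // e w = x (j + 1)}, ‖f v.1 - w.1‖ ≤ r := by
    intro j v
    obtain ⟨a, ha⟩ := he.surj (x (j + 1))
    obtain ⟨k, hk⟩ := h a (f v.1) (by
      rw [ha, ← hg, v.2, dist_comm]
      exact (hx j).le)
    refine ⟨⟨a + iv k, by rw [e_add he, ha]⟩, ?_⟩
    rw [norm_sub_rev]
    exact hk
  choose nxt hnxt using hstep
  obtain ⟨a, ha⟩ := he.surj (x 0)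
  let V : (j : ℕ) → {v : EE m // e v = x j} := fun j => Nat.rec ⟨a, ha⟩ (fun j v => nxt j v) j
  refine ⟨fun j => (V j).1, fun j => (V j).2, fun j => ?_⟩
  exact hnxt j (V j)

/-- the periods of the lifts -/
theorem periods {M : Type*} [MetricSpace M] {e : EE m → M} (he : TopTorus e)
    (D : Dat m p q) (hok : D.Ok) (f : EE m → EE m)
    (hp : ∀ v k, f (v + iv k) = f v + D.B (iv k)) (r : ℝ) (hr : r ≤ 1 / 4) (n : ℕ)
    (v : ℕ → EE m) (hv : ∀ j, e (v (j + n)) = e (v j)) (hj : ∀ j, ‖f (v j) - v (j + 1)‖ ≤ r) :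
    ∃ κ : ℕ → Fin m → ℤ, (∀ j, v (j + n) = v j + iv (κ j)) ∧
      ∀ j, iv (κ (j + 1)) = D.B (iv (κ j)) := by
  have h1 : ∀ j, ∃ k : Fin m → ℤ, v (j + n) = v j + iv k := fun j =>
    (he.fibre _ _).1 (hv j).symm
  choose κ hκ using h1
  refine ⟨κ, hκ, fun j => ?_⟩
  obtain ⟨l, hl⟩ := hok.int.1 (κ j)
  have h2 := hj (j + n)
  have h3 := hj j
  have h4 : v (j + n + 1) = v (j + 1) + iv (κ (j + 1)) := by
    rw [← hκ (j + 1)]
    congr 1
    omega
  rw [h4, hκ j, hp] at h2
  have h5 : iv (κ (j + 1)) - D.B (iv (κ j))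
      = (f (v j) - v (j + 1)) - (f (v j) + D.B (iv (κ j)) - (v (j + 1) + iv (κ (j + 1)))) := by
    abel
  have h6 : ‖iv (κ (j + 1)) - D.B (iv (κ j))‖ < 1 := by
    rw [h5]
    refine (norm_sub_le _ _).trans_lt ?_
    linarith
  have h7 : iv (κ (j + 1)) - D.B (iv (κ j)) = iv (κ (j + 1) - l) := by
    rw [hl, sub_eq_add_neg (κ (j + 1)) l, iv_add, iv_neg, sub_eq_add_neg]
  rw [h7] at h6
  have h8 := iv_small _ h6
  rw [← h7] at h8
  exact sub_eq_zero.1 h8

end XShaC

open XShaC in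
open Pool.Agent.OmegaFT.XFibClosed in
theorem prf_ShaC (hSu : SuC) (hClos : Clos) : ShaC.{u} := by
  intro m p q D Φ M _ _ e G t ρ hok hsk he hG hst hρ hsep ε hε
  obtain ⟨C, hC, hSu'⟩ := hSu m p q D hok
  have hf : Continuous (Φ t) := hsk.cont.comp (by fun_prop : Continuous fun v => (t, v))
  have hper : ∀ v k, Φ t (v + iv k) = Φ t v + D.B (iv k) := fun v k => hsk.per t v k
  -- constants
  obtain ⟨om, hom, hom'⟩ := e_unif he (ε / 2) (by linarith)
  set Λ : ℝ := ‖D.l‖ + 1 with hΛ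
  have hΛ0 : 0 < Λ := by
    have := norm_nonneg D.l
    linarith
  have hlΛ : ∀ v : EE m, |D.l v| ≤ Λ * ‖v‖ := fun v => by
    have h1 := D.l.le_opNorm v
    rw [Real.norm_eq_abs] at h1
    have h2 := norm_nonneg v
    nlinarith
  obtain ⟨d₁, hd₁, hΦ₁⟩ := phi_unif he (Φ t) D.B hf hper (ρ / (4 * Λ)) (by positivity)
  set c₀ : ℝ := ‖D.c‖ + 1 with hc₀
  have hc₀0 : 0 < c₀ := by
    have := norm_nonneg D.c
    linarith
  set ε₁ : ℝ := min (ρ / 4) (min (d₁ / c₀) (om / (2 * c₀))) with hε₁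
  have hε₁0 : 0 < ε₁ := by
    refine lt_min (by linarith) (lt_min (by positivity) (by positivity))
  have hε₁a : ε₁ ≤ ρ / 4 := min_le_left _ _
  have hε₁b : ε₁ * c₀ ≤ d₁ := by
    have h1 : ε₁ ≤ d₁ / c₀ := (min_le_right _ _).trans (min_le_left _ _)
    rwa [le_div_iff₀ hc₀0] at h1
  have hε₁c : ε₁ * c₀ ≤ om / 2 := by
    have h1 : ε₁ ≤ om / (2 * c₀) := (min_le_right _ _).trans (min_le_right _ _)
    rw [le_div_iff₀ (by positivity)] at h1
    linarith
  obtain ⟨η, hη, hst'⟩ := hst ε₁ hε₁0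
  set r' : ℝ := min (η / 4) (ρ / 4) with hr'
  have hr'0 : 0 < r' := lt_min (by linarith) (by linarith)
  have hr'a : r' ≤ η / 4 := min_le_left _ _
  have hr'b : r' ≤ ρ / 4 := min_le_right _ _
  obtain ⟨d₂, hd₂, hΦ₂⟩ := phi_unif he (Φ t) D.B hf hper (r' / (2 * Λ)) (by positivity)
  set s₀ : ℝ := ‖D.S‖ + ‖D.U‖ + 1 with hs₀
  have hs₀0 : 0 < s₀ := by
    have h1 := norm_nonneg D.S
    have h2 := norm_nonneg D.U
    linarith
  set r : ℝ := min (1 / 4) (min (r' / (2 * Λ)) (min (d₂ / (C * s₀)) (om / (2 * (C * s₀))))) with hr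
  have hr0 : 0 < r :=
    lt_min (by norm_num) (lt_min (by positivity) (lt_min (by positivity) (by positivity)))
  have hra : r ≤ 1 / 4 := min_le_left _ _
  have hrb : r ≤ r' / (2 * Λ) := (min_le_right _ _).trans (min_le_left _ _)
  have hrc : C * (s₀ * r) ≤ d₂ := by
    have h1 : r ≤ d₂ / (C * s₀) :=
      (min_le_right _ _).trans ((min_le_right _ _).trans (min_le_left _ _))
    rw [le_div_iff₀ (by positivity)] at h1
    linarith
  have hrd : C * (s₀ * r) ≤ om / 2 := by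
    have h1 : r ≤ om / (2 * (C * s₀)) :=
      (min_le_right _ _).trans ((min_le_right _ _).trans (min_le_right _ _))
    rw [le_div_iff₀ (by positivity)] at h1
    linarith
  obtain ⟨δ, hδ, hlift⟩ := lifts he (Φ t) (G t) (fun v => hG t v) r hr0
  refine ⟨δ, hδ, fun n x hn hxn hx => ?_⟩
  -- the periodic extension
  set X : ℕ → M := fun j => x (j % n) with hX
  have hXx : ∀ j ≤ n, X j = x j := by
    intro j hj
    rcases hj.eq_or_lt with h | h
    · simp only [hX]
      rw [h, Nat.mod_self, hxn]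
    · simp only [hX]
      rw [Nat.mod_eq_of_lt h]
  have hXn : ∀ j, X (j + n) = X j := fun j => by
    simp only [hX, Nat.add_mod_right]
  have hXj : ∀ j, dist (G t (X j)) (X (j + 1)) < δ := by
    intro j
    have h1 : X j = X (j % n) := by
      simp only [hX, Nat.mod_mod]
    have h2 : X (j + 1) = X (j % n + 1) := by
      simp only [hX]
      rw [Nat.add_mod j 1 n, Nat.add_mod (j % n) 1 n, Nat.mod_mod]
    have h3 : j % n < n := Nat.mod_lt _ hn
    rw [h1, h2, hXx _ h3.le, hXx _ h3]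
    exact hx _ h3
  obtain ⟨v, hve, hvj⟩ := hlift X hXj
  obtain ⟨κ, hκ, hκB⟩ := periods he D hok (Φ t) hper r hra n v
    (fun j => by rw [hve, hve, hXn]) hvj
  obtain ⟨w, hwn, hwv, hwSU⟩ := hSu' n κ v (s₀ * r) hn hκ hκB (fun j => by
    have h1 : D.S (v (j + 1)) - D.As (D.S (v j)) = D.S (v (j + 1) - Φ t (v j)) := by
      rw [map_sub, hsk.S]
    have h2 : D.U (v (j + 1)) - D.Au (D.U (v j)) = D.U (v (j + 1) - Φ t (v j)) := by
      rw [map_sub, hsk.U]
    have h3 : ‖v (j + 1) - Φ t (v j)‖ ≤ r := by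
      rw [norm_sub_rev]
      exact hvj j
    rw [h1, h2]
    have hS0 := norm_nonneg D.S
    have hU0 := norm_nonneg D.U
    constructor
    · refine (D.S.le_opNorm _).trans ?_
      have h4 : ‖D.S‖ * ‖v (j + 1) - Φ t (v j)‖ ≤ ‖D.S‖ * r := mul_le_mul_of_nonneg_left h3 hS0
      nlinarith
    · refine (D.U.le_opNorm _).trans ?_
      have h4 : ‖D.U‖ * ‖v (j + 1) - Φ t (v j)‖ ≤ ‖D.U‖ * r := mul_le_mul_of_nonneg_left h3 hU0
      nlinarith)
  -- the jumps of `w`
  have hjump : ∀ j, ∃ y : ℝ, |y| ≤ r' ∧ Φ t (w j) = w (j + 1) + y • D.c := by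
    intro j
    refine ⟨D.l (Φ t (w j)) - D.l (w (j + 1)), ?_, ?_⟩
    · have h1 : D.l (Φ t (w j)) - D.l (w (j + 1))
          = D.l (Φ t (w j) - Φ t (v j)) + D.l (Φ t (v j) - v (j + 1)) := by
        rw [map_sub, map_sub, (hwv (j + 1)).2]
        ring
      have h2 : ‖Φ t (w j) - Φ t (v j)‖ ≤ r' / (2 * Λ) := hΦ₂ _ _ ((hwv j).1.trans hrc)
      have h3 : ‖Φ t (v j) - v (j + 1)‖ ≤ r' / (2 * Λ) := (hvj j).trans hrb
      have h4 : Λ * (r' / (2 * Λ)) = r' / 2 := by
        field_simp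
      have h5 : |D.l (Φ t (w j) - Φ t (v j))| ≤ r' / 2 := by
        refine (hlΛ _).trans ?_
        rw [← h4]
        exact mul_le_mul_of_nonneg_left h2 hΛ0.le
      have h6 : |D.l (Φ t (v j) - v (j + 1))| ≤ r' / 2 := by
        refine (hlΛ _).trans ?_
        rw [← h4]
        exact mul_le_mul_of_nonneg_left h3 hΛ0.le
      rw [h1]
      refine (abs_add_le _ _).trans ?_
      linarith
    · refine leaf hok ?_ ?_
      · rw [hsk.S, (hwSU j).1]
      · rw [hsk.U, (hwSU j).2]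
  -- the loops of `Φ t`
  have hloop : ∀ i, ∃ y : ℝ, |y| ≤ ε₁ ∧ Loop (Φ t) n (κ i) (w i + y • D.c) := by
    intro i
    obtain ⟨s, hs, hls⟩ := hClos m p q D Φ hok hsk t r' n (κ i) (fun j => w (i + j)) hn hr'0.le
      (by rw [hwn, add_zero]) (fun j _ => hjump (i + j))
    have hls' : Loop (Φ s) n (κ i) (w i) := hls
    exact hst' s (by linarith) n (κ i) (w i) hn hls'
  choose y hy hyl using hloop
  set z : ℕ → EE m := fun i => w i + y i • D.c with hz
  have hzw : ∀ i, ‖z i - w i‖ ≤ ε₁ * c₀ := by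
    intro i
    have h1 : z i - w i = y i • D.c := by
      simp only [hz]
      abel
    rw [h1, norm_smul, Real.norm_eq_abs]
    have h2 := norm_nonneg D.c
    have h3 : |y i| * ‖D.c‖ ≤ ε₁ * ‖D.c‖ := mul_le_mul_of_nonneg_right (hy i) h2
    nlinarith
  have hzS : ∀ i, D.S (z i) = D.S (w i) := fun i => by
    simp only [hz, map_add, map_smul, hok.Sc, smul_zero, add_zero]
  have hzU : ∀ i, D.U (z i) = D.U (w i) := fun i => by
    simp only [hz, map_add, map_smul, hok.Uc, smul_zero, add_zero]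
  have hzl : ∀ i, D.l (z i) = D.l (w i) + y i := fun i => by
    simp only [hz, map_add, map_smul, hok.lc, smul_eq_mul, mul_one]
  -- `z` is an orbit
  have horb : ∀ i, Φ t (z i) = z (i + 1) := by
    intro i
    have hL1 : Loop (Φ t) n (κ (i + 1)) (Φ t (z i)) := by
      have h1 : (Φ t)^[n] (z i) = z i + iv (κ i) := hyl i
      change (Φ t)^[n] (Φ t (z i)) = Φ t (z i) + iv (κ (i + 1))
      rw [← Function.iterate_succ_apply, Function.iterate_succ_apply', h1, hper, hκB]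
    have hL2 : Loop (Φ t) n (κ (i + 1)) (z (i + 1)) := hyl (i + 1)
    have hleaf : Φ t (z i) = z (i + 1) + (D.l (Φ t (z i)) - D.l (z (i + 1))) • D.c := by
      refine leaf hok ?_ ?_
      · rw [hsk.S, hzS, hzS, (hwSU i).1]
      · rw [hsk.U, hzU, hzU, (hwSU i).2]
    have hsmall : |D.l (Φ t (z i)) - D.l (z (i + 1))| < ρ := by
      obtain ⟨y', hy', hyw⟩ := hjump i
      have h1 : D.l (Φ t (z i)) - D.l (z (i + 1))
          = D.l (Φ t (z i) - Φ t (w i)) + (y' - y (i + 1)) := by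
        rw [hzl, map_sub, hyw, map_add, map_smul, hok.lc, smul_eq_mul, mul_one]
        ring
      have h2 : ‖Φ t (z i) - Φ t (w i)‖ ≤ ρ / (4 * Λ) := hΦ₁ _ _ ((hzw i).trans hε₁b)
      have h4 : Λ * (ρ / (4 * Λ)) = ρ / 4 := by
        field_simp
      have h5 : |D.l (Φ t (z i) - Φ t (w i))| ≤ ρ / 4 := by
        refine (hlΛ _).trans ?_
        rw [← h4]
        exact mul_le_mul_of_nonneg_left h2 hΛ0.le
      have h6 := abs_le.1 h5
      have h7 := abs_le.1 hy'
      have h8 := abs_le.1 (hy (i + 1))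
      rw [h1, abs_lt]
      constructor <;> linarith [h6.1, h6.2, h7.1, h7.2, h8.1, h8.2]
    have h0 := hsep n (κ (i + 1)) (z (i + 1)) _ hn hL2 (by rw [← hleaf]; exact hL1) hsmall
    rw [hleaf, h0, zero_smul, add_zero]
  have hit : ∀ j, (Φ t)^[j] (z 0) = z j := by
    intro j
    induction j with
    | zero => rfl
    | succ j ih => rw [Function.iterate_succ_apply', ih, horb]
  have hGit : ∀ (j : ℕ) (a : EE m), (G t)^[j] (e a) = e ((Φ t)^[j] a) := by
    intro j a
    induction j with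
    | zero => rfl
    | succ j ih => rw [Function.iterate_succ_apply', ih, hG, Function.iterate_succ_apply']
  refine ⟨e (z 0), ?_, fun j hj => ?_⟩
  · have h1 : (Φ t)^[n] (z 0) = z 0 + iv (κ 0) := hyl 0
    rw [hGit, h1, e_add he]
  · rw [hGit, hit, ← hXx j hj, ← hve]
    have h1 : z j = v j + (z j - v j) := by abel
    have h2 : ‖z j - v j‖ ≤ om := by
      have h3 : z j - v j = (z j - w j) + (w j - v j) := by abel
      rw [h3]
      refine (norm_add_le _ _).trans ?_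
      have h4 := hzw j
      have h5 := (hwv j).1
      linarith
    rw [h1]
    exact (hom' _ _ h2).trans_lt (by linarith)

end Pool.Agent.OmegaDC
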