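import Pool.Agent.Work.MP_814647_an.DC.Stmts

/-!
# Item SprC: spreading
-/

set_option autoImplicit false

open Set Filter Topology Function

noncomputable section

namespace Pool.Agent.OmegaDC

open Pool.Agent.OmegaStab (EE)
open Pool.Agent.OmegaFT (iv TopTorus Integral)

namespace XSprC

lemma iter_cont {M : Type*} [TopologicalSpace M] (F : ℝ → M → M)
    (hF : Continuous (uncurry F)) (n : ℕ) :
    Continuous (fun p : ℝ × M => (F p.1)^[n] p.2) := by
  induction n with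
  | zero => exact continuous_snd
  | succ n ih =>
    have h : (fun p : ℝ × M => (F p.1)^[n + 1] p.2) =
        fun p : ℝ × M => F p.1 ((F p.1)^[n] p.2) := by
      funext p
      exact Function.iterate_succ_apply' _ _ _
    rw [h]
    exact hF.comp (continuous_fst.prodMk ih)

lemma near_point (S : Set ℝ) (t : ℝ) (ht : t ∈ closure S) (δ : ℝ) (hδ : 0 < δ) :
    ∃ s ∈ S, |s - t| < δ := by
  obtain ⟨s, hs, h⟩ := Metric.mem_closure_iff.1 ht δ hδ
  refine ⟨s, hs, ?_⟩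
  rw [dist_comm, Real.dist_eq] at h
  exact h

end XSprC

open Dat in
theorem prf_SprC : SprC := by
  intro m p q D Φ τ a b ε S hΦ hcont ha hb hS hcl hε hfol s hs t ht n k v hn hv
  have hsτ : |s| < τ := abs_lt.mpr ⟨by linarith [hs.1], by linarith [hs.2]⟩
  obtain ⟨η, hη, h1⟩ := hcont s n k v hsτ hn hv ε hε
  obtain ⟨s₁, hs₁, hd⟩ := XSprC.near_point S s (hcl hs) η hη
  obtain ⟨y₁, hy₁, hl₁⟩ := h1 s₁ hd
  have h2 : ∀ i : ℕ, ∃ r : ℝ, |r - t| < 1 / ((i : ℝ) + 1) ∧ ∃ y : ℝ, |y| ≤ ε ∧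
      Loop (Φ r) n k (v + y₁ • D.c + y • D.c) := by
    intro i
    obtain ⟨r, hr, hrt⟩ := XSprC.near_point S t (hcl ht) (1 / ((i : ℝ) + 1))
      Nat.one_div_pos_of_nat
    obtain ⟨y, hy⟩ := hfol s₁ hs₁ r hr n k (v + y₁ • D.c) hn hl₁
    exact ⟨r, hrt, y, hy⟩
  choose r hr y hy hly using h2
  obtain ⟨z, hz, φ, hφ, hlim⟩ := isCompact_Icc.tendsto_subseq (s := Icc (-ε) ε)
    (fun i => abs_le.mp (hy i))
  have hrt : Tendsto r atTop (𝓝 t) := by
    rw [tendsto_iff_dist_tendsto_zero]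
    refine squeeze_zero (fun _ => dist_nonneg) (fun i => ?_)
      tendsto_one_div_add_atTop_nhds_zero_nat
    rw [Real.dist_eq]
    exact (hr i).le
  have hrφ : Tendsto (fun i => r (φ i)) atTop (𝓝 t) := hrt.comp hφ.tendsto_atTop
  have hvy : Tendsto (fun i => v + y₁ • D.c + y (φ i) • D.c) atTop
      (𝓝 (v + y₁ • D.c + z • D.c)) :=
    tendsto_const_nhds.add (hlim.smul_const _)
  have hc : Tendsto (fun i => (Φ (r (φ i)))^[n] (v + y₁ • D.c + y (φ i) • D.c)) atTop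
      (𝓝 ((Φ t)^[n] (v + y₁ • D.c + z • D.c))) :=
    ((XSprC.iter_cont Φ hΦ.cont n).tendsto (t, v + y₁ • D.c + z • D.c)).comp
      (hrφ.prodMk_nhds hvy)
  have hc2 : Tendsto (fun i => (Φ (r (φ i)))^[n] (v + y₁ • D.c + y (φ i) • D.c)) atTop
      (𝓝 (v + y₁ • D.c + z • D.c + iv k)) := by
    refine (hvy.add_const (iv k)).congr fun i => ?_
    exact (hly (φ i)).symm
  have hloop : (Φ t)^[n] (v + y₁ • D.c + z • D.c) = v + y₁ • D.c + z • D.c + iv k :=
    tendsto_nhds_unique hc hc2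
  refine ⟨y₁ + z, ?_, ?_⟩
  · have h3 := abs_add_le y₁ z
    have h4 : |z| ≤ ε := abs_le.mpr hz
    linarith
  · have h5 : v + (y₁ + z) • D.c = v + y₁ • D.c + z • D.c := by
      rw [add_smul, ← add_assoc]
    rw [Loop, h5]
    exact hloop

end Pool.Agent.OmegaDC
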