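import Pool.Agent.Work.MP_814647_an.DC.Stmts

/-!
# Item SuC: correction of the hyperbolic coordinates
-/

set_option autoImplicit false

open Set Filter Topology Function

noncomputable section

namespace Pool.Agent.OmegaDC

open Pool.Agent.OmegaStab (EE)
open Pool.Agent.OmegaFT (iv TopTorus Integral)

namespace XSuC

variable {k : ℕ}

/-- The sequence with `τ 0 = s`, `τ (j + 1) = A (τ j) - r j`. -/
def tau (A : EE k →L[ℝ] EE k) (r : ℕ → EE k) (s : EE k) : ℕ → EE k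
  | 0 => s
  | j + 1 => A (tau A r s j) - r j

theorem tau_affine (A : EE k →L[ℝ] EE k) (r : ℕ → EE k) (s : EE k) (j : ℕ) :
    tau A r s j = (A ^ j) s + tau A r 0 j := by
  induction j with
  | zero => simp [tau]
  | succ j ih =>
    simp only [tau]
    have h1 : (A ^ (j + 1)) s = A ((A ^ j) s) := by rw [pow_succ']; rfl
    rw [ih, map_add, h1]
    abel

/-- Periodic solutions of the affine equation, if no power of `A` has the eigenvalue one. -/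
theorem periodic_solution (A : EE k →L[ℝ] EE k) (n : ℕ)
    (hinj : ∀ s : EE k, (A ^ n) s = s → s = 0) (r : ℕ → EE k) (hr : ∀ j, r (j + n) = r j) :
    ∃ σ : ℕ → EE k, (∀ j, σ (j + n) = σ j) ∧ ∀ j, σ (j + 1) = A (σ j) - r j := by
  have hsurj : Surjective (((A ^ n) - 1 : EE k →L[ℝ] EE k) : EE k →ₗ[ℝ] EE k) := by
    apply LinearMap.surjective_of_injective
    rw [injective_iff_map_eq_zero]
    intro s hs
    apply hinj
    have : (A ^ n) s - s = 0 := hs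
    exact sub_eq_zero.mp this
  obtain ⟨s, hs⟩ := hsurj (-(tau A r 0 n))
  have hs' : (A ^ n) s - s = -(tau A r 0 n) := hs
  have hn : tau A r s n = s := by
    rw [tau_affine]
    have : (A ^ n) s = s - tau A r 0 n := by
      rw [sub_eq_iff_eq_add] at hs'
      rw [hs']; abel
    rw [this]; abel
  refine ⟨tau A r s, ?_, fun j => rfl⟩
  intro j
  induction j with
  | zero => rw [zero_add, hn]; rfl
  | succ j ih =>
    have : j + 1 + n = (j + n) + 1 := by ring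
    rw [this]
    change A (tau A r s (j + n)) - r (j + n) = A (tau A r s j) - r j
    rw [ih, hr]

/-- A periodic sequence has an element of maximal norm. -/
theorem exists_max (n : ℕ) (hn : 0 < n) (σ : ℕ → EE k) (h : ∀ j, σ (j + n) = σ j) :
    ∃ j₀, ∀ j, ‖σ j‖ ≤ ‖σ j₀‖ := by
  obtain ⟨j₀, _, h₀⟩ := Finset.exists_max_image (Finset.range n) (fun j => ‖σ j‖)
    ⟨0, Finset.mem_range.mpr hn⟩
  refine ⟨j₀, fun j => ?_⟩
  have hper : Function.Periodic σ n := h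
  rw [← hper.map_mod_nat j]
  exact h₀ _ (Finset.mem_range.mpr (Nat.mod_lt _ hn))

theorem pow_contr (A : EE k →L[ℝ] EE k) (μ : ℝ) (hμ : 0 ≤ μ) (h : ∀ x, ‖A x‖ ≤ μ * ‖x‖)
    (n : ℕ) (x : EE k) : ‖(A ^ n) x‖ ≤ μ ^ n * ‖x‖ := by
  induction n with
  | zero => simp
  | succ n ih =>
    have h1 : (A ^ (n + 1)) x = A ((A ^ n) x) := by rw [pow_succ']; rfl
    rw [h1]
    calc ‖A ((A ^ n) x)‖ ≤ μ * ‖(A ^ n) x‖ := h _
      _ ≤ μ * (μ ^ n * ‖x‖) := mul_le_mul_of_nonneg_left ih hμ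
      _ = μ ^ (n + 1) * ‖x‖ := by ring

theorem pow_exp (A : EE k →L[ℝ] EE k) (μ : ℝ) (hμ : 0 ≤ μ) (h : ∀ x, μ * ‖x‖ ≤ ‖A x‖)
    (n : ℕ) (x : EE k) : μ ^ n * ‖x‖ ≤ ‖(A ^ n) x‖ := by
  induction n with
  | zero => simp
  | succ n ih =>
    have h1 : (A ^ (n + 1)) x = A ((A ^ n) x) := by rw [pow_succ']; rfl
    rw [h1]
    calc μ ^ (n + 1) * ‖x‖ = μ * (μ ^ n * ‖x‖) := by ring
      _ ≤ μ * ‖(A ^ n) x‖ := mul_le_mul_of_nonneg_left ih hμ
      _ ≤ _ := h _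

/-- The contracting case. -/
theorem contracting (A : EE k →L[ℝ] EE k) (μ g : ℝ) (hμ : 0 ≤ μ) (hg : 0 < g) (hμg : μ + g ≤ 1)
    (h : ∀ x, ‖A x‖ ≤ μ * ‖x‖) (n : ℕ) (hn : 0 < n) (r : ℕ → EE k) (hr : ∀ j, r (j + n) = r j)
    (R : ℝ) (hR : ∀ j, ‖r j‖ ≤ R) :
    ∃ σ : ℕ → EE k, (∀ j, σ (j + n) = σ j) ∧ (∀ j, σ (j + 1) = A (σ j) - r j) ∧
      ∀ j, ‖σ j‖ ≤ R / g := by
  have hμ1 : μ < 1 := by linarith
  have hinj : ∀ s : EE k, (A ^ n) s = s → s = 0 := by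
    intro s hs
    have h1 := pow_contr A μ hμ h n s
    rw [hs] at h1
    have h2 : μ ^ n < 1 := pow_lt_one₀ hμ hμ1 hn.ne'
    have h3 : 0 ≤ ‖s‖ := norm_nonneg s
    have h4 : ‖s‖ = 0 := by nlinarith
    exact norm_eq_zero.mp h4
  obtain ⟨σ, hσ, hσ'⟩ := periodic_solution A n hinj r hr
  obtain ⟨j₀, h₀⟩ := exists_max n hn σ hσ
  refine ⟨σ, hσ, hσ', fun j => (h₀ j).trans ?_⟩
  rw [le_div_iff₀ hg]
  obtain ⟨n', rfl⟩ : ∃ n', n = n' + 1 := ⟨n - 1, by omega⟩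
  have h1 : σ j₀ = A (σ (j₀ + n')) - r (j₀ + n') := by
    rw [← hσ' (j₀ + n'), ← hσ j₀]; rfl
  have h2 : ‖σ j₀‖ ≤ μ * ‖σ (j₀ + n')‖ + R := by
    calc ‖σ j₀‖ = ‖A (σ (j₀ + n')) - r (j₀ + n')‖ := by rw [← h1]
      _ ≤ ‖A (σ (j₀ + n'))‖ + ‖r (j₀ + n')‖ := norm_sub_le _ _
      _ ≤ _ := add_le_add (h _) (hR _)
  have h3 : μ * ‖σ (j₀ + n')‖ ≤ μ * ‖σ j₀‖ := mul_le_mul_of_nonneg_left (h₀ _) hμ
  have h4 : 0 ≤ ‖σ j₀‖ := norm_nonneg _
  nlinarith

/-- The expanding case. -/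
theorem expanding (A : EE k →L[ℝ] EE k) (μ g : ℝ) (hg : 0 < g) (hμg : 1 + g ≤ μ)
    (h : ∀ x, μ * ‖x‖ ≤ ‖A x‖) (n : ℕ) (hn : 0 < n) (r : ℕ → EE k) (hr : ∀ j, r (j + n) = r j)
    (R : ℝ) (hR : ∀ j, ‖r j‖ ≤ R) :
    ∃ σ : ℕ → EE k, (∀ j, σ (j + n) = σ j) ∧ (∀ j, σ (j + 1) = A (σ j) - r j) ∧
      ∀ j, ‖σ j‖ ≤ R / g := by
  have hμ1 : 1 < μ := by linarith
  have hμ0 : 0 ≤ μ := by linarith
  have hinj : ∀ s : EE k, (A ^ n) s = s → s = 0 := by
    intro s hs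
    have h1 := pow_exp A μ hμ0 h n s
    rw [hs] at h1
    have h2 : 1 < μ ^ n := one_lt_pow₀ hμ1 hn.ne'
    have h3 : 0 ≤ ‖s‖ := norm_nonneg s
    have h4 : ‖s‖ = 0 := by nlinarith
    exact norm_eq_zero.mp h4
  obtain ⟨σ, hσ, hσ'⟩ := periodic_solution A n hinj r hr
  obtain ⟨j₀, h₀⟩ := exists_max n hn σ hσ
  refine ⟨σ, hσ, hσ', fun j => (h₀ j).trans ?_⟩
  rw [le_div_iff₀ hg]
  have h1 : A (σ j₀) = σ (j₀ + 1) + r j₀ := by rw [hσ' j₀]; abel
  have h2 : μ * ‖σ j₀‖ ≤ ‖σ j₀‖ + R := by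
    calc μ * ‖σ j₀‖ ≤ ‖A (σ j₀)‖ := h _
      _ = ‖σ (j₀ + 1) + r j₀‖ := by rw [h1]
      _ ≤ ‖σ (j₀ + 1)‖ + ‖r j₀‖ := norm_add_le _ _
      _ ≤ _ := add_le_add (h₀ _) (hR _)
  have h4 : 0 ≤ ‖σ j₀‖ := norm_nonneg _
  nlinarith

end XSuC

open XSuC

/-- Item SuC. -/
theorem prf_SuC : SuC := by
  intro m p q D hD
  -- the linear coordinates
  have hinj : Injective (D.S.prod (D.l.prod D.U)) := hD.bij.injective
  have hsur : Surjective (D.S.prod (D.l.prod D.U)) := hD.bij.surjective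
  let E : EE m ≃L[ℝ] (EE p × ℝ × EE q) :=
    ContinuousLinearEquiv.ofBijective (D.S.prod (D.l.prod D.U)) (LinearMap.ker_eq_bot.mpr hinj)
      (LinearMap.range_eq_top.mpr hsur)
  have hE : ∀ v, E v = (D.S v, D.l v, D.U v) := fun v => rfl
  have hES : ∀ z, D.S (E.symm z) = z.1 := fun z => by
    have := congrArg Prod.fst (hE (E.symm z)); rw [E.apply_symm_apply] at this; exact this.symm
  have hEl : ∀ z, D.l (E.symm z) = z.2.1 := fun z => by
    have := congrArg (fun y => y.2.1) (hE (E.symm z)); simp only [E.apply_symm_apply] at this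
    exact this.symm
  have hEU : ∀ z, D.U (E.symm z) = z.2.2 := fun z => by
    have := congrArg (fun y => y.2.2) (hE (E.symm z)); simp only [E.apply_symm_apply] at this
    exact this.symm
  have hg := hD.g_pos
  have hs1 : D.μs + D.g ≤ 1 := hD.h1.trans (min_le_right _ _)
  have hu1 : 1 + D.g ≤ D.μu :=
    (add_le_add (le_max_right _ _) le_rfl).trans hD.h2
  refine ⟨‖(E.symm : (EE p × ℝ × EE q) →L[ℝ] EE m)‖ / D.g + 1, by positivity, ?_⟩
  intro n κ x r hn hx hκ hr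
  have hr0 : 0 ≤ r := (norm_nonneg _).trans (hr 0).1
  -- the errors are periodic
  have hrs : ∀ j, D.S (x (j + n + 1)) - D.As (D.S (x (j + n))) =
      D.S (x (j + 1)) - D.As (D.S (x j)) := by
    intro j
    have h1 : j + n + 1 = (j + 1) + n := by ring
    rw [h1, hx, hx, map_add, map_add, map_add, hκ, hD.SB]
    abel
  have hru : ∀ j, D.U (x (j + n + 1)) - D.Au (D.U (x (j + n))) =
      D.U (x (j + 1)) - D.Au (D.U (x j)) := by
    intro j
    have h1 : j + n + 1 = (j + 1) + n := by ring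
    rw [h1, hx, hx, map_add, map_add, map_add, hκ, hD.UB]
    abel
  obtain ⟨σ, hσ, hσ', hσb⟩ := contracting (D.As : EE p →L[ℝ] EE p) D.μs D.g hD.μs_nn hg hs1
    hD.con n hn (fun j => D.S (x (j + 1)) - D.As (D.S (x j))) hrs r (fun j => (hr j).1)
  obtain ⟨υ, hυ, hυ', hυb⟩ := expanding (D.Au : EE q →L[ℝ] EE q) D.μu D.g hg hu1
    hD.exp n hn (fun j => D.U (x (j + 1)) - D.Au (D.U (x j))) hru r (fun j => (hr j).2)
  refine ⟨fun j => x j + E.symm (σ j, 0, υ j), ?_, ?_, ?_⟩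
  · intro j
    simp only [hσ, hυ, hx]
    abel
  · intro j
    constructor
    · simp only [add_sub_cancel_left]
      have h1 : ‖((σ j, (0 : ℝ), υ j) : EE p × ℝ × EE q)‖ ≤ r / D.g := by
        rw [Prod.norm_def, Prod.norm_def]
        refine max_le (hσb j) (max_le ?_ (hυb j))
        simpa using div_nonneg hr0 hg.le
      calc ‖E.symm (σ j, 0, υ j)‖
          ≤ ‖(E.symm : (EE p × ℝ × EE q) →L[ℝ] EE m)‖ * ‖((σ j, (0 : ℝ), υ j) : EE p × ℝ × EE q)‖ :=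
            (E.symm : (EE p × ℝ × EE q) →L[ℝ] EE m).le_opNorm _
        _ ≤ ‖(E.symm : (EE p × ℝ × EE q) →L[ℝ] EE m)‖ * (r / D.g) :=
            mul_le_mul_of_nonneg_left h1 (norm_nonneg _)
        _ = ‖(E.symm : (EE p × ℝ × EE q) →L[ℝ] EE m)‖ / D.g * r := by ring
        _ ≤ _ := by
            have : 0 ≤ r := hr0
            nlinarith
    · simp only [map_add, hEl, add_zero]
  · intro j
    constructor
    · simp only [map_add, hES]
      have := hσ' j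
      simp only [ContinuousLinearEquiv.coe_coe] at this
      rw [this]
      abel
    · simp only [map_add, hEU]
      have := hυ' j
      simp only [ContinuousLinearEquiv.coe_coe] at this
      rw [this]
      abel

end Pool.Agent.OmegaDC
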