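import Pool.Agent.Work.MP_814647_an.DC.Stmts

/-!
# Dominated one-dimensional centre: the translations are a smooth family (item TrFam)
-/

set_option autoImplicit false

open Set Filter Topology Function
open scoped Manifold ContDiff

noncomputable section

namespace Pool.Agent.OmegaDC

open Pool.Agent.OmegaStab (EE Dyn IsFam HypAt)
open Pool.Agent.OmegaFT (iv TopTorus Integral)

universe u

namespace XTrFam

variable {m : ℕ} {M : Type u} [MetricSpace M] [ChartedSpace (EE m) M] [IsManifold (𝓡 m) ∞ M]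

/-- The translation by `t c` of the torus. -/
def tr (e : EE m → M) (he : Surjective e) (c : EE m) (t : ℝ) (x : M) : M :=
  e (surjInv he x + t • c)

omit [ChartedSpace (EE m) M] [IsManifold (𝓡 m) ∞ M] in
theorem tr_apply {e : EE m → M} (ht : TopTorus e) (c : EE m) (t : ℝ) (v : EE m) :
    tr e ht.surj c t (e v) = e (v + t • c) := by
  obtain ⟨k, hk⟩ := (ht.fibre (surjInv ht.surj (e v)) v).1 (surjInv_eq ht.surj (e v))
  refine (ht.fibre _ _).2 ⟨k, ?_⟩
  calc v + t • c = (surjInv ht.surj (e v) + iv k) + t • c := by rw [← hk]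
    _ = surjInv ht.surj (e v) + t • c + iv k := by abel

omit [ChartedSpace (EE m) M] [IsManifold (𝓡 m) ∞ M] in
theorem tr_tr {e : EE m → M} (ht : TopTorus e) (c : EE m) (s t : ℝ) (x : M) :
    tr e ht.surj c s (tr e ht.surj c t x) = tr e ht.surj c (t + s) x := by
  obtain ⟨v, rfl⟩ := ht.surj x
  rw [tr_apply ht, tr_apply ht, tr_apply ht, add_smul, add_assoc]

omit [ChartedSpace (EE m) M] [IsManifold (𝓡 m) ∞ M] in
theorem tr_zero {e : EE m → M} (ht : TopTorus e) (c : EE m) (x : M) :
    tr e ht.surj c 0 x = x := by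
  obtain ⟨v, rfl⟩ := ht.surj x
  rw [tr_apply ht, zero_smul, add_zero]

omit [IsManifold (𝓡 m) ∞ M] in
theorem contMDiff_tr {e : EE m → M} (he : IsLocalDiffeomorph (𝓡 m) (𝓡 m) ∞ e) (ht : TopTorus e)
    (c : EE m) :
    ContMDiff (𝓘(ℝ, ℝ).prod (𝓡 m)) (𝓡 m) ∞ (fun q : ℝ × M => tr e ht.surj c q.1 q.2) := by
  rintro ⟨t₀, x₀⟩
  obtain ⟨v₀, rfl⟩ := ht.surj x₀
  have hl := he v₀
  have hnear : ∀ᶠ q in 𝓝 (t₀, e v₀), q.2 ∈ hl.localInverse.source :=
    continuousAt_snd.eventually (hl.localInverse.open_source.mem_nhds hl.localInverse_mem_source)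
  have heq : (fun q : ℝ × M => tr e ht.surj c q.1 q.2) =ᶠ[𝓝 (t₀, e v₀)]
      fun q => e (hl.localInverse q.2 + q.1 • c) := by
    filter_upwards [hnear] with q hq
    have h1 : e (hl.localInverse q.2) = q.2 := hl.localInverse_right_inv hq
    have h2 := tr_apply ht c q.1 (hl.localInverse q.2)
    rw [h1] at h2
    exact h2
  have hinv : ContMDiffAt (𝓘(ℝ, ℝ).prod (𝓡 m)) (𝓡 m) ∞ (fun q : ℝ × M => hl.localInverse q.2)
      (t₀, e v₀) := by
    exact ContMDiffAt.comp (t₀, e v₀) hl.localInverse_contMDiffAt contMDiffAt_snd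
  have hsm : ContMDiffAt (𝓘(ℝ, ℝ).prod (𝓡 m)) (𝓡 m) ∞ (fun q : ℝ × M => q.1 • c)
      (t₀, e v₀) := by
    have h1 : ContMDiff 𝓘(ℝ, ℝ) (𝓡 m) ∞ (fun t : ℝ => t • c) :=
      (contDiff_id.smul contDiff_const).contMDiff
    exact (h1.comp (contMDiff_fst (I := 𝓘(ℝ, ℝ)) (J := 𝓡 m) (M := ℝ) (N := M))).contMDiffAt
  exact (ContMDiffAt.comp (t₀, e v₀) (he.contMDiff _) (hinv.add hsm)).congr_of_eventuallyEq heq

end XTrFam

open XTrFam in
/-- Item TrFam. -/
theorem prf_TrFam : TrFam.{u} := by
  intro m M _ _ _ e c r he ht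
  have hr : (r : WithTop ℕ∞) ≤ ∞ := by exact_mod_cast le_top
  have hj := contMDiff_tr he ht c
  have hc : ∀ t : ℝ, ContMDiff (𝓡 m) (𝓡 m) ∞ (fun x : M => tr e ht.surj c t x) := by
    intro t
    have h1 : ContMDiff (𝓡 m) (𝓘(ℝ, ℝ).prod (𝓡 m)) ∞ (fun x : M => (t, x)) :=
      contMDiff_const.prodMk contMDiff_id
    exact hj.comp h1
  refine ⟨fun t => { toFun := fun x => tr e ht.surj c t x
                     invFun := fun x => tr e ht.surj c (-t) x
                     left_inv := fun x => by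
                       show tr e ht.surj c (-t) (tr e ht.surj c t x) = x
                       rw [tr_tr ht, add_neg_cancel, tr_zero ht]
                     right_inv := fun x => by
                       show tr e ht.surj c t (tr e ht.surj c (-t) x) = x
                       rw [tr_tr ht, neg_add_cancel, tr_zero ht]
                     contMDiff_toFun := (hc t).of_le hr
                     contMDiff_invFun := (hc (-t)).of_le hr }, ⟨?_, univ, univ_mem, ?_⟩,
                     fun t v => tr_apply ht c t v⟩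
  · apply Diffeomorph.ext
    intro x
    exact tr_zero ht c x
  · exact (hj.of_le hr).contMDiffOn

end Pool.Agent.OmegaDC
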