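import Pool.Agent.Work.MP_814647_an.DC.Stmts

/-!
# Item TrOm: conjugacy on the nonwandering sets is invariant under global conjugacies
-/

set_option autoImplicit false

open Set Filter Topology Function

noncomputable section

namespace Pool.Agent.OmegaDC

open Pool.Agent.OmegaStability (Omega OmegaConjugate)

universe u

namespace XTrOm

variable {M : Type*} [TopologicalSpace M]

omit [TopologicalSpace M] in
theorem iter {f f' : M → M} {α : M → M} (h : ∀ x, f (α x) = α (f' x)) (n : ℕ) (x : M) :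
    f^[n] (α x) = α (f'^[n] x) := by
  induction n with
  | zero => rfl
  | succ n ih => rw [Function.iterate_succ_apply', ih, h, Function.iterate_succ_apply']

theorem mem_omega {f f' : M → M} {α : M → M} (hα : Continuous α)
    (h : ∀ x, f (α x) = α (f' x)) {x : M} (hx : x ∈ Omega f') : α x ∈ Omega f := by
  intro U hU
  obtain ⟨n, hn, z, ⟨y, hy, hyz⟩, hz⟩ := hx (α ⁻¹' U) (hα.continuousAt.preimage_mem_nhds hU)
  refine ⟨n, hn, α z, ⟨α y, hy, ?_⟩, hz⟩
  rw [iter h, hyz]

theorem symm_semi {f f' : M → M} {α : M ≃ₜ M} (h : ∀ x, f (α x) = α (f' x)) (x : M) :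
    f' (α.symm x) = α.symm (f x) := by
  have h1 := h (α.symm x)
  rw [α.apply_symm_apply] at h1
  rw [h1, α.symm_apply_apply]

theorem mem_iff {f f' : M → M} {α : M ≃ₜ M} (h : ∀ x, f (α x) = α (f' x)) (x : M) :
    x ∈ Omega f' ↔ α x ∈ Omega f := by
  refine ⟨fun hx => mem_omega α.continuous h hx, fun hx => ?_⟩
  have h1 := mem_omega (f := f') (f' := f) (α := α.symm) α.symm.continuous (symm_semi h) hx
  rwa [α.symm_apply_apply] at h1

/-- `α` restricted to the nonwandering sets -/
def res {f f' : M → M} (α : M ≃ₜ M) (h : ∀ x, f (α x) = α (f' x)) : Omega f' ≃ₜ Omega f :=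
  α.subtype (mem_iff h)

theorem coe_res {f f' : M → M} (α : M ≃ₜ M) (h : ∀ x, f (α x) = α (f' x)) (x : Omega f') :
    (res α h x : M) = α x := rfl

theorem coe_res_symm {f f' : M → M} (α : M ≃ₜ M) (h : ∀ x, f (α x) = α (f' x)) (x : Omega f) :
    ((res α h).symm x : M) = α.symm x := rfl

end XTrOm

open XTrOm in
theorem prf_TrOm : TrOm.{u} := by
  intro M _ f g f' g' α β hα hβ ⟨h, hh⟩
  refine ⟨(res α hα).trans (h.trans (res β hβ).symm), fun x y hxy => ?_⟩
  have h1 : ((res α hα y : Omega f) : M) = f (res α hα x) := by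
    rw [coe_res, coe_res, hxy, hα]
  have h2 := hh _ _ h1
  simp only [Homeomorph.trans_apply, coe_res_symm]
  rw [h2, symm_semi hβ]

end Pool.Agent.OmegaDC
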