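import Pool.Agent.Work.MP_814647_an.DC.Main
import Pool.Agent.Work.MP_814647_an.DC.I_Cmp
import Pool.Agent.Work.MP_814647_an.DC.I_Orb2
import Pool.Agent.Work.MP_814647_an.DC.I_Frk
import Pool.Agent.Work.MP_814647_an.DC.I_HatA
import Pool.Agent.Work.MP_814647_an.DC.I_HatB
import Pool.Agent.Work.MP_814647_an.DC.I_Desc
import Pool.Agent.Work.MP_814647_an.DC.I_LU
import Pool.Agent.Work.MP_814647_an.DC.I_TrFam
import Pool.Agent.Work.MP_814647_an.DC.I_LUV
import Pool.Agent.Work.MP_814647_an.DC.I_Lev
import Pool.Agent.Work.MP_814647_an.DC.I_RetG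
import Pool.Agent.Work.MP_814647_an.DC.I_CSep
import Pool.Agent.Work.MP_814647_an.DC.I_Clo
import Pool.Agent.Work.MP_814647_an.DC.I_NearC
import Pool.Agent.Work.MP_814647_an.DC.I_SprC
import Pool.Agent.Work.MP_814647_an.DC.I_GenC
import Pool.Agent.Work.MP_814647_an.DC.I_SuC
import Pool.Agent.Work.MP_814647_an.DC.I_Clos
import Pool.Agent.Work.MP_814647_an.DC.I_ShaC
import Pool.Agent.Work.MP_814647_an.DC.I_PeC
import Pool.Agent.Work.MP_814647_an.DC.I_TrOm
import Pool.Agent.Work.MP_814647_an.DC.I_TrPS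
import Pool.Agent.Work.MP_814647_an.DC.I_PsOm
import Pool.Agent.Work.MP_814647_an.DC.I_MkDat

/-!
# Dominated one-dimensional centre: the theorem
-/

set_option autoImplicit false

open Set Filter Topology Function
open scoped Manifold ContDiff

noncomputable section

namespace Pool.Agent.OmegaDC

open Pool.Agent.OmegaStab (EE Dyn IsFam HypAt)
open Pool.Agent.OmegaFT (iv TopTorus Integral)
open Pool.Agent.OmegaStability

universe u

/-- An Omega-stable torus diffeomorphism with a dominated one-dimensional centre is topologically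
hyperbolic, and its small translates in the centre direction have no cycles. -/
theorem dc_final {T : ClosedManifold.{u}} {e : EE T.dim → T.carrier} {c : EE T.dim}
    (he : IsTorusProjection T e) {r : ℕ∞} (hr : 1 ≤ r) {f : CrDiffeo T r}
    (hf : HasDominatedCentre f e c) (hst : OmegaStable f) :
    TopologicallyHyperbolic f ∧ SmallTranslatesNoCycles f e c :=
  have hOrb : Orb2 := prf_Orb2 prf_Cmp
  dc_main prf_Frk (prf_HatA hOrb) (prf_HatB hOrb) prf_Desc prf_TrFam (prf_LUV prf_LU)
    (prf_CSep prf_Lev prf_RetG) prf_Clo (prf_GenC prf_NearC prf_SprC) (prf_ShaC prf_SuC prf_Clos)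
    prf_PeC prf_TrOm prf_TrPS prf_PsOm prf_MkDat he hr hf hst

end Pool.Agent.OmegaDC
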