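import Pool.Agent.Work.MP_814647_an.DC.Stmts

/-!
# Item RetG: the return maps of a leaf
-/

set_option autoImplicit false

open Set Filter Topology Function

noncomputable section

namespace Pool.Agent.OmegaDC

open Pool.Agent.OmegaStab (EE)
open Pool.Agent.OmegaFT (iv)

namespace XRetG

variable {m p q : ℕ} {D : Dat m p q} {Φ : ℝ → EE m → EE m}

/-- Two vectors with the same coordinates are equal. -/
theorem ext (hD : D.Ok) {v w : EE m} (hS : D.S v = D.S w) (hl : D.l v = D.l w)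
    (hU : D.U v = D.U w) : v = w :=
  hD.bij.1 (by simp only [hS, hl, hU])

theorem S_iter (hΦ : D.Skew Φ) (t : ℝ) (n : ℕ) (v : EE m) :
    D.S ((Φ t)^[n] v) = (D.As)^[n] (D.S v) := by
  induction n generalizing v with
  | zero => rfl
  | succ n ih => rw [iterate_succ_apply, iterate_succ_apply, ih, hΦ.S]

theorem U_iter (hΦ : D.Skew Φ) (t : ℝ) (n : ℕ) (v : EE m) :
    D.U ((Φ t)^[n] v) = (D.Au)^[n] (D.U v) := by
  induction n generalizing v with
  | zero => rfl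
  | succ n ih => rw [iterate_succ_apply, iterate_succ_apply, ih, hΦ.U]

theorem S_add (hD : D.Ok) (v : EE m) (s : ℝ) : D.S (v + s • D.c) = D.S v := by
  rw [map_add, map_smul, hD.Sc, smul_zero, add_zero]

theorem U_add (hD : D.Ok) (v : EE m) (s : ℝ) : D.U (v + s • D.c) = D.U v := by
  rw [map_add, map_smul, hD.Uc, smul_zero, add_zero]

theorem l_add (hD : D.Ok) (v : EE m) (s : ℝ) : D.l (v + s • D.c) = D.l v + s := by
  rw [map_add, map_smul, hD.lc, smul_eq_mul, mul_one]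

/-- Vectors on the same leaf differ by a multiple of `c`. -/
theorem leaf (hD : D.Ok) {v w : EE m} (hS : D.S w = D.S v) (hU : D.U w = D.U v) :
    w = v + (D.l w - D.l v) • D.c := by
  refine ext hD ?_ ?_ ?_
  · rw [S_add hD, hS]
  · rw [l_add hD]; ring
  · rw [U_add hD, hU]

theorem cont_iter (hΦ : D.Skew Φ) (n : ℕ) :
    Continuous (fun z : ℝ × EE m => (Φ z.1)^[n] z.2) := by
  induction n with
  | zero => exact continuous_snd
  | succ n ih =>
    have : (fun z : ℝ × EE m => (Φ z.1)^[n + 1] z.2) =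
        fun z : ℝ × EE m => uncurry Φ (z.1, (Φ z.1)^[n] z.2) := by
      funext z
      rw [iterate_succ_apply']
      rfl
    rw [this]
    exact hΦ.cont.comp (continuous_fst.prodMk ih)

/-- Order on the leaves is kept. -/
theorem mono_iter (hD : D.Ok) (hΦ : D.Skew Φ) (t : ℝ) (n : ℕ) (v : EE m) (s : ℝ) (hs : 0 < s) :
    ∃ s' : ℝ, 0 < s' ∧ (Φ t)^[n] (v + s • D.c) = (Φ t)^[n] v + s' • D.c := by
  induction n with
  | zero => exact ⟨s, hs, rfl⟩
  | succ n ih =>
    obtain ⟨s', hs', h⟩ := ih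
    rw [iterate_succ_apply', iterate_succ_apply', h]
    refine ⟨D.l (Φ t ((Φ t)^[n] v + s' • D.c)) - D.l (Φ t ((Φ t)^[n] v)), ?_, ?_⟩
    · exact sub_pos.2 (hΦ.mono t _ s' hs')
    · refine leaf hD ?_ ?_
      · rw [hΦ.S, hΦ.S, S_add hD]
      · rw [hΦ.U, hΦ.U, U_add hD]

theorem mono_le (hΦ : D.Skew Φ) (t : ℝ) (v : EE m) (s : ℝ) (hs : 0 ≤ s) :
    D.l (Φ t v) ≤ D.l (Φ t (v + s • D.c)) := by
  rcases hs.eq_or_lt with rfl | hs
  · rw [zero_smul, add_zero]
  · exact (hΦ.mono t v s hs).le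

/-- Monotonicity in the parameter. -/
theorem incr_iter (hD : D.Ok) (hΦ : D.Skew Φ) {t t' : ℝ} (h : t ≤ t') (n : ℕ) (v : EE m) :
    ∃ s : ℝ, 0 ≤ s ∧ (0 < n → (t' - t) / 2 ≤ s) ∧
      (Φ t')^[n] v = (Φ t)^[n] v + s • D.c := by
  induction n with
  | zero => exact ⟨0, le_rfl, fun h => absurd h (lt_irrefl _), by simp⟩
  | succ n ih =>
    obtain ⟨s, hs, -, e⟩ := ih
    rw [iterate_succ_apply', iterate_succ_apply', e]
    have h1 := mono_le hΦ t' ((Φ t)^[n] v) s hs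
    have h2 := hΦ.incr t t' ((Φ t)^[n] v) h
    have h3 : (t' - t) / 2 ≤ D.l (Φ t' ((Φ t)^[n] v + s • D.c)) - D.l (Φ t ((Φ t)^[n] v)) := by
      linarith
    refine ⟨D.l (Φ t' ((Φ t)^[n] v + s • D.c)) - D.l (Φ t ((Φ t)^[n] v)), ?_, fun _ => h3, ?_⟩
    · refine le_trans ?_ h3
      linarith
    · refine leaf hD ?_ ?_
      · rw [hΦ.S, hΦ.S, S_add hD]
      · rw [hΦ.U, hΦ.U, U_add hD]

end XRetG

open XRetG in
/-- Item RetG. -/
theorem prf_RetG : RetG := by
  intro m p q D Φ hD hΦ t₀ n k v hn hL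
  have key : ∀ t x : ℝ, (Φ t)^[n] (v + x • D.c) =
      v + iv k + (D.l ((Φ t)^[n] (v + x • D.c)) - D.l (v + iv k)) • D.c := by
    intro t x
    refine leaf hD ?_ ?_
    · rw [S_iter hΦ, S_add hD, ← S_iter hΦ t₀, hL]
    · rw [U_iter hΦ, U_add hD, ← U_iter hΦ t₀, hL]
  refine ⟨fun t x => D.l ((Φ t)^[n] (v + x • D.c)) - D.l (v + iv k), ?_, ?_, ?_, key⟩
  · have h1 : Continuous (fun z : ℝ × ℝ => (z.1, v + z.2 • D.c)) := by fun_prop
    exact (D.l.continuous.comp ((cont_iter hΦ n).comp h1)).sub continuous_const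
  · intro t x y hxy
    obtain ⟨s, hs, e⟩ := mono_iter hD hΦ t n (v + x • D.c) (y - x) (sub_pos.2 hxy)
    have h1 : v + x • D.c + (y - x) • D.c = v + y • D.c := by
      rw [add_assoc, ← add_smul, add_sub_cancel]
    rw [h1] at e
    show D.l ((Φ t)^[n] (v + x • D.c)) - D.l (v + iv k) <
      D.l ((Φ t)^[n] (v + y • D.c)) - D.l (v + iv k)
    rw [e, l_add hD]
    linarith
  · intro t t' x h
    obtain ⟨s, -, hs, e⟩ := incr_iter hD hΦ h n (v + x • D.c)
    show D.l ((Φ t)^[n] (v + x • D.c)) - D.l (v + iv k) + (t' - t) / 2 ≤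
      D.l ((Φ t')^[n] (v + x • D.c)) - D.l (v + iv k)
    rw [e, l_add hD]
    have := hs hn
    linarith

end Pool.Agent.OmegaDC
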