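import Pool.Agent.Work.MP_814647_an.DC.Stmts

/-!
# Item TrPS: invariance of periodic shadowing and expansiveness under conjugacies
-/

set_option autoImplicit false

open Set Filter Topology Function

noncomputable section

namespace Pool.Agent.OmegaDC

open Pool.Agent.OmegaStability (PeriodicShadowing)

universe u

namespace XTrPS

/-- Uniform continuity of a homeomorphism of a compact metric space. -/
lemma unif {M : Type u} [MetricSpace M] [CompactSpace M] (α : M ≃ₜ M) {ε : ℝ} (hε : 0 < ε) :
    ∃ δ > 0, ∀ a b : M, dist a b < δ → dist (α a) (α b) < ε := by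
  have h := CompactSpace.uniformContinuous_of_continuous α.continuous
  obtain ⟨δ, hδ, h⟩ := Metric.uniformContinuous_iff.1 h ε hε
  exact ⟨δ, hδ, fun a b hab => h hab⟩

/-- Iterates of conjugate maps. -/
lemma iter {M : Type u} [TopologicalSpace M] {f f' : M → M} {α : M ≃ₜ M}
    (h : ∀ x, f (α x) = α (f' x)) (n : ℕ) (x : M) : f^[n] (α x) = α (f'^[n] x) := by
  induction n generalizing x with
  | zero => rfl
  | succ n ih => rw [iterate_succ_apply, iterate_succ_apply, h, ih]

end XTrPS

theorem prf_TrPS : TrPS.{u} := by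
  intro M _ _ f f' α h
  have hs : ∀ y, α.symm (f y) = f' (α.symm y) := by
    intro y
    rw [← α.apply_symm_apply y, h]
    simp
  refine ⟨fun hf ε hε => ?_, fun κ hκ hf => ?_⟩
  · obtain ⟨ε₁, hε₁, h1⟩ := XTrPS.unif α hε
    obtain ⟨δ₁, hδ₁, h2⟩ := hf ε₁ hε₁
    obtain ⟨δ, hδ, h3⟩ := XTrPS.unif α.symm hδ₁
    refine ⟨δ, hδ, fun n x hn hx hj => ?_⟩
    obtain ⟨p, hp, hpx⟩ := h2 n (fun j => α.symm (x j)) hn (by simp [hx]) fun j hjn => by
      have := h3 _ _ (hj j hjn)
      rwa [hs] at this
    refine ⟨α p, by rw [XTrPS.iter h, hp], fun j hjn => ?_⟩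
    have := h1 _ _ (hpx j hjn)
    rw [α.apply_symm_apply] at this
    rwa [XTrPS.iter h]
  · obtain ⟨δ, hδ, h3⟩ := XTrPS.unif α.symm hκ
    refine ⟨δ / 2, by positivity, fun n p q hn hp hq hj => ?_⟩
    have hi : ∀ (j : ℕ) (y : M), α.symm (f^[j] y) = f'^[j] (α.symm y) := by
      intro j y
      have := XTrPS.iter h j (α.symm y)
      rw [α.apply_symm_apply] at this
      rw [this, α.symm_apply_apply]
    have key := hf n (α.symm p) (α.symm q) hn (by rw [← hi, hp]) (by rw [← hi, hq])
      fun j hjn => by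
        have h4 : dist (f^[j] p) (f^[j] q) < δ := lt_of_le_of_lt (hj j hjn) (by linarith)
        have := h3 _ _ h4
        rw [hi, hi] at this
        exact this.le
    exact α.symm.injective key

end Pool.Agent.OmegaDC
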