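import Pool.Agent.Work.MP_814647_an.DC.Defs
import Pool.Agent.Work.MP_814647_an.TH.Stmts

/-!
# Dominated one-dimensional centre: the items

The complete proof on paper is note 4563.
-/

set_option autoImplicit false

open Set Filter Topology Function
open scoped Manifold ContDiff

noncomputable section

namespace Pool.Agent.OmegaDC

open Pool.Agent.OmegaStab (EE Dyn IsFam HypAt)
open Pool.Agent.OmegaFT (iv TopTorus Integral)
open Pool.Agent.OmegaStability (Omega OmegaConjugate PeriodicShadowing ClosedManifold CrDiffeo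
  IsTorusProjection HasDominatedCentre)

universe u

/-- Item Cmp, the comparison lemma. Proof. Write `rp = max b 1 + g / 2`, `rm = min a 1 - g / 2`,
`W j = wt j ≥ 1` (as `rp ≥ 1 ≥ rm > 0`), `N j = nn (x j)`, `p j = pp (x j)`. Let `K` be the supremum
of `p j / W j`. Forward: `e j = |l (x j)| / W j` satisfies `e (j + 1) ≤ (b / rp) e j + (L K + t) / rp`
and `(L K + t) / (rp - b) ≤ 2 (L K + t) / g`; backward (`j < 0`)
`e j ≤ (rm / a) e (j + 1) + (L K + t) / a` and `(L K + t) / (a - rm) ≤ 2 (L K + t) / g`. So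
`E = sup e ≤ |l (x 0)| + 2 (L K + t) / g` (first show `e j ≤` this bound by induction in both
directions). `s j = ‖S (x j)‖ / W j` satisfies `s (j + 1) ≤ (μs s j + δ max K E) / rm` because
`W j ≤ W (j + 1) / rm`; taking the supremum, `sup s ≤ δ max K E / (rm - μs) ≤ (2 δ / g) max K E`.
`u j = ‖U (x j)‖ / W j` satisfies `μu u j ≤ u (j + 1) W (j + 1) / W j + δ max K E`,
`W (j + 1) ≤ rp W j`, so `sup u ≤ δ max K E / (μu - rp) ≤ (2 δ / g) max K E`. Hence
`K ≤ (2 δ / g) max K E`, and `2 δ / g < 1` gives `K ≤ (2 δ / g) E`. Then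
`E ≤ |l (x 0)| + 2 t / g + (4 L δ / g ^ 2) E` and `4 L δ / g ^ 2 ≤ 1 / 4`, so
`E ≤ (4 / 3) (|l (x 0)| + 2 t / g)`; `p 0 ≤ K` and `N j ≤ max K E * W j = E * W j`.
(`g ≤ 1` as `0 ≤ μs` and `μs + g ≤ 1`; `0 < a`.) -/
def Cmp : Prop :=
  ∀ (m p q : ℕ) (D : Dat m p q), D.Ok → ∀ (x : ℤ → EE m) (t K : ℝ), 0 ≤ t →
    (∀ j, D.μu * ‖D.U (x j)‖ - D.δ * D.nn (x j) ≤ ‖D.U (x (j + 1))‖) →
    (∀ j, ‖D.S (x (j + 1))‖ ≤ D.μs * ‖D.S (x j)‖ + D.δ * D.nn (x j)) →
    (∀ j, D.a * |D.l (x j)| - D.L * D.pp (x j) - t ≤ |D.l (x (j + 1))|) →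
    (∀ j, |D.l (x (j + 1))| ≤ D.b * |D.l (x j)| + D.L * D.pp (x j) + t) →
    (∀ j, D.pp (x j) ≤ K * D.wt j) →
    D.pp (x 0) ≤ 4 * D.δ / D.g * (|D.l (x 0)| + 2 * t / D.g) ∧
      ∀ j, D.nn (x j) ≤ 2 * (|D.l (x 0)| + 2 * t / D.g) * D.wt j

/-- Item Orb: the comparison lemma for two orbits. Proof. `x j = zorb (Ft t) v j - zorb (Ft t') w j`
satisfies the hypotheses of Cmp with `|t - t'|` in place of `t`: `Ft t v - Ft t' w =
F v - F w + (t - t') c`, and `S c = 0`, `U c = 0`, `l c = 1`, which gives the first two by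
`Lift.hU`, `Lift.hS`; for `l` insert `w' = w + l (v - w) c` between `v` and `w` (`l v = l w'`,
`Lift.hL` for `v`, `w'`, where `S (v - w') = S (v - w)`, `U (v - w') = U (v - w)`; `Lift.hl` for
`w'` and `w`, in the order given by the sign of `l (v - w)`). -/
def Orb2 : Prop :=
  ∀ (m p q : ℕ) (D : Dat m p q) (F : EE m ≃ₜ EE m), D.Ok → D.Lift F →
    ∀ (t t' K : ℝ) (v w : EE m),
    (∀ j, D.pp (zorb (D.Ft F t) v j - zorb (D.Ft F t') w j) ≤ K) →
    D.pp (v - w) ≤ 4 * D.δ / D.g * (|D.l (v - w)| + 2 * |t - t'| / D.g)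

/-- Item Frk: the corrections of Franks. Proof. `φ v = F v - B v` is continuous and `ℤ^m`-periodic,
hence bounded (compact cube), and `S (Ft t v) = As (S v) + S (φ v)`,
`U (Ft t v) = Au (U v) + U (φ v)` as `S c = 0`, `U c = 0`. Put
`wu t v = ∑ j, Au⁻¹^(j+1) (U (φ ((Ft t)^[j] v)))` and
`ws t v = - ∑ j, As^j (S (φ ((Ft t).symm^[j+1] v)))`. `‖As‖ ≤ μs < 1`, `‖Au⁻¹‖ ≤ 1 / μu < 1`: the
series converge uniformly (`continuous_tsum`), the terms are jointly continuous in `(t, v)` and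
periodic, as `Ft t (v + iv k) = Ft t v + B (iv k)` and `(Ft t).symm (v + iv k) =
(Ft t).symm v + B.symm (iv k)` (`Ok.int`). The equations follow by shifting the index. -/
def Frk : Prop :=
  ∀ (m p q : ℕ) (D : Dat m p q) (F : EE m ≃ₜ EE m), D.Ok → D.Lift F →
    ∃ (ws : ℝ → EE m → EE p) (wu : ℝ → EE m → EE q) (K : ℝ), D.Frank F ws wu K

/-- Item HatA: the straightening. Proof. Let `J x z` (linear in `(x, z)`, continuous) be the vector
with the coordinates `(x, 0, z)` (`Ok.bij`), and `Ψ t v = v + J (ws t v) (wu t v)`: it has the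
coordinates `S v + ws t v`, `l v`, `U v + wu t v`. Injective for every `t`: if `Ψ t v = Ψ t w` the
vectors `S x + ws t x` and `U x + wu t x` are the same for `x = v, w`, hence (equations `es`, `eu`,
`As`, `Au` invertible) for `x = zorb (Ft t) v j, zorb (Ft t) w j`, all `j : ℤ`; so
`pp (zorb (Ft t) v j - zorb (Ft t) w j) ≤ 2 K`, and Orb2 with `t = t'`, `l (v - w) = 0` gives
`pp (v - w) ≤ 0`, so `v = w`. Surjective: for `y` the map `v ↦ y - J (ws t v) (wu t v)` is
continuous and bounded, a fixed point (BrBdd) is a solution of `Ψ t v = y`. `(t, v) ↦ (t, Ψ t v)` is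
a continuous bijection of `ℝ × EE m`, at bounded distance from the identity, hence proper and a
homeomorphism (closed map): `Γ t = (Ψ t)⁻¹` is jointly continuous. Periodicity of `Ψ` gives that of
`Γ`. `Φ t v = Ψ t (Ft t (Γ t v))`. -/
def HatA : Prop :=
  ∀ (m p q : ℕ) (D : Dat m p q) (F : EE m ≃ₜ EE m) (ws : ℝ → EE m → EE p) (wu : ℝ → EE m → EE q)
    (K : ℝ), D.Ok → D.Lift F → D.Frank F ws wu K →
    ∃ (Γ Ψ Φ : ℝ → EE m → EE m) (K' : ℝ), D.Hat F Γ Ψ Φ K'

/-- Item HatB: monotonicity. Proof. Two-sided orbits: `u j = (Ψ t) (zorb (Ft t) (Γ t v) j)` satisfies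
`S (u (j + 1)) = As (S (u j))`, `U (u (j + 1)) = Au (U (u j))` (`Hat.semi`, `SΦ`, `UΦ`), and
`‖u j - zorb (Ft t) (Γ t v) j‖ ≤ K`. So for points `v`, `v'` with `S v = S v'`, `U v = U v'` and
parameters `t`, `t'` the vectors `pp (zorb (Ft t) (Γ t v) j - zorb (Ft t') (Γ t' v') j)` are bounded
(`As`, `Au` are invertible), and Orb2 gives
`pp (Γ t v - Γ t' v') ≤ 4 δ / g * (|l v - l v'| + 2 |t - t'| / g)`.
`mono`: `t = t'`, `v' = v + s c`, `s > 0`: `l (Φ t v') - l (Φ t v) = l (F (Γ t v') - F (Γ t v))`;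
insert `Γ t v + s c`, which has the same `l` as `Γ t v'`: it is
`≥ a s - L * 4 δ / g * s ≥ (a - g / 4) s > 0`.
`incr`: `v = v'`: `l (Φ t' v) - l (Φ t v) = t' - t + l (F (Γ t' v) - F (Γ t v))`, the last term has
modulus `≤ L * pp (Γ t' v - Γ t v) ≤ L * 8 δ / g ^ 2 * (t' - t) ≤ (t' - t) / 2`. -/
def HatB : Prop :=
  ∀ (m p q : ℕ) (D : Dat m p q) (F : EE m ≃ₜ EE m) (Γ Ψ Φ : ℝ → EE m → EE m) (K : ℝ),
    D.Ok → D.Lift F → D.Hat F Γ Ψ Φ K → D.Skew Φ

/-- Item Desc: the maps descend to the torus. Proof. `e` and `id × e` are open continuous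
surjections, hence quotient maps; `Γ t`, `Ψ t`, `Φ t` map points which differ by integer vectors to
such points (`Ok.int`). -/
def Desc : Prop :=
  ∀ (m p q : ℕ) (D : Dat m p q) (F : EE m ≃ₜ EE m) (Γ Ψ Φ : ℝ → EE m → EE m) (K : ℝ)
    (M : Type u) [MetricSpace M] [CompactSpace M] (e : EE m → M), D.Ok → D.Hat F Γ Ψ Φ K →
    TopTorus e → ∃ (γ : ℝ → M ≃ₜ M) (G : ℝ → M → M), Continuous (uncurry G) ∧
      (∀ t v, γ t (e v) = e (Γ t v)) ∧ ∀ t v, G t (e v) = e (Φ t v)

/-- Item LU: local uniqueness of hyperbolic periodic points in smooth families. Proof. As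
`Dens.persist` (`Bd/B07.lean`), with the period `n`, a multiple of the minimal period: in the charts
at `p` the map `Ψ (t, u) = (t, G (t, u) - u)`, where `G (t, u)` is the expression of
`(g.trans (h t))^[n]`, is strictly differentiable at `(0, c)`, with a derivative which is bijective:
`D - 1` is injective by `hypLin_pow_fixed` (see the end of `crossing_aux` in `Bd/B07.lean`). So
`Ψ` is injective near `(0, c)` (`HasStrictFDerivAt.toOpenPartialHomeomorph` or the inverse function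
theorem). -/
def LU : Prop :=
  ∀ (d : ℕ) (M : Type u) [MetricSpace M] [ChartedSpace (EE d) M] [IsManifold (𝓡 d) ∞ M] (r : ℕ∞)
    (h : ℝ → Dyn d M r) (g : Dyn d M r) (x : M) (n : ℕ), 1 ≤ r → IsFam h → 0 < n →
    HypAt (d := d) g x → g^[n] x = x →
    ∃ V ∈ 𝓝 x, ∃ η > 0, ∀ t : ℝ, |t| < η → ∀ y ∈ V, ∀ y' ∈ V,
      (g.trans (h t))^[n] y = y → (g.trans (h t))^[n] y' = y' → y = y'

/-- Item TrFam: the translations of the torus are a smooth family. Proof. `h t (e v) = e (v + t c)`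
is well defined; near a point `e v₀` it is `x ↦ e (s x + t c)`, where `s` is a local inverse of the
local diffeomorphism `e` with `s (e v₀) = v₀`; so `(t, x) ↦ h t x` is smooth. The inverse of `h t` is
`h (-t)`. -/
def TrFam : Prop :=
  ∀ (m : ℕ) (M : Type u) [MetricSpace M] [ChartedSpace (EE m) M] [IsManifold (𝓡 m) ∞ M]
    (e : EE m → M) (c : EE m) (r : ℕ∞), IsLocalDiffeomorph (𝓡 m) (𝓡 m) ∞ e → TopTorus e →
    ∃ h : ℝ → Dyn m M r, IsFam h ∧ ∀ t v, h t (e v) = e (v + t • c)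

/-- Item LUV: local uniqueness on the leaves. Proof. A loop `(n, k, v)` of `Φ t`, `|t| < τ`, gives
the `n`-periodic point `x = e (Γ t v)` of `f.trans (h t)` (`Hat.semi`, `Hat.pΓ`, induction). Apply LU
at `x` to `g = f.trans (h t)`; `g.trans (h (s - t))` and `f.trans (h s)` are the same map. For `s`
near `t` and `x`, `y` near `0` the points `e (Γ s (v + x c))` and `e (Γ s (v + y c))` are `n`-periodic
for `f.trans (h s)` and near `x`, so they are equal: `v + x c = v + y c + iv k'`, and `k' = 0` if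
`|x - y| * ‖c‖ < 1`. -/
def LUV : Prop :=
  ∀ (m p q : ℕ) (D : Dat m p q) (F : EE m ≃ₜ EE m) (Γ Ψ Φ : ℝ → EE m → EE m) (K : ℝ)
    (M : Type u) [MetricSpace M] [ChartedSpace (EE m) M] [IsManifold (𝓡 m) ∞ M]
    (e : EE m → M) (r : ℕ∞) (f : Dyn m M r) (h : ℝ → Dyn m M r) (τ : ℝ), 1 ≤ r → D.Ok →
    D.Hat F Γ Ψ Φ K → TopTorus e → IsFam h → (∀ t v, h t (e v) = e (v + t • D.c)) →
    (∀ v, f (e v) = e (F v)) →
    (∀ t, |t| < τ → ∀ x ∈ periodicPts (f.trans (h t)), HypAt (d := m) (f.trans (h t)) x) →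
    D.Uniq Φ τ

/-- Item Lev: the level function. Proof. For every `x` there is exactly one `T x` with
`G (T x) x = x` (`G` is continuous and increases in `t` at rate at least `1 / 2`);
`x < G t x` iff `T x < t`. `T` is continuous, `T y - T x ≤ 2 (y - x)` for `x ≤ y` (as
`G (T x) y ≥ x`), and by the last hypothesis `T` is locally injective at all `x` with `|T x| < τ`,
hence locally strictly monotone there (a continuous injective function on an interval).
First conclusion: at `x`, `T x = t`, the function `T` takes on `[x - ε, x + ε]` values on both sides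
of `t`; the intermediate value theorem. Second: `T x = T y = t`. `T` has on `[x, y]` no local
extremum with value in `(-τ, τ)` in the open interval, and is not constant, so (compactness of
`[x, y]`) there is `z` between with `|T z| ≥ τ`. If `T z ≥ τ` then `τ - t ≤ T z - T x ≤ 2 (z - x)`,
if `T z ≤ -τ` then `t + τ ≤ T y - T z ≤ 2 (y - z)`. -/
def Lev : Prop :=
  ∀ (G : ℝ → ℝ → ℝ) (τ : ℝ), Continuous (uncurry G) → (∀ t, StrictMono (G t)) →
    (∀ t t' x, t ≤ t' → G t x + (t' - t) / 2 ≤ G t' x) →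
    (∀ t x, |t| < τ → G t x = x → ∃ η > 0, ∀ s y z, |s - t| < η → |y - x| < η → |z - x| < η →
      G s y = y → G s z = z → y = z) →
    (∀ t x, |t| < τ → G t x = x → ∀ ε > 0, ∃ η > 0, ∀ s, |s - t| < η →
      ∃ y, |y - x| ≤ ε ∧ G s y = y) ∧
    ∀ t x y, |t| < τ → G t x = x → G t y = y → x < y → (τ - |t|) / 2 ≤ y - x

/-- Item RetG: the return maps of a leaf. Proof. `G t x = l ((Φ t)^[n] (v + x c)) - l v - l (iv k)`.
The `S`-coordinate of `(Φ t)^[n] (v + x c)` is `As^n (S v) = S (v + iv k)` (from the given loop), the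
same for `U`, so `(Φ t)^[n] (v + x c) - v - iv k` is a multiple of `c` (`Ok.bij`). Monotonicity in
`x`: by induction on the number of steps, two points with the same `S`- and `U`-coordinates keep
their order. In `t`: by induction `l ((Φ t)^[j] w) ≤ l ((Φ t')^[j] w)`, and the last step adds
`(t' - t) / 2`. -/
def RetG : Prop :=
  ∀ (m p q : ℕ) (D : Dat m p q) (Φ : ℝ → EE m → EE m), D.Ok → D.Skew Φ →
    ∀ (t₀ : ℝ) (n : ℕ) (k : Fin m → ℤ) (v : EE m), 0 < n → Loop (Φ t₀) n k v →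
    ∃ G : ℝ → ℝ → ℝ, Continuous (uncurry G) ∧ (∀ t, StrictMono (G t)) ∧
      (∀ t t' x, t ≤ t' → G t x + (t' - t) / 2 ≤ G t' x) ∧
      ∀ t x, (Φ t)^[n] (v + x • D.c) = v + iv k + G t x • D.c

/-- Item CSep: continuation and separation of loops. Proof. Lev and RetG: `v + x c` is a loop of
`Φ t` iff `G t x = x`. -/
def CSep : Prop :=
  ∀ (m p q : ℕ) (D : Dat m p q) (Φ : ℝ → EE m → EE m) (τ : ℝ), D.Ok → D.Skew Φ → D.Uniq Φ τ →
    D.Cont Φ τ ∧ ∀ t, |t| < τ → D.Sep (Φ t) ((τ - |t|) / 2)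

/-- Item Clo: periodic points with close orbits are on the same leaf. Proof. (a) `Φ t v - B v` is
periodic in `v`: `Φ` is uniformly continuous on `[-T - 1, T + 1] × EE m`. (b) For `ε₂ > 0` there is
`κ₁ > 0` such that `dist (e v) x < κ₁` implies `x = e w` for some `w` with `‖w - v‖ < ε₂`
(`XFibClosed.e_lift` or directly: `e` is open, `M` compact, periodicity). Let `ε₂` be small, in
particular `ε₂ < 1 / 4`, `‖l‖ ε₂ ≤ ε`, and such that `‖v - w‖ < ε₂`, `|s - s'| < ε₂` imply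
`‖Φ s v - Φ s' w‖ < 1 / 4`. Let `z = e w₀`, `‖w₀ - v‖ < ε₂`, `w j = (Φ s')^[j] w₀`,
`v j = (Φ s)^[j] v`. By induction `‖w j - v j‖ < ε₂`: `(G s')^[j + 1] z = e (w (j + 1))` is
`κ`-close to `e (v (j + 1))`, so it is `e w'` with `‖w' - v (j + 1)‖ < ε₂`, and
`‖w' - w (j + 1)‖ < 1`, `e w' = e (w (j + 1))` give `w' = w (j + 1)`. `w n = w 0 + iv k'`,
`v n = v 0 + iv k` and `‖iv k' - iv k‖ < 1` give `k' = k`. So `d j = w j - v j` is `n`-periodic,
`S (d n) = As^n (S (d 0))`, `‖As^n x‖ ≤ μs^n ‖x‖` with `μs^n < 1`, so `S (d 0) = 0`; in the same way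
`U (d 0) = 0`. Hence `d 0 = y c` with `y = l (d 0)`. -/
def Clo : Prop :=
  ∀ (m p q : ℕ) (D : Dat m p q) (Φ : ℝ → EE m → EE m) (M : Type u) [MetricSpace M]
    [CompactSpace M] (e : EE m → M) (G : ℝ → M → M), D.Ok → D.Skew Φ → TopTorus e →
    (∀ t v, G t (e v) = e (Φ t v)) → D.Close e Φ G

/-- Item NearC: close conjugacies. Proof. Let `κ` be given by `Close` for `T`, `ε`. A loop
`(n, k, v)` of `Φ s` gives the periodic point `z = e v` of `G s`, a point of `Omega (G s)`; with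
`x = h.symm z` the point `z' = h' x` is `n`-periodic for `G s'`, and `(G s)^[j] z = h (f^[j] x)`,
`(G s')^[j] z' = h' (f^[j] x)` (as `TH.prf_Near`, `TH/I_Near.lean`). -/
def NearC : Prop :=
  ∀ (m p q : ℕ) (D : Dat m p q) (Φ : ℝ → EE m → EE m) (M : Type u) [MetricSpace M]
    [CompactSpace M] (e : EE m → M) (G : ℝ → M → M), TopTorus e →
    (∀ t v, G t (e v) = e (Φ t v)) → D.Close e Φ G → ∀ T ε : ℝ, 0 < ε → ∃ κ > 0,
    ∀ (f : M → M) (s s' : ℝ) (h : Omega f ≃ₜ Omega (G s)) (h' : Omega f ≃ₜ Omega (G s')),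
      Continuous f → |s| ≤ T → |s - s'| ≤ κ → OmegaStability.TH.Conj f (G s) h →
      OmegaStability.TH.Conj f (G s') h' → (∀ x, dist (h x : M) (h' x) ≤ κ) →
      D.Fol (Φ s) (Φ s') ε

/-- Item SprC: spreading. Proof. Let `(n, k, v)` be a loop of `Φ s`. By `Cont` there is `s₁ ∈ S`
near `s` with a loop of `Φ s₁` at `v + y₁ c`, `|y₁| ≤ ε`. Let `t i ∈ S` tend to `t`: there are loops
of `Φ (t i)` at `v + y i c`, `|y i - y₁| ≤ ε`. A subsequence of `y i` converges to `y`,
`|y| ≤ 2 ε`, and by continuity of `Φ` (jointly) `v + y c` is a loop of `Φ t`. -/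
def SprC : Prop :=
  ∀ (m p q : ℕ) (D : Dat m p q) (Φ : ℝ → EE m → EE m) (τ a b ε : ℝ) (S : Set ℝ), D.Skew Φ →
    D.Cont Φ τ → -τ ≤ a → b ≤ τ → S ⊆ Ioo a b → Ioo a b ⊆ closure S → 0 < ε →
    (∀ s ∈ S, ∀ s' ∈ S, D.Fol (Φ s) (Φ s') ε) →
    ∀ s ∈ Ioo a b, ∀ t ∈ Ioo a b, D.Fol (Φ s) (Φ t) (2 * ε)

/-- Item GenC: a stable parameter. Proof. As `TH.prf_Generic` (`TH/I_Generic.lean`), with
`TH.prf_Baire`: choose conjugacies `h t : Omega (G 0) ≃ₜ Omega (G t)` for `|t| < τ`, and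
`φ t = (x ↦ (h t x : M))` in the separable metric space `C(Omega (G 0), M)`. In every interval of
`(-τ, τ)` there is, for each `ε > 0`, a smaller interval of length `≤ κ` and a dense subset `S` of it
with `dist (φ s) (φ s') < κ` on `S` (Baire), `κ` from NearC; so Fol holds on `S` and by SprC with
`2 ε` on the whole interval. Nested closed intervals for `ε = 1 / i`: the common point `t₀`. -/
def GenC : Prop :=
  ∀ (m p q : ℕ) (D : Dat m p q) (Φ : ℝ → EE m → EE m) (M : Type u) [MetricSpace M]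
    [CompactSpace M] (e : EE m → M) (G : ℝ → M → M) (τ : ℝ), D.Ok → D.Skew Φ → TopTorus e →
    Continuous (uncurry G) → (∀ t v, G t (e v) = e (Φ t v)) → D.Close e Φ G → 0 < τ →
    (∀ t, |t| < τ → OmegaConjugate (G 0) (G t)) → D.Cont Φ τ → ∃ t₀, |t₀| < τ ∧ D.Stab Φ t₀

/-- Item SuC: correction of the hyperbolic coordinates. Proof. `r j = S (x (j + 1)) - As (S (x j))`
is `n`-periodic (`hκ`). The linear map `σ ↦ (σ (j + 1) - As (σ j))` on the `n`-periodic sequences
in `EE p` (`Fin n → EE p`, cyclic shift) is injective (`max ‖σ j‖ ≤ μs max ‖σ j‖`), hence bijective: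
there is an `n`-periodic `σ` with `σ (j + 1) = As (σ j) - r j`, and
`max ‖σ j‖ ≤ r / (1 - μs) ≤ r / g`. In the same way for `U` (`μu max ‖υ j‖ ≤ max ‖υ j‖ + r`,
`μu - 1 ≥ g`). `w j = x j + (the vector with the coordinates (σ j, 0, υ j))`. -/
def SuC : Prop :=
  ∀ (m p q : ℕ) (D : Dat m p q), D.Ok → ∃ C > 0, ∀ (n : ℕ) (κ : ℕ → Fin m → ℤ) (x : ℕ → EE m)
    (r : ℝ), 0 < n → (∀ j, x (j + n) = x j + iv (κ j)) → (∀ j, iv (κ (j + 1)) = D.B (iv (κ j))) →
    (∀ j, ‖D.S (x (j + 1)) - D.As (D.S (x j))‖ ≤ r ∧ ‖D.U (x (j + 1)) - D.Au (D.U (x j))‖ ≤ r) →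
    ∃ w : ℕ → EE m, (∀ j, w (j + n) = w j + iv (κ j)) ∧
      (∀ j, ‖w j - x j‖ ≤ C * r ∧ D.l (w j) = D.l (x j)) ∧
      ∀ j, D.S (w (j + 1)) = D.As (D.S (w j)) ∧ D.U (w (j + 1)) = D.Au (D.U (w j))

/-- Item Clos: closing by a change of the parameter. Proof. For `s = t + 2 r` one has
`Φ s (w j) = w (j + 1) + c' c` with `c' ≥ 0`, and by induction
`(Φ s)^[j] (w 0) = w j + y c` with `y ≥ 0` (`Skew.mono`; the `S`- and `U`-coordinates agree); for
`s = t - 2 r` with `y ≤ 0`. `y n = l ((Φ s)^[n] (w 0)) - l (w n)` is continuous in `s`: the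
intermediate value theorem. -/
def Clos : Prop :=
  ∀ (m p q : ℕ) (D : Dat m p q) (Φ : ℝ → EE m → EE m), D.Ok → D.Skew Φ →
    ∀ (t r : ℝ) (n : ℕ) (k : Fin m → ℤ) (w : ℕ → EE m), 0 < n → 0 ≤ r → w n = w 0 + iv k →
    (∀ j < n, ∃ y : ℝ, |y| ≤ r ∧ Φ t (w j) = w (j + 1) + y • D.c) →
    ∃ s, |s - t| ≤ 2 * r ∧ Loop (Φ s) n k (w 0)

/-- Item ShaC: periodic shadowing. Proof. Let `ε > 0`, small. `Φ t` is uniformly continuous
(`Φ t v - B v` is periodic). `Stab` gives `η` for `ε₁` (small), and then `δ` is chosen small. Let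
`x` be a pseudo-orbit of `G t` with jumps `< δ`, `x n = x 0`, extended `n`-periodically to all
`j : ℕ`. Choose lifts `v j`, `e (v j) = x j`, `‖Φ t (v j) - v (j + 1)‖ ≤ r` (`r → 0` as `δ → 0`,
`XFibClosed.e_lift`). `v (j + n) = v j + iv (κ j)`, and
`iv (κ (j + 1)) = B (iv (κ j))` because the difference is an integer vector of norm `< 1`. SuC gives
`w j`, `‖w j - v j‖ ≤ C r`, with exact hyperbolic coordinates, so
`Φ t (w j) = w (j + 1) + y c` with `|y| ≤ r'` small. For every `i` Clos (for `j ↦ w (i + j)`,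
`k = κ i`) gives `s`, `|s - t| ≤ 2 r' < η`, with a loop of `Φ s` at `w i`, and `Stab` a loop
`(n, κ i)` of `Φ t` at `u i = w i + y i c`, `|y i| ≤ ε₁`. `Φ t (u i)` is a loop `(n, κ (i + 1))` of
`Φ t`, it has the same `S`- and `U`-coordinates as `u (i + 1)` and is close to it: equal by `Sep`.
So `e (u 0)` is `n`-periodic and its orbit is `e (u i)`, close to `x i`. -/
def ShaC : Prop :=
  ∀ (m p q : ℕ) (D : Dat m p q) (Φ : ℝ → EE m → EE m) (M : Type u) [MetricSpace M]
    [CompactSpace M] (e : EE m → M) (G : ℝ → M → M) (t ρ : ℝ), D.Ok → D.Skew Φ → TopTorus e →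
    (∀ t v, G t (e v) = e (Φ t v)) → D.Stab Φ t → 0 < ρ → D.Sep (Φ t) ρ → PeriodicShadowing (G t)

/-- Item PeC: expansiveness on periodic points. Proof. `Close` with `s = s' = t`, `ε = ρ / 2`: for
`n`-periodic points `x = e v`, `z` of `G t` (`v` is a loop of `Φ t` for some `k`) whose orbits are
`κ`-close (for all `j`, by periodicity) `z = e (v + y c)`, `|y| < ρ`, a loop with the same `n`, `k`,
so `y = 0` by `Sep`. -/
def PeC : Prop :=
  ∀ (m p q : ℕ) (D : Dat m p q) (Φ : ℝ → EE m → EE m) (M : Type u) [MetricSpace M]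
    [CompactSpace M] (e : EE m → M) (G : ℝ → M → M) (t ρ : ℝ), TopTorus e →
    (∀ t v, G t (e v) = e (Φ t v)) → D.Close e Φ G → 0 < ρ → D.Sep (Φ t) ρ →
    ∃ κ > 0, OmegaStability.TH.PE (G t) κ

/-- Item TrOm: conjugacy on the nonwandering sets is invariant under global conjugacies. Proof.
`α` maps `Omega f'` homeomorphically onto `Omega f`, `β` maps `Omega g'` onto `Omega g`. -/
def TrOm : Prop :=
  ∀ (M : Type u) [TopologicalSpace M] (f g f' g' : M → M) (α β : M ≃ₜ M),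
    (∀ x, f (α x) = α (f' x)) → (∀ x, g (β x) = β (g' x)) → OmegaConjugate f g →
    OmegaConjugate f' g'

/-- Item TrPS: periodic shadowing and expansiveness on periodic points are invariant under
conjugacies. Proof. `α` and its inverse are uniformly continuous. -/
def TrPS : Prop :=
  ∀ (M : Type u) [MetricSpace M] [CompactSpace M] (f f' : M → M) (α : M ≃ₜ M),
    (∀ x, f (α x) = α (f' x)) → (PeriodicShadowing f' → PeriodicShadowing f) ∧
      ∀ κ > 0, OmegaStability.TH.PE f' κ → ∃ κ' > 0, OmegaStability.TH.PE f κ'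

/-- Item PsOm: periodic points are dense in the nonwandering set. Proof. For `x` in `Omega f` and
`ε > 0` let `δ ≤ ε` be given by periodic shadowing for `ε / 2`, and let `y`, `f^[n] y` be in the ball
of radius `δ / 2` about `x`, `n > 0`. The sequence `f^[j] y` (`j < n`), `y` (`j = n`) is a periodic
pseudo-orbit with one jump; the shadowing point is periodic and `ε`-close to `x`. The converse:
`TH.isClosed_Omega`, `TH.periodicPts_subset_Omega` (`TH/Main.lean`). -/
def PsOm : Prop :=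
  ∀ (M : Type u) [MetricSpace M] (f : M → M), PeriodicShadowing f →
    Omega f = closure (periodicPts f)

/-- Item MkDat: from the hypothesis of the theorem to the data. Proof. `S`, `l`, `U` are continuous
(finite dimension). `B` is `linMap A`, invertible and integral with its inverse because `det A` is a
unit (see `FT/Main2.lean`, `FT/I_MatConv.lean`). `As` is onto (`S` and `B` are onto and
`S B = As S`), hence an isomorphism; the same for `Au`. `a ≤ b` by the third inequality with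
`s = 1`. `TopTorus e`: a local diffeomorphism is open and continuous; `intVec k = iv k` by
definition. -/
def MkDat : Prop :=
  ∀ (T : ClosedManifold.{u}) (r : ℕ∞) (f : CrDiffeo T r) (e : EE T.dim → T.carrier)
    (c : EE T.dim), IsTorusProjection T e → HasDominatedCentre f e c →
    ∃ (p q : ℕ) (D : Dat T.dim p q) (F : EE T.dim ≃ₜ EE T.dim), D.Ok ∧ D.Lift F ∧ D.c = c ∧
      (∀ v, f (e v) = e (F v)) ∧ TopTorus e ∧
      IsLocalDiffeomorph (𝓡 T.dim) (𝓡 T.dim) ∞ e

end Pool.Agent.OmegaDC
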