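import Pool.Agent.Work.MP_814647_an.TH.Final
import Pool.Agent.Work.MP_814647_an.DC.Stmts

/-!
# Dominated one-dimensional centre: assembly
-/

set_option autoImplicit false

open Set Filter Topology Function
open scoped Manifold ContDiff

noncomputable section

namespace Pool.Agent.OmegaDC

open Pool.Agent.OmegaStab (EE Dyn IsFam HypAt)
open Pool.Agent.OmegaFT (iv TopTorus Integral)
open Pool.Agent.OmegaStability

universe u

theorem dc_main (iFrk : Frk) (iHatA : HatA) (iHatB : HatB) (iDesc : Desc.{u}) (iTrFam : TrFam.{u})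
    (iLUV : LUV.{u}) (iCSep : CSep) (iClo : Clo.{u}) (iGenC : GenC.{u}) (iShaC : ShaC.{u})
    (iPeC : PeC.{u}) (iTrOm : TrOm.{u}) (iTrPS : TrPS.{u}) (iPsOm : PsOm.{u}) (iMkDat : MkDat.{u})
    {T : ClosedManifold.{u}} {e : EE T.dim → T.carrier} {c : EE T.dim}
    (he : IsTorusProjection T e) {r : ℕ∞} (hr : 1 ≤ r) {f : CrDiffeo T r}
    (hf : HasDominatedCentre f e c) (hst : OmegaStable f) :
    TopologicallyHyperbolic f ∧ SmallTranslatesNoCycles f e c := by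
  obtain ⟨p, q, D, F, hD, hF, hDc, hfe, hTT, hloc⟩ := iMkDat T r f e c he hf
  obtain ⟨ws, wu, K, hFr⟩ := iFrk _ _ _ D F hD hF
  obtain ⟨Γ, Ψ, Φ, K', hHat⟩ := iHatA _ _ _ D F ws wu K hD hF hFr
  have hSk : D.Skew Φ := iHatB _ _ _ D F Γ Ψ Φ K' hD hF hHat
  obtain ⟨γ, G, hGc, hγ, hG⟩ := iDesc _ _ _ D F Γ Ψ Φ K' T.carrier e hD hHat hTT
  obtain ⟨h, hfam, hh⟩ := iTrFam _ T.carrier e D.c r hloc hTT
  have hst' : OmegaStab.OmegaStable f := hst
  obtain ⟨N, hN, hfN, hNconj⟩ := hst'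
  have hconj : OmegaStab.ConjClass N := OmegaStab.conjClass_of_conj hNconj
  have hhyp := OmegaStab.hypAt_of_conjClass hr hN hconj
  have hev : ∀ᶠ t in 𝓝 (0 : ℝ), f.trans (h t) ∈ N := by
    let _ := OmegaStab.crTopology T.dim T.carrier r
    exact (hfam.tendsto f).eventually (IsOpen.mem_nhds hN hfN)
  obtain ⟨τ, hτ, hball⟩ := Metric.eventually_nhds_iff.1 hev
  have hτN : ∀ t : ℝ, |t| < τ → f.trans (h t) ∈ N := fun t ht => hball (by simpa using ht)
  have hfun : ∀ t v, (f.trans (h t)) (e v) = e (D.Ft F t v) := by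
    intro t v
    show h t (f (e v)) = _
    rw [hfe, hh]
    rfl
  have hsemi : ∀ t x, (f.trans (h t)) (γ t x) = γ t (G t x) := by
    intro t x
    obtain ⟨v, rfl⟩ := hTT.surj x
    rw [hγ, hfun, ← hHat.semi, hG, hγ]
  have hUq : D.Uniq Φ τ := iLUV _ _ _ D F Γ Ψ Φ K' T.carrier e r f h τ hr hD hHat hTT hfam hh hfe
    (fun t ht x hx => hhyp _ (hτN t ht) x hx)
  obtain ⟨hCt, hSep⟩ := iCSep _ _ _ D Φ τ hD hSk hUq
  have hClose : D.Close e Φ G := iClo _ _ _ D Φ T.carrier e G hD hSk hTT hG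
  have hOm : ∀ t, |t| < τ → OmegaConjugate (G 0) (G t) := by
    intro t ht
    refine iTrOm T.carrier (f.trans (h 0)) (f.trans (h t)) (G 0) (G t) (γ 0) (γ t) (hsemi 0)
      (hsemi t) ?_
    exact hconj _ (hτN 0 (by rwa [abs_zero])) _ (hτN t ht)
  have key : ∀ ε > 0, ∃ t : ℝ, |t| < ε ∧ |t| < τ ∧ PeriodicShadowing (f.trans (h t)) ∧
      ∃ κ > 0, TH.PE (f.trans (h t)) κ := by
    intro ε hε
    obtain ⟨t, ht, hstab⟩ := iGenC _ _ _ D Φ T.carrier e G (min ε τ) hD hSk hTT hGc hG hClose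
      (lt_min hε hτ) (fun t ht => hOm t (ht.trans_le (min_le_right _ _)))
      (fun t n k v ht => hCt t n k v (ht.trans_le (min_le_right _ _)))
    have ht2 : |t| < τ := ht.trans_le (min_le_right _ _)
    have hρ : 0 < (τ - |t|) / 2 := by linarith
    have h1 := iShaC _ _ _ D Φ T.carrier e G t _ hD hSk hTT hG hstab hρ (hSep t ht2)
    obtain ⟨κ, hκ, h2⟩ := iPeC _ _ _ D Φ T.carrier e G t _ hTT hG hClose hρ (hSep t ht2)
    obtain ⟨h3, h4⟩ := iTrPS T.carrier (f.trans (h t)) (G t) (γ t) (hsemi t)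
    exact ⟨t, ht.trans_le (min_le_left _ _), ht2, h3 h1, h4 κ hκ h2⟩
  have hgen : ∀ t : ℝ, PeriodicShadowing (f.trans (h t)) → (∃ κ > 0, TH.PE (f.trans (h t)) κ) →
      TopologicallyHyperbolic (f.trans (h t)) ∧ HasNoCycles (f.trans (h t)) := by
    intro t hps hpe
    obtain ⟨κ, hκ, hPE⟩ := hpe
    have hc : Continuous (f.trans (h t)) := (f.trans (h t)).continuous
    have hΩ := iPsOm T.carrier _ hps
    refine ⟨⟨hΩ, ?_, ?_⟩, ?_⟩
    · rw [hΩ]
      exact TH.prf_ExpB TH.prf_ChTr TH.prf_Rev TH.prf_ExpA T.carrier _ κ hc hps hκ hPE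
    · rw [hΩ]
      exact TH.prf_LimSh T.carrier _ hc (TH.prf_FinSh TH.prf_ChTr TH.prf_Rev T.carrier _ hc hps)
    · exact TH.prf_NoCyc TH.prf_ChTr TH.prf_Rev T.carrier _ _ hc
        (f.trans (h t)).symm.continuous (f.trans (h t)).symm_apply_apply
        (f.trans (h t)).apply_symm_apply hps hΩ
  refine ⟨?_, ?_⟩
  · obtain ⟨t, -, ht, hps, hpe⟩ := key 1 one_pos
    obtain ⟨⟨hΩ, h1, h2⟩, -⟩ := hgen t hps hpe
    have hc : OmegaConjugate f (f.trans (h t)) := hconj f hfN _ (hτN t ht)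
    refine ⟨?_, ?_, ?_⟩
    · exact Subset.antisymm (Dens.density_of_conjugate f.continuous hc hΩ.subset)
        (closure_minimal (TH.periodicPts_subset_Omega _) (TH.isClosed_Omega _))
    · exact TH.prf_TrE T.carrier f _ f.continuous (f.trans (h t)).continuous hc h1
    · exact TH.prf_TrS T.carrier f _ f.continuous (f.trans (h t)).continuous hc h2
  · intro ε hε
    obtain ⟨t, ht1, ht2, hps, hpe⟩ := key ε hε
    refine ⟨t, ht1, f.trans (h t), fun v w hvw => ?_, hps, (hgen t hps hpe).2⟩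
    show h t (f (e v)) = _
    rw [hvw, hh, hDc]

end Pool.Agent.OmegaDC
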